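import Pool.Agent.TH156.Coh

set_option autoImplicit false
set_option linter.unusedSectionVars false
set_option linter.unusedVariables false

namespace Pool.Agent.TH156

section sg

variable {Ω : Type*} [Field Ω]

open Classical in
/-- The sign attached to an element of `ℤ / 2`. -/
noncomputable def sg (x : ZMod 2) : Ω := if x = 0 then 1 else -1

theorem sg_zero : sg (0 : ZMod 2) = (1 : Ω) := if_pos rfl

theorem sg_one : sg (1 : ZMod 2) = (-1 : Ω) := if_neg (by decide)

theorem sg_add (x y : ZMod 2) : sg (x + y) = (sg x * sg y : Ω) := by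
  have h : ∀ z : ZMod 2, z = 0 ∨ z = 1 := by decide
  rcases h x with rfl | rfl <;> rcases h y with rfl | rfl
  · simp [sg_zero]
  · simp [sg_zero]
  · simp [sg_zero]
  · rw [show (1 + 1 : ZMod 2) = 0 by decide, sg_zero, sg_one]; norm_num

theorem sg_inj (h2 : (2 : Ω) ≠ 0) {x y : ZMod 2} (h : (sg x : Ω) = sg y) : x = y := by
  have h' : ∀ z : ZMod 2, z = 0 ∨ z = 1 := by decide
  have h3 : (1 : Ω) ≠ -1 := by
    intro h
    apply h2
    linear_combination h
  rcases h' x with rfl | rfl <;> rcases h' y with rfl | rfl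
  · rfl
  · rw [sg_zero, sg_one] at h; exact absurd h h3
  · rw [sg_zero, sg_one] at h; exact absurd h.symm h3
  · rfl

theorem sg_ne_zero (x : ZMod 2) : (sg x : Ω) ≠ 0 := by
  unfold sg; split_ifs <;> simp

theorem sg_mul_self (x : ZMod 2) : (sg x * sg x : Ω) = 1 := by
  unfold sg; split_ifs <;> simp

end sg

section ch

variable {Ω : Type*} [Field Ω] [IsAlgClosed Ω]

/-- A square root. -/
noncomputable def rt (a : Ω) : Ω := (IsAlgClosed.exists_pow_nat_eq a (n := 2) two_pos).choose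

theorem rt_sq (a : Ω) : rt a ^ 2 = a := (IsAlgClosed.exists_pow_nat_eq a (n := 2) two_pos).choose_spec

theorem rt_ne_zero {a : Ω} (ha : a ≠ 0) : rt a ≠ 0 := by
  intro h
  apply ha
  rw [← rt_sq a, h]
  ring

variable (D : Type*) [Group D] [MulSemiringAction D Ω]

/-- An element fixed by the group. -/
def Fx (a : Ω) : Prop := ∀ σ : D, σ • a = a

variable {D}

section Fx

theorem Fx.mul {a b : Ω} (ha : Fx D a) (hb : Fx D b) : Fx D (a * b) := fun σ => by
  rw [smul_mul', ha σ, hb σ]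

theorem Fx.add {a b : Ω} (ha : Fx D a) (hb : Fx D b) : Fx D (a + b) := fun σ => by
  rw [smul_add, ha σ, hb σ]

theorem Fx.sub {a b : Ω} (ha : Fx D a) (hb : Fx D b) : Fx D (a - b) := fun σ => by
  rw [smul_sub, ha σ, hb σ]

theorem Fx.neg {a : Ω} (ha : Fx D a) : Fx D (-a) := fun σ => by
  rw [smul_neg, ha σ]

theorem Fx.one : Fx D (1 : Ω) := fun σ => smul_one σ

theorem Fx.zero : Fx D (0 : Ω) := fun σ => smul_zero σ

theorem Fx.pow {a : Ω} (ha : Fx D a) (n : ℕ) : Fx D (a ^ n) := fun σ => by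
  rw [smul_pow', ha σ]

theorem Fx.inv {a : Ω} (ha : Fx D a) : Fx D a⁻¹ := fun σ => by
  rw [smul_inv'', ha σ]

theorem Fx.div {a b : Ω} (ha : Fx D a) (hb : Fx D b) : Fx D (a / b) := by
  rw [div_eq_mul_inv]
  exact ha.mul hb.inv

theorem Fx.natCast (n : ℕ) : Fx D (n : Ω) := fun σ => by
  have := map_natCast (MulSemiringAction.toRingHom D Ω σ) n
  exact this

theorem Fx.ofNat (n : ℕ) [n.AtLeastTwo] : Fx D (OfNat.ofNat n : Ω) := by
  have := Fx.natCast (D := D) (Ω := Ω) (OfNat.ofNat n)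
  simpa using this

end Fx

open Classical in
/-- The quadratic character of an element. -/
noncomputable def ch (D : Type*) [Group D] [MulSemiringAction D Ω] (a : Ω) : D → ZMod 2 :=
  fun σ => if σ • rt a = rt a then 0 else 1

theorem smul_root {a r : Ω} (hr : r ^ 2 = a) (ha : Fx D a) (σ : D) : σ • r = r ∨ σ • r = -r := by
  apply sq_eq_sq_iff_eq_or_eq_neg.mp
  rw [← smul_pow', hr, ha σ]

open Classical in
theorem ch_eq {a r : Ω} (hr : r ^ 2 = a) (σ : D) : ch D a σ = if σ • r = r then 0 else 1 := by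
  unfold ch
  have h : rt a = r ∨ rt a = -r := by
    apply sq_eq_sq_iff_eq_or_eq_neg.mp
    rw [rt_sq, hr]
  rcases h with h | h
  · rw [h]
  · rw [h, smul_neg, neg_inj]

theorem ch_spec (h2 : (2 : Ω) ≠ 0) {a r : Ω} (hr : r ^ 2 = a) (ha : Fx D a) (σ : D) :
    σ • r = sg (ch D a σ) * r := by
  rw [ch_eq hr]
  split_ifs with h
  · rw [sg_zero, one_mul, h]
  · rw [sg_one, neg_one_mul]
    exact (smul_root hr ha σ).resolve_left h

theorem ch_eq_of {a r : Ω} (h2 : (2 : Ω) ≠ 0) (hr : r ^ 2 = a) (hr0 : r ≠ 0) (ha : Fx D a) (σ : D)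
    {x : ZMod 2} (h : σ • r = sg x * r) : ch D a σ = x := by
  rw [ch_spec h2 hr ha σ] at h
  exact sg_inj h2 (mul_right_cancel₀ hr0 h)

theorem smul_sg (σ : D) (x : ZMod 2) : σ • (sg x : Ω) = sg x := by
  unfold sg; split_ifs
  · exact smul_one σ
  · rw [smul_neg, smul_one]

theorem ch_mul (h2 : (2 : Ω) ≠ 0) {a b : Ω} (ha : Fx D a) (hb : Fx D b) (ha0 : a ≠ 0) (hb0 : b ≠ 0) :
    ch D (a * b) = ch D a + ch D b := by
  funext σ
  have hr : (rt a * rt b) ^ 2 = a * b := by rw [mul_pow, rt_sq, rt_sq]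
  apply ch_eq_of h2 hr (mul_ne_zero (rt_ne_zero ha0) (rt_ne_zero hb0)) (ha.mul hb)
  rw [smul_mul', ch_spec h2 (rt_sq a) ha, ch_spec h2 (rt_sq b) hb, Pi.add_apply, sg_add]
  ring

theorem ch_sq {c : Ω} (hc : Fx D c) : ch D (c ^ 2) = 0 := by
  funext σ
  rw [ch_eq (r := c) rfl, if_pos (hc σ)]
  rfl

theorem ch_of_sq {a c : Ω} (h : a = c ^ 2) (hc : Fx D c) : ch D a = 0 := by
  rw [h, ch_sq hc]

theorem ch_mul_sq (h2 : (2 : Ω) ≠ 0) {a c : Ω} (ha : Fx D a) (hc : Fx D c) (ha0 : a ≠ 0)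
    (hc0 : c ≠ 0) : ch D (a * c ^ 2) = ch D a := by
  rw [ch_mul h2 ha (hc.pow 2) ha0 (pow_ne_zero 2 hc0), ch_sq hc, add_zero]

theorem ch_congr (h2 : (2 : Ω) ≠ 0) {a b c : Ω} (ha : Fx D a) (hc : Fx D c) (ha0 : a ≠ 0)
    (hc0 : c ≠ 0) (h : b = a * c ^ 2) : ch D b = ch D a := by
  rw [h, ch_mul_sq h2 ha hc ha0 hc0]

variable [TopologicalSpace D]

theorem ch_isChr (h2 : (2 : Ω) ≠ 0) (hlc : ∀ x : Ω, IsLocallyConstant (fun σ : D => σ • x)) {a : Ω}
    (ha : Fx D a) (ha0 : a ≠ 0) : IsChr (ch D a) := by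
  refine ⟨?_, fun σ τ => ?_⟩
  · classical
    exact (hlc (rt a)).comp (fun y => if y = rt a then (0 : ZMod 2) else 1)
  · apply ch_eq_of h2 (rt_sq a) (rt_ne_zero ha0) ha
    rw [mul_smul, ch_spec h2 (rt_sq a) ha τ, smul_mul', smul_sg, ch_spec h2 (rt_sq a) ha σ, sg_add]
    ring

theorem steinberg (h2 : (2 : Ω) ≠ 0) (hlc : ∀ x : Ω, IsLocallyConstant (fun σ : D => σ • x))
    {a b c : Ω} (ha : Fx D a) (hb : Fx D b) (hc : Fx D c) (ha0 : a ≠ 0) (hb0 : b ≠ 0)
    (h : a + b = c ^ 2) : T2 (ch D a) (ch D b) := by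
  classical
  set s := rt b with hs
  have hs2 : s ^ 2 = b := rt_sq b
  have hs0 : s ≠ 0 := rt_ne_zero hb0
  have hfac : (c - s) * (c + s) = a := by
    linear_combination -h - hs2
  have hcs : c - s ≠ 0 := by
    intro h0
    rw [h0, zero_mul] at hfac
    exact ha0 hfac.symm
  set t := rt (c - s) with ht
  have ht2 : t ^ 2 = c - s := rt_sq _
  have ht0 : t ≠ 0 := rt_ne_zero hcs
  set r := rt a with hr
  have hr2 : r ^ 2 = a := rt_sq a
  have hr0 : r ≠ 0 := rt_ne_zero ha0
  set t' := r / t with ht'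
  have ht'0 : t' ≠ 0 := div_ne_zero hr0 ht0
  have hrt : r = t * t' := by rw [ht']; field_simp
  have ht'2 : t' ^ 2 = c + s := by
    have h3 : t ^ 2 * t' ^ 2 = (c - s) * (c + s) := by
      rw [← mul_pow, ← hrt, hr2, hfac]
    rw [ht2] at h3
    exact mul_left_cancel₀ hcs h3
  have hspec : ∀ σ : D, ∃ x : ZMod 2, (ch D b σ = 0 → σ • t = sg x * t) ∧
      (ch D b σ = 1 → σ • t = sg x * t') := by
    intro σ
    have hσs : σ • s = sg (ch D b σ) * s := ch_spec h2 hs2 hb σ
    have h01 : ∀ z : ZMod 2, z = 0 ∨ z = 1 := by decide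
    rcases h01 (ch D b σ) with h0 | h1
    · rw [h0, sg_zero, one_mul] at hσs
      have h4 : (σ • t) ^ 2 = t ^ 2 := by
        rw [← smul_pow', ht2, smul_sub, hc σ, hσs]
      rcases sq_eq_sq_iff_eq_or_eq_neg.mp h4 with h5 | h5
      · exact ⟨0, fun _ => by rw [h5, sg_zero, one_mul], fun h6 => by rw [h0] at h6; exact absurd h6 (by decide)⟩
      · exact ⟨1, fun _ => by rw [h5, sg_one, neg_one_mul], fun h6 => by rw [h0] at h6; exact absurd h6 (by decide)⟩
    · rw [h1, sg_one, neg_one_mul] at hσs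
      have h4 : (σ • t) ^ 2 = t' ^ 2 := by
        rw [← smul_pow', ht2, smul_sub, hc σ, hσs, ht'2]; ring
      rcases sq_eq_sq_iff_eq_or_eq_neg.mp h4 with h5 | h5
      · exact ⟨0, fun h6 => by rw [h1] at h6; exact absurd h6 (by decide), fun _ => by rw [h5, sg_zero, one_mul]⟩
      · exact ⟨1, fun h6 => by rw [h1] at h6; exact absurd h6 (by decide), fun _ => by rw [h5, sg_one, neg_one_mul]⟩
  -- the cochain
  let f : D → ZMod 2 := fun σ => if ch D b σ = 0 then (if σ • t = t then 0 else 1)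
    else (if σ • t = t' then 0 else 1)
  have hf0 : ∀ σ : D, ch D b σ = 0 → σ • t = sg (f σ) * t := by
    intro σ h0
    obtain ⟨x, hx, -⟩ := hspec σ
    have hx := hx h0
    have : f σ = if σ • t = t then 0 else 1 := if_pos h0
    rw [this]
    split_ifs with h5
    · rw [sg_zero, one_mul, h5]
    · have h01 : ∀ z : ZMod 2, z = 0 ∨ z = 1 := by decide
      rcases h01 x with rfl | rfl
      · rw [sg_zero, one_mul] at hx; exact absurd hx h5
      · exact hx
  have hf1 : ∀ σ : D, ch D b σ = 1 → σ • t = sg (f σ) * t' := by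
    intro σ h1
    obtain ⟨x, -, hx⟩ := hspec σ
    have hx := hx h1
    have : f σ = if σ • t = t' then 0 else 1 := if_neg (by rw [h1]; decide)
    rw [this]
    split_ifs with h5
    · rw [sg_zero, one_mul, h5]
    · have h01 : ∀ z : ZMod 2, z = 0 ∨ z = 1 := by decide
      rcases h01 x with rfl | rfl
      · rw [sg_zero, one_mul] at hx; exact absurd hx h5
      · exact hx
  have hlcf : IsLocallyConstant f := by
    have h3 : IsLocallyConstant (fun σ : D => (σ • s, σ • t)) := (hlc s).prodMk (hlc t)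
    have h4 : f = (fun p : Ω × Ω => if (if p.1 = s then (0 : ZMod 2) else 1) = 0 then (if p.2 = t then (0 : ZMod 2) else 1)
        else (if p.2 = t' then 0 else 1)) ∘ (fun σ : D => (σ • s, σ • t)) := by
      funext σ
      simp only [f, Function.comp]
      rw [ch_eq hs2]
    rw [h4]
    exact h3.comp _
  refine ⟨f, hlcf, fun σ τ => ?_⟩
  have hb' := (ch_isChr h2 hlc hb hb0).mul σ τ
  have hσr : σ • r = sg (ch D a σ) * r := ch_spec h2 hr2 ha σ
  have hσt' : ch D b σ = 0 → σ • t' = sg (ch D a σ + f σ) * t' := by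
    intro h0
    have h5 := hf0 σ h0
    have h6 : (σ • t) * (σ • t') = sg (ch D a σ) * (t * t') := by
      rw [← smul_mul', ← hrt, hσr, hrt]
    rw [h5] at h6
    have h7 : sg (f σ) * (σ • t') = sg (ch D a σ) * t' := by
      apply mul_left_cancel₀ ht0
      linear_combination h6
    rw [sg_add]
    apply mul_left_cancel₀ (sg_ne_zero (Ω := Ω) (f σ))
    linear_combination h7 - sg (ch D a σ) * t' * sg_mul_self (Ω := Ω) (f σ)
  have hσt'' : ch D b σ = 1 → σ • t' = sg (ch D a σ + f σ) * t := by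
    intro h0
    have h5 := hf1 σ h0
    have h6 : (σ • t) * (σ • t') = sg (ch D a σ) * (t * t') := by
      rw [← smul_mul', ← hrt, hσr, hrt]
    rw [h5] at h6
    have h7 : sg (f σ) * (σ • t') = sg (ch D a σ) * t := by
      apply mul_left_cancel₀ ht'0
      linear_combination h6
    rw [sg_add]
    apply mul_left_cancel₀ (sg_ne_zero (Ω := Ω) (f σ))
    linear_combination h7 - sg (ch D a σ) * t * sg_mul_self (Ω := Ω) (f σ)
  have h01 : ∀ z : ZMod 2, z = 0 ∨ z = 1 := by decide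
  have key : f (σ * τ) = f σ + f τ + ch D a σ * ch D b τ := by
    rcases h01 (ch D b σ) with hσ | hσ <;> rcases h01 (ch D b τ) with hτ | hτ
    · rw [hσ, hτ] at hb'
      have h8 := hf0 (σ * τ) (by rw [hb']; rfl)
      rw [mul_smul, hf0 τ hτ, smul_mul', smul_sg, hf0 σ hσ] at h8
      rw [hτ, mul_zero, add_zero]
      apply sg_inj h2
      rw [sg_add]
      apply mul_right_cancel₀ ht0
      linear_combination -h8
    · rw [hσ, hτ] at hb'
      have h8 := hf1 (σ * τ) (by rw [hb']; rfl)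
      rw [mul_smul, hf1 τ hτ, smul_mul', smul_sg, hσt' hσ] at h8
      rw [hτ, mul_one]
      apply sg_inj h2
      rw [sg_add, sg_add]
      rw [sg_add] at h8
      apply mul_right_cancel₀ ht'0
      linear_combination -h8
    · rw [hσ, hτ] at hb'
      have h8 := hf1 (σ * τ) (by rw [hb']; rfl)
      rw [mul_smul, hf0 τ hτ, smul_mul', smul_sg, hf1 σ hσ] at h8
      rw [hτ, mul_zero, add_zero]
      apply sg_inj h2
      rw [sg_add]
      apply mul_right_cancel₀ ht'0
      linear_combination -h8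
    · rw [hσ, hτ] at hb'
      have h8 := hf0 (σ * τ) (by rw [hb']; rfl)
      rw [mul_smul, hf1 τ hτ, smul_mul', smul_sg, hσt'' hσ] at h8
      rw [hτ, mul_one]
      apply sg_inj h2
      rw [sg_add, sg_add]
      rw [sg_add] at h8
      apply mul_right_cancel₀ ht0
      linear_combination -h8
  rw [key]
  linear_combination (-(f σ + f τ)) * zmod2_add_self 1

end ch

end Pool.Agent.TH156
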