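import Pool.Agent.TH156.Defs

set_option autoImplicit false
set_option linter.unusedSectionVars false
set_option linter.unusedVariables false

namespace Pool.Agent.TH156

section explicit

variable {G : Type*} [Group G]

theorem zmod2_add_self (a : ZMod 2) : a + a = 0 := CharTwo.add_self_eq_zero a

theorem diff_three (b : (Fin 3 → G) → ZMod 2) (g0 g1 g2 g3 : G) :
    diff 2 3 G b ![g0, g1, g2, g3] = b ![g1, g2, g3] + b ![g0 * g1, g2, g3] + b ![g0, g1 * g2, g3] +
      b ![g0, g1, g2 * g3] + b ![g0, g1, g2] := by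
  have e0 : (fun i : Fin 3 => (![g0, g1, g2, g3] : Fin 4 → G) i.succ) = ![g1, g2, g3] := by
    funext i; fin_cases i <;> rfl
  have e1 : Fin.contractNth 0 (· * ·) ![g0, g1, g2, g3] = ![g0 * g1, g2, g3] := by
    funext i; fin_cases i <;> rfl
  have e2 : Fin.contractNth 1 (· * ·) ![g0, g1, g2, g3] = ![g0, g1 * g2, g3] := by
    funext i; fin_cases i <;> rfl
  have e3 : Fin.contractNth 2 (· * ·) ![g0, g1, g2, g3] = ![g0, g1, g2 * g3] := by
    funext i; fin_cases i <;> rfl
  have e4 : Fin.contractNth 3 (· * ·) ![g0, g1, g2, g3] = ![g0, g1, g2] := by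
    funext i; fin_cases i <;> rfl
  have hm : (-1 : ZMod 2) = 1 := by decide
  have h := Fin.sum_univ_four (fun j : Fin 4 =>
    (-1 : ZMod 2) ^ ((j : ℕ) + 1) * b (Fin.contractNth j (· * ·) ![g0, g1, g2, g3]))
  simp only [e1, e2, e3, e4, hm, one_pow, one_mul] at h
  change b (fun i : Fin 3 => (![g0, g1, g2, g3] : Fin 4 → G) i.succ) + _ = _
  rw [e0]
  simp only [hm, one_pow, one_mul] at h ⊢
  rw [h]
  ring

theorem diff_four (b : (Fin 4 → G) → ZMod 2) (g0 g1 g2 g3 g4 : G) :
    diff 2 4 G b ![g0, g1, g2, g3, g4] = b ![g1, g2, g3, g4] + b ![g0 * g1, g2, g3, g4] +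
      b ![g0, g1 * g2, g3, g4] + b ![g0, g1, g2 * g3, g4] + b ![g0, g1, g2, g3 * g4] +
      b ![g0, g1, g2, g3] := by
  have e0 : (fun i : Fin 4 => (![g0, g1, g2, g3, g4] : Fin 5 → G) i.succ) = ![g1, g2, g3, g4] := by
    funext i; fin_cases i <;> rfl
  have e1 : Fin.contractNth 0 (· * ·) ![g0, g1, g2, g3, g4] = ![g0 * g1, g2, g3, g4] := by
    funext i; fin_cases i <;> rfl
  have e2 : Fin.contractNth 1 (· * ·) ![g0, g1, g2, g3, g4] = ![g0, g1 * g2, g3, g4] := by
    funext i; fin_cases i <;> rfl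
  have e3 : Fin.contractNth 2 (· * ·) ![g0, g1, g2, g3, g4] = ![g0, g1, g2 * g3, g4] := by
    funext i; fin_cases i <;> rfl
  have e4 : Fin.contractNth 3 (· * ·) ![g0, g1, g2, g3, g4] = ![g0, g1, g2, g3 * g4] := by
    funext i; fin_cases i <;> rfl
  have e5 : Fin.contractNth 4 (· * ·) ![g0, g1, g2, g3, g4] = ![g0, g1, g2, g3] := by
    funext i; fin_cases i <;> rfl
  have hm : (-1 : ZMod 2) = 1 := by decide
  have h := Fin.sum_univ_five (fun j : Fin 5 =>
    (-1 : ZMod 2) ^ ((j : ℕ) + 1) * b (Fin.contractNth j (· * ·) ![g0, g1, g2, g3, g4]))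
  simp only [e1, e2, e3, e4, e5, hm, one_pow, one_mul] at h
  change b (fun i : Fin 4 => (![g0, g1, g2, g3, g4] : Fin 5 → G) i.succ) + _ = _
  rw [e0]
  simp only [hm, one_pow, one_mul] at h ⊢
  rw [h]
  ring

theorem vec4_eta (g : Fin 4 → G) : g = ![g 0, g 1, g 2, g 3] := by
  funext i; fin_cases i <;> rfl

theorem vec5_eta (g : Fin 5 → G) : g = ![g 0, g 1, g 2, g 3, g 4] := by
  funext i; fin_cases i <;> rfl

end explicit

section chr

variable {G : Type*} [Group G] [TopologicalSpace G]

/-- A continuous character with values in `ℤ / 2`. -/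
structure IsChr (a : G → ZMod 2) : Prop where
  lc : IsLocallyConstant a
  mul : ∀ g h, a (g * h) = a g + a h

theorem IsChr.zero : IsChr (0 : G → ZMod 2) := ⟨IsLocallyConstant.const 0, fun _ _ => by simp⟩

theorem IsChr.add {a b : G → ZMod 2} (ha : IsChr a) (hb : IsChr b) : IsChr (a + b) :=
  ⟨ha.lc.add hb.lc, fun g h => by
    rw [Pi.add_apply, Pi.add_apply, Pi.add_apply, ha.mul, hb.mul]; ring⟩

/-- The cup product of two characters is trivial. -/
def T2 (a b : G → ZMod 2) : Prop :=
  ∃ f : G → ZMod 2, IsLocallyConstant f ∧ ∀ g h, a g * b h = f h + f (g * h) + f g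

/-- The cup product of three characters is trivial. -/
def T3 (a b c : G → ZMod 2) : Prop :=
  ∃ f : G → G → ZMod 2, IsLocallyConstant (fun p : G × G => f p.1 p.2) ∧
    ∀ g h j, a g * b h * c j = f h j + f (g * h) j + f g (h * j) + f g h

/-- The cup product of four characters is trivial. -/
def T4 (a b c d : G → ZMod 2) : Prop :=
  ∃ f : G → G → G → ZMod 2, IsLocallyConstant (fun p : G × G × G => f p.1 p.2.1 p.2.2) ∧
    ∀ g h j l, a g * b h * c j * d l =
      f h j l + f (g * h) j l + f g (h * j) l + f g h (j * l) + f g h j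

/-- The cup product cochain. -/
def cup4 (a b c d : G → ZMod 2) : (Fin 4 → G) → ZMod 2 := fun g => a (g 0) * b (g 1) * c (g 2) * d (g 3)

theorem T4.mem {a b c d : G → ZMod 2} (h : T4 a b c d) : cup4 a b c d ∈ coboundaries 2 G 4 := by
  obtain ⟨f, hf, h⟩ := h
  refine ⟨fun g => f (g 0) (g 1) (g 2), ?_, ?_⟩
  · exact hf.comp_continuous (f := fun g : Fin 3 → G => (g 0, g 1, g 2))
      ((continuous_apply 0).prodMk ((continuous_apply 1).prodMk (continuous_apply 2)))
  · funext g
    rw [vec4_eta g, diff_three]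
    simp only [cup4]
    exact (h _ _ _ _).symm

theorem lc_comp {X : Type*} [TopologicalSpace X] {f : G → ZMod 2} (hf : IsLocallyConstant f)
    {u : X → G} (hu : Continuous u) : IsLocallyConstant (fun x => f (u x)) :=
  hf.comp_continuous hu

theorem cup4_mem {a b c d : G → ZMod 2} (ha : IsChr a) (hb : IsChr b) (hc : IsChr c)
    (hd : IsChr d) : cup4 a b c d ∈ cocycles 2 4 G := by
  refine ⟨?_, ?_⟩
  · exact (((lc_comp ha.lc (continuous_apply 0)).mul (lc_comp hb.lc (continuous_apply 1))).mul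
      (lc_comp hc.lc (continuous_apply 2))).mul (lc_comp hd.lc (continuous_apply 3))
  · funext g
    rw [vec5_eta g, diff_four]
    simp only [cup4, Pi.zero_apply]
    simp only [Matrix.cons_val_zero, Matrix.cons_val_one, Matrix.cons_val, ha.mul, hb.mul, hc.mul,
      hd.mul]
    linear_combination (a (g 1) * b (g 2) * c (g 3) * d (g 4) + a (g 0) * b (g 2) * c (g 3) * d (g 4)
      + a (g 0) * b (g 1) * c (g 3) * d (g 4) + a (g 0) * b (g 1) * c (g 2) * d (g 4)
      + a (g 0) * b (g 1) * c (g 2) * d (g 3)) * (zmod2_add_self 1)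

theorem T2.zero_right {a : G → ZMod 2} : T2 a 0 :=
  ⟨0, IsLocallyConstant.const 0, fun _ _ => by simp⟩

theorem T2.symm {a b : G → ZMod 2} (ha : IsChr a) (hb : IsChr b) (h : T2 a b) : T2 b a := by
  obtain ⟨f, hf, h⟩ := h
  refine ⟨fun g => f g + a g * b g, hf.add (ha.lc.mul hb.lc), fun g j => ?_⟩
  have h1 := h g j
  simp only [ha.mul, hb.mul]
  linear_combination h1 - (a g * b j + a g * b g + a j * b j) * zmod2_add_self 1

theorem T2.add_right {a b c : G → ZMod 2} (h : T2 a b) (h' : T2 a c) : T2 a (b + c) := by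
  obtain ⟨f, hf, h⟩ := h
  obtain ⟨f', hf', h'⟩ := h'
  refine ⟨f + f', hf.add hf', fun g j => ?_⟩
  have h1 := h g j
  have h2 := h' g j
  simp only [Pi.add_apply]
  linear_combination h1 + h2

theorem T2.mul_right {a b c : G → ZMod 2} (h : T2 a b) (hc : IsChr c) [ContinuousMul G] :
    T3 a b c := by
  obtain ⟨f, hf, h⟩ := h
  refine ⟨fun g j => f g * c j, (lc_comp hf continuous_fst).mul (lc_comp hc.lc continuous_snd),
    fun g j l => ?_⟩
  simp only [h g j, hc.mul]
  linear_combination (- f g * c j) * zmod2_add_self 1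

theorem T2.mul_left {a b c : G → ZMod 2} (h : T2 b c) (ha : IsChr a) [ContinuousMul G] :
    T3 a b c := by
  obtain ⟨f, hf, h⟩ := h
  refine ⟨fun g j => a g * f j, (lc_comp ha.lc continuous_fst).mul (lc_comp hf continuous_snd),
    fun g j l => ?_⟩
  simp only [mul_assoc, h j l, ha.mul]
  linear_combination (-(a j * f l)) * zmod2_add_self 1

theorem T3.add1 {a a' b c : G → ZMod 2} (h : T3 a b c) (h' : T3 a' b c) : T3 (a + a') b c := by
  obtain ⟨f, hf, h⟩ := h
  obtain ⟨f', hf', h'⟩ := h'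
  refine ⟨fun g j => f g j + f' g j, hf.add hf', fun g j l => ?_⟩
  simp only [Pi.add_apply]
  linear_combination h g j l + h' g j l

theorem T3.add2 {a b b' c : G → ZMod 2} (h : T3 a b c) (h' : T3 a b' c) : T3 a (b + b') c := by
  obtain ⟨f, hf, h⟩ := h
  obtain ⟨f', hf', h'⟩ := h'
  refine ⟨fun g j => f g j + f' g j, hf.add hf', fun g j l => ?_⟩
  simp only [Pi.add_apply]
  linear_combination h g j l + h' g j l

theorem T3.add3 {a b c c' : G → ZMod 2} (h : T3 a b c) (h' : T3 a b c') : T3 a b (c + c') := by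
  obtain ⟨f, hf, h⟩ := h
  obtain ⟨f', hf', h'⟩ := h'
  refine ⟨fun g j => f g j + f' g j, hf.add hf', fun g j l => ?_⟩
  simp only [Pi.add_apply]
  linear_combination h g j l + h' g j l

theorem T3.swap12 {a b c : G → ZMod 2} (ha : IsChr a) (hb : IsChr b) (hc : IsChr c)
    (h : T3 a b c) : T3 b a c := by
  obtain ⟨f, hf, h⟩ := h
  refine ⟨fun g j => f g j + a g * b g * c j,
    hf.add (((lc_comp ha.lc continuous_fst).mul (lc_comp hb.lc continuous_fst)).mul
      (lc_comp hc.lc continuous_snd)), fun g j l => ?_⟩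
  have h1 := h g j l
  simp only [ha.mul, hb.mul, hc.mul]
  linear_combination h1 - (a g * b j * c l + a g * b g * c l + a j * b j * c l + a g * b g * c j) *
    zmod2_add_self 1

theorem T3.swap23 {a b c : G → ZMod 2} (ha : IsChr a) (hb : IsChr b) (hc : IsChr c)
    (h : T3 a b c) : T3 a c b := by
  obtain ⟨f, hf, h⟩ := h
  refine ⟨fun g j => f g j + a g * (b j * c j),
    hf.add ((lc_comp ha.lc continuous_fst).mul ((lc_comp hb.lc continuous_snd).mul
      (lc_comp hc.lc continuous_snd))), fun g j l => ?_⟩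
  have h1 := h g j l
  simp only [ha.mul, hb.mul, hc.mul]
  linear_combination h1 - (a g * b j * c l + a g * b l * c l + a j * b l * c l + a g * b j * c j) *
    zmod2_add_self 1

theorem T3.mul_right {a b c d : G → ZMod 2} (h : T3 a b c) (hd : IsChr d) : T4 a b c d := by
  obtain ⟨f, hf, h⟩ := h
  refine ⟨fun g j l => f g j * d l, ?_, fun g j l m => ?_⟩
  · exact (hf.comp_continuous (f := fun p : G × G × G => (p.1, p.2.1))
      (continuous_fst.prodMk (continuous_fst.comp continuous_snd))).mul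
      (lc_comp hd.lc (continuous_snd.comp continuous_snd))
  · simp only [h g j l, hd.mul]
    linear_combination (-f g j * d l) * zmod2_add_self 1

theorem T4.zero4 {a b c : G → ZMod 2} : T4 a b c 0 :=
  ⟨fun _ _ _ => 0, IsLocallyConstant.const 0, fun _ _ _ _ => by simp⟩

/-- Addition in characteristic two. -/
theorem chr_add_self (a : G → ZMod 2) : a + a = 0 := by
  funext g
  exact zmod2_add_self _

theorem T3.of_add2 {a b b' c : G → ZMod 2} (h : T3 a (b + b') c) (h' : T3 a b' c) : T3 a b c := by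
  have := h.add2 h'
  rwa [add_assoc, chr_add_self, add_zero] at this

theorem T3.of_add3 {a b c c' : G → ZMod 2} (h : T3 a b (c + c')) (h' : T3 a b c') : T3 a b c := by
  have := h.add3 h'
  rwa [add_assoc, chr_add_self, add_zero] at this

theorem T2.of_add {a b c : G → ZMod 2} (h : T2 a (b + c)) (h' : T2 a c) : T2 a b := by
  have := h.add_right h'
  rwa [add_assoc, chr_add_self, add_zero] at this

end chr

end Pool.Agent.TH156
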