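import Pool.Agent.TH156.Wrap

set_option autoImplicit false
set_option linter.unusedSectionVars false
set_option linter.unusedVariables false

namespace Pool.Agent.TH156

section comm

variable {G : Type*} [Group G]

open Equiv

/-- The sum over the permutations of four elements. -/
def permSum (σ : Fin 4 → G) (f : (Fin 4 → G) → ZMod 2) : ZMod 2 :=
  ∑ π : Perm (Fin 4), f fun i => σ (π i)

theorem sum_swap_zero (φ : Perm (Fin 4) → ZMod 2) (a b : Fin 4) (hab : a ≠ b)
    (h : ∀ π, φ (π * swap a b) = φ π) : ∑ π : Perm (Fin 4), φ π = 0 := by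
  apply Finset.sum_involution (fun π _ => π * swap a b)
  · intro π _
    rw [h]
    exact zmod2_add_self _
  · intro π _ _ h1
    have h2 : swap a b = 1 := mul_left_cancel (a := π) (by rw [h1, mul_one])
    have h3 := congrArg (fun e : Perm (Fin 4) => e a) h2
    simp only [swap_apply_left, Perm.coe_one, id] at h3
    exact hab h3.symm
  · intro π _
    exact Finset.mem_univ _
  · intro π _
    rw [mul_assoc, swap_mul_self, mul_one]

theorem permSum_diff (σ : Fin 4 → G) (hσ : ∀ i j, σ i * σ j = σ j * σ i)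
    (b : (Fin 3 → G) → ZMod 2) : permSum σ (diff 2 3 G b) = 0 := by
  unfold permSum
  have h1 : ∀ π : Perm (Fin 4), diff 2 3 G b (fun i => σ (π i)) =
      b ![σ (π 1), σ (π 2), σ (π 3)] + b ![σ (π 0), σ (π 1), σ (π 2)] +
        (b ![σ (π 0) * σ (π 1), σ (π 2), σ (π 3)] + b ![σ (π 0), σ (π 1) * σ (π 2), σ (π 3)] +
          b ![σ (π 0), σ (π 1), σ (π 2) * σ (π 3)]) := by
    intro π
    rw [vec4_eta (fun i => σ (π i)), diff_three]
    ring
  simp only [h1, Finset.sum_add_distrib]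
  have e1 : ∑ π : Perm (Fin 4), b ![σ (π 0) * σ (π 1), σ (π 2), σ (π 3)] = 0 := by
    apply sum_swap_zero _ 0 1 (by decide)
    intro π
    have h0 : (π * swap 0 1 : Perm (Fin 4)) 0 = π 1 := by rw [Perm.mul_apply, swap_apply_left]
    have h1 : (π * swap 0 1 : Perm (Fin 4)) 1 = π 0 := by rw [Perm.mul_apply, swap_apply_right]
    have h2 : (π * swap 0 1 : Perm (Fin 4)) 2 = π 2 := by
      rw [Perm.mul_apply, swap_apply_of_ne_of_ne (by decide) (by decide)]
    have h3 : (π * swap 0 1 : Perm (Fin 4)) 3 = π 3 := by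
      rw [Perm.mul_apply, swap_apply_of_ne_of_ne (by decide) (by decide)]
    rw [h0, h1, h2, h3, hσ (π 1) (π 0)]
  have e2 : ∑ π : Perm (Fin 4), b ![σ (π 0), σ (π 1) * σ (π 2), σ (π 3)] = 0 := by
    apply sum_swap_zero _ 1 2 (by decide)
    intro π
    have h0 : (π * swap 1 2 : Perm (Fin 4)) 1 = π 2 := by rw [Perm.mul_apply, swap_apply_left]
    have h1 : (π * swap 1 2 : Perm (Fin 4)) 2 = π 1 := by rw [Perm.mul_apply, swap_apply_right]
    have h2 : (π * swap 1 2 : Perm (Fin 4)) 0 = π 0 := by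
      rw [Perm.mul_apply, swap_apply_of_ne_of_ne (by decide) (by decide)]
    have h3 : (π * swap 1 2 : Perm (Fin 4)) 3 = π 3 := by
      rw [Perm.mul_apply, swap_apply_of_ne_of_ne (by decide) (by decide)]
    rw [h0, h1, h2, h3, hσ (π 2) (π 1)]
  have e3 : ∑ π : Perm (Fin 4), b ![σ (π 0), σ (π 1), σ (π 2) * σ (π 3)] = 0 := by
    apply sum_swap_zero _ 2 3 (by decide)
    intro π
    have h0 : (π * swap 2 3 : Perm (Fin 4)) 2 = π 3 := by rw [Perm.mul_apply, swap_apply_left]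
    have h1 : (π * swap 2 3 : Perm (Fin 4)) 3 = π 2 := by rw [Perm.mul_apply, swap_apply_right]
    have h2 : (π * swap 2 3 : Perm (Fin 4)) 0 = π 0 := by
      rw [Perm.mul_apply, swap_apply_of_ne_of_ne (by decide) (by decide)]
    have h3 : (π * swap 2 3 : Perm (Fin 4)) 1 = π 1 := by
      rw [Perm.mul_apply, swap_apply_of_ne_of_ne (by decide) (by decide)]
    rw [h0, h1, h2, h3, hσ (π 3) (π 2)]
  have e4 : ∑ π : Perm (Fin 4), b ![σ (π 0), σ (π 1), σ (π 2)] =
      ∑ π : Perm (Fin 4), b ![σ (π 1), σ (π 2), σ (π 3)] := by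
    rw [← Equiv.sum_comp (Equiv.mulRight (finRotate 4))
      (fun π : Perm (Fin 4) => b ![σ (π 0), σ (π 1), σ (π 2)])]
    apply Finset.sum_congr rfl
    intro π _
    simp only [Equiv.coe_mulRight, Perm.mul_apply]
    rfl
  rw [e1, e2, e3, e4, zmod2_add_self]
  rfl

theorem cup4_not_mem [TopologicalSpace G] (σ : Fin 4 → G) (hσ : ∀ i j, σ i * σ j = σ j * σ i)
    (χ : Fin 4 → G → ZMod 2) (hχ : ∀ i j, χ i (σ j) = if i = j then 1 else 0) :
    cup4 (χ 0) (χ 1) (χ 2) (χ 3) ∉ coboundaries 2 G 4 := by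
  rintro ⟨b, -, hb⟩
  have h1 := permSum_diff σ hσ b
  rw [hb] at h1
  unfold permSum at h1
  rw [Finset.sum_eq_single 1] at h1
  · simp only [cup4, Perm.coe_one, id, hχ] at h1
    simp at h1
  · intro π _ hπ
    by_contra hne
    apply hπ
    simp only [cup4, hχ] at hne
    have h3 := right_ne_zero_of_mul hne
    have h012 := left_ne_zero_of_mul hne
    have h2 := right_ne_zero_of_mul h012
    have h01 := left_ne_zero_of_mul h012
    have h1 := right_ne_zero_of_mul h01
    have h0 := left_ne_zero_of_mul h01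
    have k0 : 0 = π 0 := by by_contra h; exact h0 (if_neg h)
    have k1 : 1 = π 1 := by by_contra h; exact h1 (if_neg h)
    have k2 : 2 = π 2 := by by_contra h; exact h2 (if_neg h)
    have k3 : 3 = π 3 := by by_contra h; exact h3 (if_neg h)
    ext i
    fin_cases i
    · change ((π 0 : Fin 4) : ℕ) = _; rw [← k0]; rfl
    · change ((π 1 : Fin 4) : ℕ) = _; rw [← k1]; rfl
    · change ((π 2 : Fin 4) : ℕ) = _; rw [← k2]; rfl
    · change ((π 3 : Fin 4) : ℕ) = _; rw [← k3]; rfl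
  · intro h
    exact absurd (Finset.mem_univ _) h

end comm

section embed

variable {K E : Type*} [Field K] [CharZero K] [Field E] [IsAlgClosed E]

/-- A criterion for the nonvanishing of the class of a symbol. -/
theorem symCl_ne (φ : K →+* E) (σ : Fin 4 → (E ≃+* E))
    (hσ : ∀ i j x, σ i (σ j x) = σ j (σ i x)) (hφ : ∀ i x, σ i (φ x) = φ x)
    (a : Fin 4 → K) (ha : ∀ i, a i ≠ 0) (ρ : Fin 4 → E) (hρ : ∀ i, ρ i ^ 2 = φ (a i))
    (hact : ∀ i j, σ j (ρ i) = if i = j then - ρ i else ρ i) :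
    (symCl (a 0) (a 1) (a 2) (a 3) (ha 0) (ha 1) (ha 2) (ha 3) : (Fin 4 → GalK K) → ZMod 2) ∉
      coboundaries 2 (GalK K) 4 := by
  letI : Algebra K E := φ.toAlgebra
  let ι : AlgebraicClosure K →ₐ[K] E := IsAlgClosed.lift
  letI : Algebra (AlgebraicClosure K) E := ι.toRingHom.toAlgebra
  haveI : IsScalarTower K (AlgebraicClosure K) E := IsScalarTower.of_algebraMap_eq fun x => by
    exact (ι.commutes x).symm
  haveI : Normal K (AlgebraicClosure K) := IsAlgClosure.normal K _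
  let τ : Fin 4 → (E ≃ₐ[K] E) := fun j => AlgEquiv.ofRingEquiv (f := σ j) (hφ j)
  let s : Fin 4 → GalK K := fun j => (τ j).restrictNormal (AlgebraicClosure K)
  have hs : ∀ j (x : AlgebraicClosure K), ι (s j x) = σ j (ι x) := fun j x =>
    AlgEquiv.restrictNormal_commutes (τ j) (AlgebraicClosure K) x
  have hι : Function.Injective ι := ι.injective
  have hcomm : ∀ i j, s i * s j = s j * s i := by
    intro i j
    ext x
    apply hι
    change ι (s i (s j x)) = ι (s j (s i x))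
    rw [hs, hs, hs, hs, hσ]
  have h2 : (2 : AlgebraicClosure K) ≠ 0 := two_ne_zero
  have hEc : (2 : E) ≠ 0 := by
    have := (map_ne_zero φ).2 (two_ne_zero (α := K))
    rwa [map_ofNat] at this
  refine cup4_not_mem s hcomm
    (fun i => ch (GalK K) (algebraMap K (AlgebraicClosure K) (a i))) ?_
  intro i j
  have hr := rt_sq (algebraMap K (AlgebraicClosure K) (a i))
  set r := rt (algebraMap K (AlgebraicClosure K) (a i)) with hrdef
  have hr0 : r ≠ 0 := rt_ne_zero ((map_ne_zero _).2 (ha i))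
  have hιr : ι r ^ 2 = ρ i ^ 2 := by
    rw [← map_pow, hr, hρ]
    exact ι.commutes (a i)
  have hact' : σ j (ι r) = if i = j then - ι r else ι r := by
    rcases sq_eq_sq_iff_eq_or_eq_neg.mp hιr with h | h
    · rw [h, hact]
    · rw [h, map_neg, hact]
      split_ifs <;> rfl
  apply ch_eq_of h2 hr hr0 (fx_gal (a i))
  apply hι
  change ι (s j r) = _
  rw [hs, hact']
  split_ifs with hij
  · rw [sg_one, neg_one_mul, map_neg]
  · rw [sg_zero, one_mul]

theorem symCl_sub {N y x g₁ g₂ g₃ : K} (hN : N ≠ 0) (hy : y ≠ 0) (hx : x ≠ 0) (h₁ : g₁ ≠ 0)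
    (h₂ : g₂ ≠ 0) (h₃ : g₃ ≠ 0) {c : K} (hc : c ≠ 0) (h : g₁ * g₂ = g₃ * c ^ 2) :
    symCl N y x g₁ hN hy hx h₁ - symCl N y x g₂ hN hy hx h₂ = symCl N y x g₃ hN hy hx h₃ := by
  apply Subtype.ext
  funext g
  have h2 : (2 : AlgebraicClosure K) ≠ 0 := two_ne_zero
  set j := algebraMap K (AlgebraicClosure K) with hj
  have hne : ∀ {z : K}, z ≠ 0 → j z ≠ 0 := fun hz => (map_ne_zero j).2 hz
  have e1 : ch (GalK K) (j g₁) + ch (GalK K) (j g₂) = ch (GalK K) (j g₃) := by
    rw [← ch_mul h2 (fx_gal g₁) (fx_gal g₂) (hne h₁) (hne h₂), ← map_mul, h]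
    exact ch_congr h2 (fx_gal g₃) (fx_gal c) (hne h₃) (hne hc) (by rw [map_mul, map_pow])
  have e2 := congrFun e1 (g 3)
  change ch (GalK K) (j N) (g 0) * ch (GalK K) (j y) (g 1) * ch (GalK K) (j x) (g 2) *
    ch (GalK K) (j g₁) (g 3) - ch (GalK K) (j N) (g 0) * ch (GalK K) (j y) (g 1) *
    ch (GalK K) (j x) (g 2) * ch (GalK K) (j g₂) (g 3) = ch (GalK K) (j N) (g 0) *
    ch (GalK K) (j y) (g 1) * ch (GalK K) (j x) (g 2) * ch (GalK K) (j g₃) (g 3)
  rw [← e2, Pi.add_apply]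
  linear_combination (-(ch (GalK K) (j N) (g 0) * ch (GalK K) (j y) (g 1) *
    ch (GalK K) (j x) (g 2) * ch (GalK K) (j g₂) (g 3))) * zmod2_add_self 1

/-- Infinitely many unramified classes. -/
theorem infinite_Hnr {k : Type*} [Field k] [Algebra k K] {N y x : K} (g : ℕ → K) (hN : N ≠ 0)
    (hy : y ≠ 0) (hx : x ≠ 0) (hg : ∀ n, g n ≠ 0)
    (hunr : ∀ n m, (QuotientAddGroup.mk (symCl N y x (g n * g m) hN hy hx
      (mul_ne_zero (hg n) (hg m))) : H 2 4 (GalK K)) ∈ Hnr 2 4 K k)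
    (hne : ∀ n m, n ≠ m → (symCl N y x (g n * g m) hN hy hx (mul_ne_zero (hg n) (hg m)) :
      (Fin 4 → GalK K) → ZMod 2) ∉ coboundaries 2 (GalK K) 4) : Infinite (Hnr 2 4 K k) := by
  refine Infinite.of_injective (fun n : ℕ => (⟨_, hunr 0 n⟩ : Hnr 2 4 K k)) ?_
  intro n m hnm
  by_contra hcon
  apply hne n m hcon
  have h1 := congrArg Subtype.val hnm
  simp only at h1
  rw [QuotientAddGroup.eq] at h1
  rw [AddSubgroup.mem_addSubgroupOf] at h1
  have h2 := neg_mem h1
  have h3 := symCl_sub hN hy hx (mul_ne_zero (hg 0) (hg n)) (mul_ne_zero (hg 0) (hg m))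
    (mul_ne_zero (hg n) (hg m)) (c := g 0) (hg 0) (by ring)
  rw [← h3]
  convert h2 using 1
  push_cast
  abel

end embed

end Pool.Agent.TH156
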