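import Pool.Agent.TH156.Defs

set_option autoImplicit false
set_option linter.unusedSectionVars false
set_option linter.unusedVariables false

open Polynomial

namespace Pool.Agent.TH156

theorem nonsq_field {L : Type*} [Field L] (h2 : (2 : L) ≠ 0) {α ρ : L} (hα : α ≠ 0) (hρ : ρ ≠ 0)
    {a b : L[X]} (h : a ^ 2 = b ^ 2 * (C α * ((X - C ρ) * (X - C (-ρ))))) : b = 0 := by
  by_contra hb
  have hX : (X - C ρ : L[X]) ≠ 0 := X_sub_C_ne_zero ρ
  have hX' : (X - C (-ρ) : L[X]) ≠ 0 := X_sub_C_ne_zero (-ρ)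
  have hC : (C α : L[X]) ≠ 0 := C_ne_zero.2 hα
  have hD0 : (C α * ((X - C ρ) * (X - C (-ρ)))) ≠ 0 := mul_ne_zero hC (mul_ne_zero hX hX')
  have hD : (C α * ((X - C ρ) * (X - C (-ρ)))).rootMultiplicity ρ = 1 := by
    rw [rootMultiplicity_mul hD0, rootMultiplicity_mul (mul_ne_zero hX hX'), rootMultiplicity_C,
      rootMultiplicity_X_sub_C_self]
    have : (X - C (-ρ)).rootMultiplicity ρ = 0 := by
      apply rootMultiplicity_eq_zero
      rw [root_X_sub_C]
      intro h
      apply hρ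
      have h3 : 2 * ρ = 0 := by linear_combination (-1 : L) * h
      exact (mul_eq_zero.1 h3).resolve_left h2
    rw [this]
  have ha0 : a ≠ 0 := by
    intro ha
    rw [ha, zero_pow two_ne_zero] at h
    exact mul_ne_zero (pow_ne_zero 2 hb) hD0 h.symm
  have h1 : (a ^ 2).rootMultiplicity ρ = 2 * a.rootMultiplicity ρ := by
    rw [pow_two, rootMultiplicity_mul (mul_ne_zero ha0 ha0)]
    ring
  have h3 : (b ^ 2 * (C α * ((X - C ρ) * (X - C (-ρ))))).rootMultiplicity ρ =
      1 + 2 * b.rootMultiplicity ρ := by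
    rw [rootMultiplicity_mul (mul_ne_zero (pow_ne_zero 2 hb) hD0), hD, pow_two,
      rootMultiplicity_mul (mul_ne_zero hb hb)]
    ring
  rw [h, h3] at h1
  omega

theorem nonsq {S : Type*} [CommRing S] [IsDomain S] (h2 : (2 : S) ≠ 0) {α β : S} (hα : α ≠ 0)
    (hβ : β ≠ 0) {a b : S[X]} (h : a ^ 2 = b ^ 2 * (C α * X ^ 2 + C β)) : a = 0 ∧ b = 0 := by
  have hb : b = 0 := by
    let F := FractionRing S
    let Ω := AlgebraicClosure F
    let f : S →+* Ω := (algebraMap F Ω).comp (algebraMap S F)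
    have hf : Function.Injective f :=
      (algebraMap F Ω).injective.comp (IsFractionRing.injective S F)
    have hf0 : ∀ {x : S}, x ≠ 0 → f x ≠ 0 := fun hx h => hx (hf (by rw [h, map_zero]))
    obtain ⟨ρ, hρ⟩ := IsAlgClosed.exists_pow_nat_eq (-(f β / f α)) (n := 2) two_pos
    have hρ0 : ρ ≠ 0 := by
      rintro rfl
      rw [zero_pow two_ne_zero] at hρ
      exact div_ne_zero (hf0 hβ) (hf0 hα) (neg_eq_zero.1 hρ.symm)
    have h2' : (2 : Ω) ≠ 0 := by
      have := hf0 h2
      rwa [map_ofNat] at this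
    have h3 := congrArg (Polynomial.map f) h
    have h4 : (Polynomial.map f (C α * X ^ 2 + C β)) = C (f α) * ((X - C ρ) * (X - C (-ρ))) := by
      simp only [Polynomial.map_add, Polynomial.map_mul, Polynomial.map_pow, map_C, map_X]
      have h5 : f β = -(f α * ρ ^ 2) := by
        have hfα := hf0 hα
        rw [hρ, mul_neg, neg_neg, mul_div_cancel₀ _ hfα]
      rw [h5]
      simp only [map_neg, map_mul, map_pow]
      ring
    rw [Polynomial.map_pow, Polynomial.map_mul, Polynomial.map_pow, h4] at h3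
    have h5 := nonsq_field h2' (hf0 hα) hρ0 h3
    rwa [Polynomial.map_eq_zero_iff hf] at h5
  refine ⟨?_, hb⟩
  rw [hb, zero_pow two_ne_zero, zero_mul] at h
  exact pow_eq_zero_iff two_ne_zero |>.1 h

/-- The coordinate ring of the conic bundle `s ^ 2 = α r ^ 2 + β` over the ring `S`. -/
abbrev Con (S : Type*) [CommRing S] (α β : S) : Type _ :=
  QuadraticAlgebra S[X] (C α * X ^ 2 + C β) 0

namespace Con

variable {S : Type*} [CommRing S] {α β : S}

/-- Homomorphisms from the conic bundle. -/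
noncomputable def lift {T : Type*} [CommRing T] (f : S →+* T) (r s : T)
    (h : s ^ 2 = f α * r ^ 2 + f β) : Con S α β →+* T where
  toFun z := z.re.eval₂ f r + z.im.eval₂ f r * s
  map_one' := by
    simp only [QuadraticAlgebra.re_one, QuadraticAlgebra.im_one]
    simp
  map_zero' := by simp
  map_add' a b := by
    simp only [QuadraticAlgebra.re_add, QuadraticAlgebra.im_add, eval₂_add]
    ring
  map_mul' a b := by
    simp only [QuadraticAlgebra.re_mul, QuadraticAlgebra.im_mul, eval₂_add, eval₂_mul, eval₂_C,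
      eval₂_X, eval₂_pow, eval₂_zero, zero_mul, add_zero]
    linear_combination (-(eval₂ f r a.im * eval₂ f r b.im)) * h

theorem lift_apply {T : Type*} [CommRing T] (f : S →+* T) (r s : T)
    (h : s ^ 2 = f α * r ^ 2 + f β) (z : Con S α β) :
    lift f r s h z = z.re.eval₂ f r + z.im.eval₂ f r * s := rfl

theorem lift_C {T : Type*} [CommRing T] (f : S →+* T) (r s : T)
    (h : s ^ 2 = f α * r ^ 2 + f β) (x : S) :
    lift f r s h (⟨C x, 0⟩ : Con S α β) = f x := by
  rw [lift_apply]; simp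

theorem lift_r {T : Type*} [CommRing T] (f : S →+* T) (r s : T)
    (h : s ^ 2 = f α * r ^ 2 + f β) :
    lift f r s h (⟨X, 0⟩ : Con S α β) = r := by
  rw [lift_apply]; simp

theorem lift_s {T : Type*} [CommRing T] (f : S →+* T) (r s : T)
    (h : s ^ 2 = f α * r ^ 2 + f β) :
    lift f r s h (⟨0, 1⟩ : Con S α β) = s := by
  rw [lift_apply]; simp

theorem lift_injective [IsDomain S] (h2 : (2 : S) ≠ 0) (hα : α ≠ 0) (hβ : β ≠ 0)
    {T : Type*} [CommRing T] [IsDomain T] (f : S →+* T) (r s : T)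
    (h : s ^ 2 = f α * r ^ 2 + f β) (hr : ∀ p : S[X], p.eval₂ f r = 0 → p = 0) :
    Function.Injective (lift f r s h : Con S α β →+* T) := by
  rw [injective_iff_map_eq_zero]
  intro z hz
  rw [lift_apply] at hz
  have h1 : (z.re ^ 2 - z.im ^ 2 * (C α * X ^ 2 + C β)).eval₂ f r = 0 := by
    simp only [eval₂_sub, eval₂_add, eval₂_mul, eval₂_C, eval₂_X, eval₂_pow]
    rw [← h]
    linear_combination (z.re.eval₂ f r - z.im.eval₂ f r * s) * hz
  have h3 := nonsq h2 hα hβ (sub_eq_zero.1 (hr _ h1))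
  exact QuadraticAlgebra.ext h3.1 h3.2

theorem isDomain [IsDomain S] (h2 : (2 : S) ≠ 0) (hα : α ≠ 0) (hβ : β ≠ 0) :
    IsDomain (Con S α β) := by
  let F := FractionRing S[X]
  let Ω := AlgebraicClosure F
  let g : S[X] →+* Ω := (algebraMap F Ω).comp (algebraMap S[X] F)
  have hg : Function.Injective g :=
    (algebraMap F Ω).injective.comp (IsFractionRing.injective S[X] F)
  obtain ⟨s, hs⟩ := IsAlgClosed.exists_pow_nat_eq (g (C α * X ^ 2 + C β)) (n := 2) two_pos
  have h : s ^ 2 = (g.comp C) α * (g X) ^ 2 + (g.comp C) β := by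
    rw [hs]
    simp only [map_add, map_mul, map_pow, RingHom.comp_apply]
  refine (lift_injective h2 hα hβ (g.comp C) (g X) s h ?_).isDomain
    (lift (g.comp C) (g X) s h)
  intro p hp
  rw [← Polynomial.hom_eval₂, Polynomial.eval₂_C_X] at hp
  exact hg (by rw [hp, map_zero])

end Con

/-- `R` is the coordinate ring of a conic bundle over `S`. -/
structure ConicExt (k : Type) [Field k] (S R : Type) [CommRing S] [CommRing R] [Algebra k S]
    [Algebra k R] (α β : S) (i : S →ₐ[k] R) (r s : R) : Prop where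
  inj : Function.Injective i
  rel : s ^ 2 = i α * r ^ 2 + i β
  univ : ∀ (E : Type) [Field E] (f : S →+* E) (r' s' : E), Function.Injective f →
    s' ^ 2 = f α * r' ^ 2 + f β → (∀ p : S[X], p.eval₂ f r' = 0 → p = 0) →
    ∃ g : R →+* E, Function.Injective g ∧ (∀ x, g (i x) = f x) ∧ g r = r' ∧ g s = s' ∧
      ∀ F : Subfield E, (∀ x, f x ∈ F) → r' ∈ F → s' ∈ F → ∀ y, g y ∈ F

/-- `R` is a polynomial ring over `S`. -/
structure PolyExt (k : Type) [Field k] (S R : Type) [CommRing S] [CommRing R] [Algebra k S]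
    [Algebra k R] (i : S →ₐ[k] R) (t : R) : Prop where
  tr : ∀ q : S[X], q.eval₂ (i : S →+* R) t = 0 → q = 0
  univ : ∀ (E : Type) [Field E] (f : S →+* E) (t' : E), Function.Injective f →
    (∀ p : S[X], p.eval₂ f t' = 0 → p = 0) →
    ∃ g : R →+* E, Function.Injective g ∧ (∀ x, g (i x) = f x) ∧ g t = t' ∧
      ∀ F : Subfield E, (∀ x, f x ∈ F) → t' ∈ F → ∀ y, g y ∈ F

theorem eval₂_mem {S E : Type*} [CommRing S] [Field E] (f : S →+* E) {t : E} (F : Subfield E)
    (hf : ∀ x, f x ∈ F) (ht : t ∈ F) (p : S[X]) : p.eval₂ f t ∈ F := by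
  rw [eval₂_eq_sum_range]
  exact sum_mem fun i _ => mul_mem (hf _) (pow_mem ht _)

theorem quad_rel {A : Type*} [CommRing A] (a b x : A) :
    (⟨0, 1⟩ : QuadraticAlgebra A (a * x ^ 2 + b) 0) ^ 2 =
      (⟨a, 0⟩ : QuadraticAlgebra A (a * x ^ 2 + b) 0) * ⟨x, 0⟩ ^ 2 + ⟨b, 0⟩ := by
  generalize hd : a * x ^ 2 + b = d
  have e1 : (⟨0, 1⟩ : QuadraticAlgebra A d 0) ^ 2 = ⟨d, 0⟩ := by
    rw [pow_two, QuadraticAlgebra.mk_mul_mk]
    simp
  have e2 : (⟨x, 0⟩ : QuadraticAlgebra A d 0) ^ 2 = ⟨x ^ 2, 0⟩ := by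
    rw [pow_two, QuadraticAlgebra.mk_mul_mk, pow_two]
    simp
  rw [e1, e2, QuadraticAlgebra.mk_mul_mk]
  apply QuadraticAlgebra.ext
  · rw [QuadraticAlgebra.re_add, ← hd]
    ring
  · rw [QuadraticAlgebra.im_add]
    ring

theorem conicExt (k : Type) [Field k] (S : Type) [CommRing S] [IsDomain S] [Algebra k S]
    (h2 : (2 : S) ≠ 0) {α β : S} (hα : α ≠ 0) (hβ : β ≠ 0) :
    ConicExt k S (Con S α β) α β (Algebra.ofId S[X] (Con S α β) |>.restrictScalars k |>.comp
      (CAlgHom (R := k) (A := S))) ⟨X, 0⟩ ⟨0, 1⟩ where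
  inj := by
    intro x y hxy
    have h1 : (algebraMap S[X] (Con S α β)) (C x) = (algebraMap S[X] (Con S α β)) (C y) := hxy
    exact C_injective (QuadraticAlgebra.algebraMap_injective h1)
  rel := quad_rel (C α) (C β) X
  univ := by
    intro E _ f r' s' hf h hr
    refine ⟨Con.lift f r' s' h, Con.lift_injective h2 hα hβ f r' s' h hr, fun x => ?_,
      Con.lift_r f r' s' h, Con.lift_s f r' s' h, ?_⟩
    · exact Con.lift_C f r' s' h x
    · intro F hF hrF hsF y
      rw [Con.lift_apply]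
      exact add_mem (eval₂_mem f F hF hrF _) (mul_mem (eval₂_mem f F hF hrF _) hsF)

theorem polyExt (k : Type) [Field k] (S : Type) [CommRing S] [IsDomain S] [Algebra k S] :
    PolyExt k S S[X] (CAlgHom (R := k) (A := S)) X where
  tr := by
    intro q hq
    have : q.eval₂ (C : S →+* S[X]) X = 0 := hq
    rwa [eval₂_C_X] at this
  univ := by
    intro E _ f t' hf ht
    refine ⟨eval₂RingHom f t', ?_, fun x => ?_, ?_, ?_⟩
    · rw [injective_iff_map_eq_zero]
      exact ht
    · change eval₂ f t' (C x) = f x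
      rw [eval₂_C]
    · change eval₂ f t' X = t'
      rw [eval₂_X]
    · intro F hF htF y
      exact eval₂_mem f F hF htF y

end Pool.Agent.TH156
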