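import Mathlib

/-!
# Unramified cohomology and rationally connected affine varieties: definitions
-/

set_option autoImplicit false

open Polynomial

namespace Pool.Agent.TH156

section cohomology

variable (ℓ : ℕ) (n : ℕ) (G : Type*) [Group G]

/-- The differential of the inhomogeneous cochains of the group `G` with values in the trivial
module `ℤ / ℓ`. -/
def diff (f : (Fin n → G) → ZMod ℓ) : (Fin (n + 1) → G) → ZMod ℓ := fun g =>
  f (fun i => g i.succ) +
    ∑ j : Fin (n + 1), (-1) ^ ((j : ℕ) + 1) * f (Fin.contractNth j (· * ·) g)

variable [TopologicalSpace G]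

/-- The continuous `n`-cocycles of the topological group `G` with values in the discrete group
`ℤ / ℓ` with the trivial action. -/
def cocycles : AddSubgroup ((Fin n → G) → ZMod ℓ) where
  carrier := {f | IsLocallyConstant f ∧ diff ℓ n G f = 0}
  zero_mem' := ⟨IsLocallyConstant.const 0, by funext g; simp [diff]⟩
  add_mem' := by
    rintro a b ⟨ha, ha'⟩ ⟨hb, hb'⟩
    refine ⟨ha.add hb, ?_⟩
    funext g
    have h1 := congrFun ha' g
    have h2 := congrFun hb' g
    simp only [diff, Pi.add_apply, mul_add, Finset.sum_add_distrib, Pi.zero_apply] at h1 h2 ⊢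
    linear_combination h1 + h2
  neg_mem' := by
    rintro a ⟨ha, ha'⟩
    refine ⟨ha.neg, ?_⟩
    funext g
    have h1 := congrFun ha' g
    simp only [diff, Pi.neg_apply, mul_neg, Finset.sum_neg_distrib, Pi.zero_apply] at h1 ⊢
    linear_combination -h1

/-- The coboundaries of the continuous cochains, in degree `n`. -/
def coboundaries : (n : ℕ) → AddSubgroup ((Fin n → G) → ZMod ℓ)
  | 0 => ⊥
  | n + 1 =>
    { carrier := {f | ∃ b : (Fin n → G) → ZMod ℓ, IsLocallyConstant b ∧ diff ℓ n G b = f}
      zero_mem' := ⟨0, IsLocallyConstant.const 0, by funext g; simp [diff]⟩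
      add_mem' := by
        rintro _ _ ⟨a, ha, rfl⟩ ⟨b, hb, rfl⟩
        refine ⟨a + b, ha.add hb, ?_⟩
        funext g
        simp only [diff, Pi.add_apply, mul_add, Finset.sum_add_distrib]
        ring
      neg_mem' := by
        rintro _ ⟨a, ha, rfl⟩
        refine ⟨-a, ha.neg, ?_⟩
        funext g
        simp only [diff, Pi.neg_apply, mul_neg, Finset.sum_neg_distrib]
        ring }

/-- The continuous cohomology group `H ^ n (G, ℤ / ℓ)`: cocycles modulo coboundaries. -/
abbrev H : Type _ := cocycles ℓ n G ⧸ (coboundaries ℓ G n).addSubgroupOf (cocycles ℓ n G)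

end cohomology

section unramified

variable (ℓ : ℕ) (n : ℕ) (K : Type*) [Field K]

/-- The absolute Galois group of the field `K` of characteristic zero, with the Krull topology. -/
abbrev GalK : Type _ := AlgebraicClosure K ≃ₐ[K] AlgebraicClosure K

/-- The restriction of a cochain to a subgroup. -/
def resCochain {G : Type*} [Group G] (D : Subgroup G) (f : (Fin n → G) → ZMod ℓ) :
    (Fin n → D) → ZMod ℓ := fun g => f fun i => (g i : G)

/-- A cochain of `D` is inflated from the quotient `D / I` if it only depends on the classes modulo
`I` of its arguments. -/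
def IsInflated {D : Type*} [Group D] (I : Subgroup D) (c : (Fin n → D) → ZMod ℓ) : Prop :=
  ∀ g g' : Fin n → D, (∀ i, (g i)⁻¹ * g' i ∈ I) → c g = c g'

variable {K}

/-- Let `B` be a valuation ring of the algebraic closure of `K`, lying above the ring `A` of a discrete
valuation `v` of `K` of residue characteristic zero. The decomposition group `D` of `B` is the absolute
Galois group of the henselization `K_v`, and the quotient `D / I` by the inertia group is
the absolute Galois group of the residue field `κ(v)`. The residue
`H ^ n (K, ℤ / ℓ) → H ^ (n - 1) (κ(v), ℤ / ℓ)` of the class of the cocycle `f` vanishes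
if and only if the restriction of the class to `H ^ n (D, ℤ / ℓ) = H ^ n (K_v, ℤ / ℓ)` is inflated
from `H ^ n (D / I, ℤ / ℓ) = H ^ n (κ(v), ℤ / ℓ)`. This is the condition expressed here: the restriction
of `f` to `D` is the sum of a continuous cocycle inflated from `D / I` and of a coboundary. -/
def UnramifiedAt (B : ValuationSubring (AlgebraicClosure K)) (f : (Fin n → GalK K) → ZMod ℓ) : Prop :=
  ∃ c ∈ cocycles ℓ n (B.decompositionSubgroup K), IsInflated ℓ n (B.inertiaSubgroup K) c ∧
    resCochain ℓ n (B.decompositionSubgroup K) f - c ∈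
      coboundaries ℓ (B.decompositionSubgroup K) n

variable (k : Type*) [Field k] (K) [Algebra k K]

/-- The unramified cohomology group `H ^ n_nr (K / k, ℤ / ℓ)`: the classes whose residues vanish at all
discrete valuations of `K` which are trivial on `k`. The discrete valuations are given by their
valuation rings `A`, and `B` runs over the valuation rings of the algebraic closure of `K`
above `A`. -/
def Hnr : AddSubgroup (H ℓ n (GalK K)) where
  carrier := {α | ∀ A : ValuationSubring K, IsDiscreteValuationRing A →
    (∀ a : k, algebraMap k K a ∈ A) →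
    ∀ B : ValuationSubring (AlgebraicClosure K), B.comap (algebraMap K (AlgebraicClosure K)) = A →
    ∃ f : cocycles ℓ n (GalK K), QuotientAddGroup.mk f = α ∧ UnramifiedAt ℓ n B f}
  zero_mem' := by
    intro A _ _ B _
    refine ⟨0, rfl, 0, zero_mem _, fun _ _ _ => rfl, ?_⟩
    rw [sub_zero]
    exact zero_mem _
  add_mem' := by
    rintro a b ha hb A h1 h2 B h3
    obtain ⟨f, hf, c, hc, hci, hcb⟩ := ha A h1 h2 B h3
    obtain ⟨f', hf', c', hc', hci', hcb'⟩ := hb A h1 h2 B h3
    refine ⟨f + f', ?_, c + c', add_mem hc hc', ?_, ?_⟩
    · rw [QuotientAddGroup.mk_add, hf, hf']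
    · intro g g' h
      rw [Pi.add_apply, Pi.add_apply, hci g g' h, hci' g g' h]
    · have := add_mem hcb hcb'
      convert this using 1
      funext g
      simp only [resCochain, Pi.add_apply, Pi.sub_apply, AddSubgroup.coe_add]
      ring
  neg_mem' := by
    rintro a ha A h1 h2 B h3
    obtain ⟨f, hf, c, hc, hci, hcb⟩ := ha A h1 h2 B h3
    refine ⟨-f, ?_, -c, neg_mem hc, ?_, ?_⟩
    · rw [QuotientAddGroup.mk_neg, hf]
    · intro g g' h
      rw [Pi.neg_apply, Pi.neg_apply, hci g g' h]
    · have := neg_mem hcb
      convert this using 1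
      funext g
      simp only [resCochain, Pi.neg_apply, Pi.sub_apply, AddSubgroup.coe_neg]
      ring

end unramified

section rc

variable {k : Type*} [Field k]

/-- The rational function `f` is regular at `a`, with value `c`. -/
def HasValue (f : RatFunc k) (a c : k) : Prop :=
  ∃ p q : k[X], q.eval a ≠ 0 ∧ f * algebraMap k[X] (RatFunc k) q = algebraMap k[X] (RatFunc k) p ∧
    p.eval a = c * q.eval a

variable (k)

/-- Let `X` be the affine variety with coordinate ring `R` over the algebraically closed field `k`. Two
general points of `X` lie on a rational curve: there is a nonempty open subset `d ≠ 0` of `X` such that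
for any two points `P`, `Q` in this open subset there is a rational map from the affine line to `X`,
given by a homomorphism from `R` to the field of rational functions,
which is defined at `0` and at `1` and sends `0` to `P` and `1` to `Q`. -/
def RationallyConnected (R : Type*) [CommRing R] [Algebra k R] : Prop :=
  ∃ d : R, d ≠ 0 ∧ ∀ P Q : R →ₐ[k] k, P d ≠ 0 → Q d ≠ 0 →
    ∃ γ : R →ₐ[k] RatFunc k, ∀ f : R, HasValue (γ f) 0 (P f) ∧ HasValue (γ f) 1 (Q f)

end rc

end Pool.Agent.TH156
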