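import Pool.Agent.TH156.Param2

set_option autoImplicit false
set_option linter.unusedSectionVars false
set_option linter.unusedVariables false

open Polynomial

namespace Pool.Agent.TH156

section sm

variable {L : Type*} [Field L] (O : ValuationSubring L)

/-- The element `a` is small. -/
def Sm (a : L) : Prop := O.valuation a < 1

/-- The element `a` is congruent to one. -/
def On (a : L) : Prop := O.valuation (a - 1) < 1

variable {O}

theorem Sm.mul_mem {a b : L} (ha : Sm O a) (hb : b ∈ O) : Sm O (a * b) := by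
  unfold Sm at *
  rw [map_mul]
  calc _ ≤ O.valuation a * 1 := mul_le_mul_right ((O.valuation_le_one_iff _).2 hb) _
    _ < 1 := by rw [mul_one]; exact ha

theorem Sm.mem {a : L} (ha : Sm O a) : a ∈ O := (O.valuation_le_one_iff _).1 (le_of_lt ha)

theorem Sm.mul {a b : L} (ha : Sm O a) (hb : Sm O b) : Sm O (a * b) := ha.mul_mem hb.mem

theorem Sm.add {a b : L} (ha : Sm O a) (hb : Sm O b) : Sm O (a + b) :=
  (O.valuation).map_add_lt ha hb

theorem Sm.neg {a : L} (ha : Sm O a) : Sm O (-a) := by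
  unfold Sm at *
  rwa [Valuation.map_neg]

theorem Sm.sub {a b : L} (ha : Sm O a) (hb : Sm O b) : Sm O (a - b) := by
  rw [sub_eq_add_neg]
  exact ha.add hb.neg

theorem Sm.on {a : L} (ha : Sm O a) : On O (1 + a) := by
  unfold On
  rwa [add_sub_cancel_left]

theorem On.val {a : L} (ha : On O a) : O.valuation a = 1 := by
  have : a = 1 + (a - 1) := by ring
  rw [this, (O.valuation).map_add_eq_of_lt_left (by rw [map_one]; exact ha), map_one]

theorem On.mem {a : L} (ha : On O a) : a ∈ O := (O.valuation_le_one_iff _).1 ha.val.le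

theorem On.ne {a : L} (ha : On O a) : a ≠ 0 := by
  intro h
  have := ha.val
  rw [h, map_zero] at this
  exact zero_ne_one this

theorem On.mul {a b : L} (ha : On O a) (hb : On O b) : On O (a * b) := by
  have : a * b - 1 = (a - 1) * b + (b - 1) := by ring
  unfold On
  rw [this]
  exact Sm.add (Sm.mul_mem ha hb.mem) hb

theorem On.add {a b : L} (ha : On O a) (hb : Sm O b) : On O (a + b) := by
  have : a + b - 1 = (a - 1) + b := by ring
  unfold On
  rw [this]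
  exact Sm.add ha hb

theorem On.inv {a : L} (ha : On O a) : On O a⁻¹ := by
  have h0 := ha.ne
  have : a⁻¹ - 1 = -(a - 1) * a⁻¹ := by field_simp; ring
  unfold On
  rw [this, map_mul, map_inv₀, ha.val, inv_one, mul_one, Valuation.map_neg]
  exact ha

theorem Sm.div_val {a b : L} (ha : Sm O a) (hb : O.valuation b = 1) : Sm O (a / b) := by
  unfold Sm at *
  rwa [map_div₀, hb, div_one]

theorem mem_inv_of_val {b : L} (hb : O.valuation b = 1) : b⁻¹ ∈ O := by
  rw [← O.valuation_le_one_iff, map_inv₀, hb, inv_one]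

end sm

theorem Tower.rot_sqrt' {n : ℕ} (T : Tower n) (i : Fin n) {s a : T.E} (ha : T.rot i a = a)
    (ha0 : a ≠ 0) (hs : T.rot i (s ^ 2) = s ^ 2) (h : On T.O (s ^ 2 / a ^ 2)) : T.rot i s = s := by
  apply T.rot_sqrt i ha (δ := s ^ 2 / a ^ 2 - 1) _ h
  · field_simp
    ring
  · rw [map_sub, map_div₀, hs, map_pow, ha, map_one]

/-- The order in which the variables appear. -/
def rank : Fin 9 → ℕ := ![2, 4, 1, 3, 5, 6, 7, 0, 0]

/-- The sets of variables. -/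
def II (k : ℕ) : Set (Fin 9) := {i | rank i ≤ k}

theorem II_mono : Monotone II := fun _ _ h _ hi => le_trans hi h

/-- The four variables which are rotated. -/
def idx : Fin 4 → Fin 9 := ![1, 3, 0, 2]

theorem Tower.z_not_mem {n : ℕ} (T : Tower n) {I : Set (Fin n)} {i : Fin n} (hi : i ∉ I) :
    T.z i ∉ T.Fix I := by
  have := T.not_mem_Fix hi (one_mem _) one_ne_zero
  rwa [one_mul] at this

theorem Tower.sm_mul {n : ℕ} (T : Tower n) (i : Fin n) {x : T.E} (hx : x ∈ T.Fix {j | j < i}) :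
    Sm T.O (x * T.z i) :=
  T.small i x hx

theorem model (T : Tower 9) (p : Params ℂ) (hc : p.c * p.ε ^ 4 = 1) (n m : ℕ) (ψ : ℂ →+* T.E)
    (hψ : ∀ a, ψ a ∈ T.Fix {8, 7}) (hψε : ψ p.ε = T.z 8) (hψβ : ψ p.β = 1 - T.z 7)
    (hn : T.O.valuation (ψ (p.w n) - 1) < 1) (hm : T.O.valuation (ψ (p.w m) + 1) < 1)
    (hAC : ∀ j, T.O.valuation (ψ (p.A j)) = 1 ∧ T.O.valuation (ψ (p.C j)) = 1) :
    (∀ a, ψ a ∈ T.Fix (II 0)) ∧ ∃ u₀ x₀ y₀ N₀ r₀ s₀ r₁ s₁ r₂ s₂ : T.E,
      u₀ ∉ T.Fix (II 0) ∧ u₀ ∈ T.Fix (II 1) ∧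
      x₀ ∉ T.Fix (II 1) ∧ x₀ ∈ T.Fix (II 2) ∧ y₀ ∉ T.Fix (II 2) ∧ y₀ ∈ T.Fix (II 3) ∧
      N₀ ∉ T.Fix (II 3) ∧ N₀ ∈ T.Fix (II 4) ∧ r₀ ∉ T.Fix (II 4) ∧ r₀ ∈ T.Fix (II 5) ∧
      r₁ ∉ T.Fix (II 5) ∧ r₁ ∈ T.Fix (II 6) ∧ r₂ ∉ T.Fix (II 6) ∧
      s₀ ^ 2 = N₀ * r₀ ^ 2 + p.P ψ u₀ x₀ ∧
      s₁ ^ 2 = N₀ * r₁ ^ 2 + p.Q ψ y₀ ∧
      s₂ ^ 2 = N₀ * r₂ ^ 2 + p.E ψ x₀ N₀ ∧
      (∀ j : Fin 4, (∀ a, T.rot (idx j) (ψ a) = ψ a) ∧ T.rot (idx j) u₀ = u₀ ∧
        T.rot (idx j) x₀ = x₀ ∧ T.rot (idx j) y₀ = y₀ ∧ T.rot (idx j) N₀ = N₀ ∧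
        T.rot (idx j) r₀ = r₀ ∧ T.rot (idx j) s₀ = s₀ ∧ T.rot (idx j) r₁ = r₁ ∧
        T.rot (idx j) s₁ = s₁ ∧ T.rot (idx j) r₂ = r₂ ∧ T.rot (idx j) s₂ = s₂) ∧
      ∃ ρ : Fin 4 → T.E, ρ 0 ^ 2 = N₀ ∧ ρ 1 ^ 2 = y₀ ∧ ρ 2 ^ 2 = x₀ ∧
        ρ 3 ^ 2 = (u₀ - ψ (p.w n)) * (u₀ - ψ (p.w m)) ∧
        ∀ i j, T.rot (idx j) (ρ i) = if i = j then -ρ i else ρ i := by
  -- the variables
  set a2 := T.z 0 with ha2
  set a4 := T.z 1 with ha4
  set a1 := T.z 2 with ha1
  set a3 := T.z 3 with ha3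
  set a5 := T.z 4 with ha5
  set a6 := T.z 5 with ha6
  set a7 := T.z 6 with ha7
  set h := T.z 7 with hh
  set e := T.z 8 with he
  have n1 : a1 ≠ 0 := T.z_ne _
  have n2 : a2 ≠ 0 := T.z_ne _
  have n3 : a3 ≠ 0 := T.z_ne _
  have n4 : a4 ≠ 0 := T.z_ne _
  have n5 : a5 ≠ 0 := T.z_ne _
  have n6 : a6 ≠ 0 := T.z_ne _
  have n7 : a7 ≠ 0 := T.z_ne _
  have nh : h ≠ 0 := T.z_ne _
  have ne : e ≠ 0 := T.z_ne _
  have v2 : T.O.valuation 2 = 1 := T.val_two
  have n22 : (2 : T.E) ≠ 0 := two_ne_zero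
  have o2 : (2 : T.E) ∈ T.O := (T.O.valuation_le_one_iff _).1 v2.le
  -- smallness
  have se : Sm T.O e := T.val_z 8
  have sh : Sm T.O h := T.val_z 7
  have s1 : Sm T.O a1 := T.val_z 2
  have s2 : Sm T.O a2 := T.val_z 0
  have s3 : Sm T.O a3 := T.val_z 3
  have s4 : Sm T.O a4 := T.val_z 1
  have s5 : Sm T.O a5 := T.val_z 4
  have s6 : Sm T.O a6 := T.val_z 5
  have s7 : Sm T.O a7 := T.val_z 6
  have zm : ∀ (i j : Fin 9), i < j → T.z i ∈ T.Fix {k | k < j} := fun i j hij => T.z_mem hij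
  have se1 : Sm T.O (e / a1) := by
    have := T.sm_mul 8 (inv_mem (zm 2 8 (by decide)))
    rwa [inv_mul_eq_div] at this
  have se4 : Sm T.O (e / a4) := by
    have := T.sm_mul 8 (inv_mem (zm 1 8 (by decide)))
    rwa [inv_mul_eq_div] at this
  have s12 : Sm T.O (a1 / a2) := by
    have := T.sm_mul 2 (inv_mem (zm 0 2 (by decide)))
    rwa [inv_mul_eq_div] at this
  have sh3 : Sm T.O (h / a3) := by
    have := T.sm_mul 7 (inv_mem (zm 3 7 (by decide)))
    rwa [inv_mul_eq_div] at this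
  have s42 : Sm T.O (a4 / a2) := by
    have := T.sm_mul 1 (inv_mem (zm 0 1 (by decide)))
    rwa [inv_mul_eq_div] at this
  have s54 : Sm T.O (a5 / a4) := by
    have := T.sm_mul 4 (inv_mem (zm 1 4 (by decide)))
    rwa [inv_mul_eq_div] at this
  have se6 : Sm T.O ((a6 ^ 2 / (a4 * a3 ^ 2)) * e) := by
    apply T.sm_mul 8
    exact div_mem (pow_mem (zm 5 8 (by decide)) 2)
      (mul_mem (zm 1 8 (by decide)) (pow_mem (zm 3 8 (by decide)) 2))
  -- the constants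
  have hψ0 : ∀ a, ψ a ∈ T.Fix (II 0) := by
    intro a
    apply T.Fix_mono _ (hψ a)
    rintro i (rfl | hi)
    · exact (by decide : rank 8 ≤ 0)
    · rw [Set.mem_singleton_iff] at hi
      subst hi
      exact (by decide : rank 7 ≤ 0)
  have hidx : ∀ j : Fin 4, idx j ≠ 8 ∧ idx j ≠ 7 := by decide
  have rψ : ∀ (j : Fin 4) (a : ℂ), T.rot (idx j) (ψ a) = ψ a := by
    intro j a
    apply T.rot_Fix _ (hψ a)
    rintro (h | h)
    · exact (hidx j).1 h
    · exact (hidx j).2 h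
  have rz : ∀ (j : Fin 4) (i : Fin 9), T.rot (idx j) (T.z i) = T.z i := fun j i => T.rot_z _ _
  have hψc : ψ p.c = (e ^ 4)⁻¹ := by
    have h1 := congrArg ψ hc
    rw [map_mul, map_pow, map_one, hψε] at h1
    exact eq_inv_of_mul_eq_one_left h1
  -- the elements
  set u := 1 + e / a1 with hu
  set x := e ^ 2 / a2 with hx
  set N := e ^ 6 / a4 with hN
  set P := p.P ψ u x with hP
  set Q := p.Q ψ a3 with hQ
  set E := p.E ψ x N with hE
  set U := e * a7 with hU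
  set V := rt ((U ^ 2 - E) / N) with hV
  set s := rt (N * a5 ^ 2 + P) with hs
  set s' := rt (N * a6 ^ 2 + Q) with hs'
  have nx : x ≠ 0 := div_ne_zero (pow_ne_zero 2 ne) n2
  have nN : N ≠ 0 := div_ne_zero (pow_ne_zero 6 ne) n4
  have hs2 : s ^ 2 = N * a5 ^ 2 + P := rt_sq _
  have hs'2 : s' ^ 2 = N * a6 ^ 2 + Q := rt_sq _
  have hV2 : V ^ 2 = (U ^ 2 - E) / N := rt_sq _
  have hUV : U ^ 2 = N * V ^ 2 + E := by rw [hV2]; field_simp; ring
  have hsub : ∀ {a b : ℕ}, a ≤ b → T.Fix (II a) ≤ T.Fix (II b) := fun hab =>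
    T.Fix_mono (II_mono hab)
  have ve : ∀ k, e ∈ T.Fix (II k) := fun k => T.z_mem ((by decide : rank 8 ≤ 0).trans (Nat.zero_le k))
  have mu1 : u ∈ T.Fix (II 1) :=
    add_mem (one_mem _) (div_mem (ve 1) (T.z_mem (by decide : rank 2 ≤ 1)))
  have mx2 : x ∈ T.Fix (II 2) := div_mem (pow_mem (ve 2) 2) (T.z_mem (by decide : rank 0 ≤ 2))
  have my3 : a3 ∈ T.Fix (II 3) := T.z_mem (by decide : rank 3 ≤ 3)
  have mN4 : N ∈ T.Fix (II 4) := div_mem (pow_mem (ve 4) 6) (T.z_mem (by decide : rank 1 ≤ 4))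
  have m55 : a5 ∈ T.Fix (II 5) := T.z_mem (by decide : rank 4 ≤ 5)
  have m66 : a6 ∈ T.Fix (II 6) := T.z_mem (by decide : rank 5 ≤ 6)
  have nu : u ∉ T.Fix (II 0) := by
    intro hu'
    apply T.z_not_mem (I := II 0) (i := 2) (show ¬ rank 2 ≤ 0 by decide)
    have h1 := div_mem (ve 0) (sub_mem hu' (one_mem _))
    have h2 : e / (u - 1) = a1 := by rw [hu, add_sub_cancel_left]; field_simp
    rwa [h2] at h1
  have nx1 : x ∉ T.Fix (II 1) := by
    intro hx'
    apply T.z_not_mem (I := II 1) (i := 0) (show ¬ rank 0 ≤ 1 by decide)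
    have h1 := div_mem (pow_mem (ve 1) 2) hx'
    have h2 : e ^ 2 / x = a2 := by rw [hx]; field_simp
    rwa [h2] at h1
  have ny2 : a3 ∉ T.Fix (II 2) := T.z_not_mem (show ¬ rank 3 ≤ 2 by decide)
  have nN3 : N ∉ T.Fix (II 3) := by
    intro hN'
    apply T.z_not_mem (I := II 3) (i := 1) (show ¬ rank 1 ≤ 3 by decide)
    have h1 := div_mem (pow_mem (ve 3) 6) hN'
    have h2 : e ^ 6 / N = a4 := by rw [hN]; field_simp
    rwa [h2] at h1
  have n54 : a5 ∉ T.Fix (II 4) := T.z_not_mem (show ¬ rank 4 ≤ 4 by decide)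
  have n65 : a6 ∉ T.Fix (II 5) := T.z_not_mem (show ¬ rank 5 ≤ 5 by decide)
  have hE4 : E ∈ T.Fix (II 4) := by
    rw [hE]
    exact add_mem (mul_mem (hsub (by omega) mx2) (pow_mem (add_mem (one_mem _) mN4) 2))
      (mul_mem (hsub (by omega) (hψ0 _)) mN4)
  have nV6 : V ∉ T.Fix (II 6) := by
    intro hV'
    apply T.z_not_mem (I := II 6) (i := 6) (show ¬ rank 6 ≤ 6 by decide)
    have h1 : U ∈ T.Fix (II 6) := by
      apply T.Fix_sqrt
      rw [hUV]
      exact add_mem (mul_mem (hsub (by omega) mN4) (pow_mem hV' 2)) (hsub (by omega) hE4)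
    have h2 := div_mem h1 (ve 6)
    have h3 : U / e = a7 := by rw [hU]; field_simp
    rwa [h3] at h2
  have ru : ∀ j, T.rot (idx j) u = u := by
    intro j
    rw [hu, map_add, map_one, map_div₀, he, ha1, rz, rz]
  have rx : ∀ j, T.rot (idx j) x = x := by
    intro j
    rw [hx, map_div₀, map_pow, he, ha2, rz, rz]
  have rN : ∀ j, T.rot (idx j) N = N := by
    intro j
    rw [hN, map_div₀, map_pow, he, ha4, rz, rz]
  have rU : ∀ j, T.rot (idx j) U = U := by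
    intro j
    rw [hU, map_mul, he, ha7, rz, rz]
  have e4 : ∀ j, T.rot (idx j) (4 : T.E) = 4 := fun j => map_ofNat _ 4
  have rP : ∀ j, T.rot (idx j) P = P := by
    intro j
    simp only [hP, Params.P, map_mul, map_add, map_pow, map_sub, map_one, rψ, ru, rx]
  have rQ : ∀ j, T.rot (idx j) Q = Q := by
    intro j
    simp only [hQ, Params.Q, map_mul, map_add, map_pow, map_sub, map_one, rψ, ha3, rz, e4]
  have rE : ∀ j, T.rot (idx j) E = E := by
    intro j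
    simp only [hE, Params.E, map_mul, map_add, map_pow, map_one, rψ, rx, rN]
  have hO2e : On T.O ((2 + e / a1) / 2) := by
    have : (2 + e / a1) / 2 = 1 + (e / a1) / 2 := by field_simp
    rw [this]
    exact (se1.div_val v2).on
  have v2e : T.O.valuation (2 + e / a1) = 1 := by
    have h1 := hO2e.val
    rwa [map_div₀, v2, div_one] at h1
  have n2e : 2 + e / a1 ≠ 0 := by
    intro h0
    rw [h0, map_zero] at v2e
    exact zero_ne_one v2e
  -- the conic for `P`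
  have hu2 : 1 - u ^ 2 = -(e / a1) * (2 + e / a1) := by rw [hu]; ring
  have nu2 : 1 - u ^ 2 ≠ 0 := by
    rw [hu2]
    exact mul_ne_zero (neg_ne_zero.2 (div_ne_zero ne n1)) n2e
  have oS : On T.O (s ^ 2 / (x * (1 - u ^ 2)) ^ 2) := by
    have key : s ^ 2 / (x * (1 - u ^ 2)) ^ 2 =
        (1 + a1 * (a1 / a2) / (2 + e / a1) ^ 2) * (1 + a2) +
          a5 / a4 * (a5 * a2 ^ 2 * a1 ^ 2) / (2 + e / a1) ^ 2 := by
      rw [hs2, hP, Params.P, hu2, hψε, hx, hN]
      have n2e' := n2e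
      generalize 2 + e / a1 = W at n2e' ⊢
      field_simp
      ring
    rw [key]
    have v2e' : T.O.valuation ((2 + e / a1) ^ 2) = 1 := by rw [map_pow, v2e, one_pow]
    apply On.add
    · apply On.mul
      · exact ((s1.mul s12).div_val v2e').on
      · exact s2.on
    · exact (s54.mul_mem (mul_mem (mul_mem s5.mem (pow_mem s2.mem 2)) (pow_mem s1.mem 2))).div_val v2e'
  have rs : ∀ j, T.rot (idx j) s = s := by
    intro j
    apply T.rot_sqrt' (idx j) (a := x * (1 - u ^ 2)) _ (mul_ne_zero nx nu2) _ oS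
    · rw [map_mul, map_sub, map_pow, map_one, rx, ru]
    · rw [hs2, map_add, map_mul, map_pow, rN, rP, ha5, rz]
  -- the conic for `Q`
  obtain ⟨κ, hκ⟩ := IsAlgClosed.exists_pow_nat_eq (-2 * (1 + p.β ^ 2)) (n := 2) two_pos
  have hκ' : ψ κ ^ 2 = -2 * (1 + (1 - h) ^ 2) := by
    have := congrArg ψ hκ
    have e2 : ψ 2 = 2 := map_ofNat ψ 2
    simpa [e2, hψβ] using this
  have vκ : T.O.valuation (ψ κ ^ 2) = 1 := by
    have h1 : On T.O ((1 + (1 - h) ^ 2) / 2) := by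
      have : (1 + (1 - h) ^ 2) / 2 = 1 + h * ((h - 2) / 2) := by field_simp; ring
      rw [this]
      apply Sm.on
      apply sh.mul_mem
      rw [div_eq_mul_inv]
      exact mul_mem (sub_mem sh.mem o2) (mem_inv_of_val v2)
    have h2 : ψ κ ^ 2 = -(2 * 2 * ((1 + (1 - h) ^ 2) / 2)) := by rw [hκ']; field_simp
    rw [h2, Valuation.map_neg, map_mul, map_mul, v2, h1.val, one_mul, one_mul]
  have nκ : ψ κ ≠ 0 := by
    intro h0
    rw [h0, zero_pow two_ne_zero, map_zero] at vκ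
    exact zero_ne_one vκ
  have oS' : On T.O (s' ^ 2 / (ψ κ * a3) ^ 2) := by
    have key : s' ^ 2 / (ψ κ * a3) ^ 2 =
        (1 + a3 / ψ κ ^ 2 + h / a3 * (h * (2 - h) ^ 2) / ψ κ ^ 2) +
          (a6 ^ 2 / (a4 * a3 ^ 2)) * e * e ^ 5 / ψ κ ^ 2 := by
      rw [hs'2, hQ, Params.Q, hψβ, hN]
      field_simp
      rw [hκ']
      ring
    rw [key]
    apply On.add
    · apply On.add
      · exact (s3.div_val vκ).on
      · apply Sm.div_val _ vκ
        exact sh3.mul_mem (mul_mem sh.mem (pow_mem (sub_mem o2 sh.mem) 2))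
    · exact (se6.mul_mem (pow_mem se.mem 5)).div_val vκ
  have rs' : ∀ j, T.rot (idx j) s' = s' := by
    intro j
    apply T.rot_sqrt' (idx j) (a := ψ κ * a3) _ (mul_ne_zero nκ n3) _ oS'
    · rw [map_mul, rψ, ha3, rz]
    · rw [hs'2, map_add, map_mul, map_pow, rN, rQ, ha6, rz]
  -- the conic for `E`
  obtain ⟨ι, hι⟩ := IsAlgClosed.exists_pow_nat_eq (-p.c) (n := 2) two_pos
  have hι' : ψ ι ^ 2 = -(e ^ 4)⁻¹ := by
    have := congrArg ψ hι
    rwa [map_pow, map_neg, hψc] at this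
  have nι : ψ ι ≠ 0 := by
    intro h0
    rw [h0, zero_pow two_ne_zero] at hι'
    exact neg_ne_zero.2 (inv_ne_zero (pow_ne_zero 4 ne)) hι'.symm
  have sN : Sm T.O N := by
    have : N = e / a4 * e ^ 5 := by rw [hN]; ring
    rw [this]
    exact se4.mul_mem (pow_mem se.mem 5)
  have oV : On T.O (V ^ 2 / (ψ ι) ^ 2) := by
    have key : V ^ 2 / (ψ ι) ^ 2 = 1 + (a4 / a2 * (1 + N) ^ 2 - a7 * (a7 * a4)) := by
      rw [hV2, hι', hE, Params.E, hψc, hU, hx]
      have hN' : a4 = e ^ 6 / N := by rw [hN]; field_simp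
      rw [hN']
      field_simp
      ring
    rw [key]
    apply Sm.on
    apply Sm.sub
    · exact s42.mul_mem (pow_mem sN.on.mem 2)
    · exact s7.mul (s7.mul s4)
  have rV : ∀ j, T.rot (idx j) V = V := by
    intro j
    apply T.rot_sqrt' (idx j) (a := ψ ι) (rψ j _) nι _ oV
    rw [hV2, map_div₀, map_sub, map_pow, rU, rE, rN]
  refine ⟨hψ0, u, x, a3, N, a5, s, a6, s', V, U, nu, mu1, nx1, mx2, ny2, my3, nN3, mN4, n54, m55,
    n65, m66, nV6, hs2, hs'2, hUV, ?_, ?_⟩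
  · intro j
    exact ⟨rψ j, ru j, rx j, rz j 3, rN j, rz j 4, rs j, rz j 5, rs' j, rV j, rU j⟩
  -- the square roots
  set wn := ψ (p.w n) with hwn
  set wm := ψ (p.w m) with hwm
  set t := (u - wn) * (a1 / e) * ((u - wm) / 2) with ht
  have o1 : On T.O ((u - wn) * (a1 / e)) := by
    have h1 : (1 - wn) * (1 + wn) * ψ (p.C n) = e * ψ (p.A n) := by
      have := congrArg ψ (p.hw n)
      rw [map_mul, map_mul, map_sub, map_one, map_pow, hψε] at this
      rw [← this]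
      ring
    have h2 : On T.O ((1 + wn) / 2) := by
      have : (1 + wn) / 2 = 1 + (wn - 1) / 2 := by field_simp; ring
      rw [this]
      exact (Sm.div_val hn v2).on
    have h3 : T.O.valuation (1 + wn) = 1 := by
      have := h2.val
      rwa [map_div₀, v2, div_one] at this
    have n1w : 1 + wn ≠ 0 := by
      intro h0
      rw [h0, map_zero] at h3
      exact zero_ne_one h3
    have nC : ψ (p.C n) ≠ 0 := (_root_.map_ne_zero ψ).2 (p.hC n)
    have key : (u - wn) * (a1 / e) = 1 + a1 * (ψ (p.A n) / (ψ (p.C n) * (1 + wn))) := by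
      rw [hu]
      field_simp
      linear_combination a1 * h1
    rw [key]
    apply Sm.on
    apply s1.mul_mem
    rw [← T.O.valuation_le_one_iff, map_div₀, map_mul, (hAC n).1, (hAC n).2, h3]
    simp
  have o3 : On T.O ((u - wm) / 2) := by
    have : (u - wm) / 2 = 1 + (e / a1 - (wm + 1)) / 2 := by rw [hu]; field_simp; ring
    rw [this]
    exact ((se1.sub hm).div_val v2).on
  have ot : On T.O t := o1.mul o3
  obtain ⟨κ₂, hκ₂⟩ := IsAlgClosed.exists_pow_nat_eq (2 : ℂ) (n := 2) two_pos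
  have hκ₂' : ψ κ₂ ^ 2 = 2 := by
    have := congrArg ψ hκ₂
    have e2 : ψ 2 = 2 := map_ofNat ψ 2
    rwa [map_pow, e2] at this
  have rt' : ∀ j, T.rot (idx j) (rt t) = rt t := by
    intro j
    apply T.rot_sqrt' (idx j) (a := 1) (map_one _) one_ne_zero
    · rw [rt_sq, ht, hwn, hwm, map_mul, map_mul, map_sub, map_div₀, map_div₀, map_sub, ru, rψ, rψ,
        ha1, he, rz, rz]
      have e2 : T.rot (idx j) (2 : T.E) = 2 := map_ofNat _ 2
      rw [e2]
    · rw [rt_sq, one_pow, div_one]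
      exact ot
  let c : Fin 4 → T.E := ![e ^ 3, a3, e, T.sq 8 * ψ κ₂ * rt t]
  have rc : ∀ i j, T.rot (idx j) (c i) = c i := by
    intro i j
    fin_cases i
    · change T.rot (idx j) (e ^ 3) = e ^ 3
      rw [map_pow, he, rz]
    · exact rz j 3
    · exact rz j 8
    · change T.rot (idx j) (T.sq 8 * ψ κ₂ * rt t) = T.sq 8 * ψ κ₂ * rt t
      rw [map_mul, map_mul, rψ, rt', T.rot_sq_ne (hidx j).1]
  refine ⟨fun i => c i * (T.sq (idx i))⁻¹, ?_, ?_, ?_, ?_, ?_⟩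
  · change (e ^ 3 * (T.sq 1)⁻¹) ^ 2 = N
    rw [mul_pow, inv_pow, T.sq_sq, hN, ← ha4]
    field_simp
  · change (a3 * (T.sq 3)⁻¹) ^ 2 = a3
    rw [mul_pow, inv_pow, T.sq_sq, ← ha3]
    field_simp
  · change (e * (T.sq 0)⁻¹) ^ 2 = x
    rw [mul_pow, inv_pow, T.sq_sq, hx, ← ha2]
    field_simp
  · change (T.sq 8 * ψ κ₂ * rt t * (T.sq 2)⁻¹) ^ 2 = (u - wn) * (u - wm)
    rw [mul_pow, mul_pow, mul_pow, inv_pow, T.sq_sq, T.sq_sq, rt_sq, hκ₂', ht, ← he, ← ha1]
    field_simp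
  · intro i j
    simp only
    rw [map_mul, rc, map_inv₀]
    have hinj : Function.Injective idx := by decide
    split_ifs with hij
    · subst hij
      rw [T.rot_sq_same, inv_neg, mul_neg]
    · rw [T.rot_sq_ne (fun h => hij (hinj h.symm))]

end Pool.Agent.TH156
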