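import Pool.Agent.TH156.Defs

/-!
# Unramified cohomology of a function field
-/

set_option autoImplicit false

namespace Pool.Agent.TH156

/-- The continuous cohomology group `H ^ n (G, ℤ / ℓ)` of the topological group `G`, with the trivial
action on the discrete group `ℤ / ℓ`: continuous cocycles modulo coboundaries. -/
def Coh (ℓ n : ℕ) (G : Type*) [Group G] [TopologicalSpace G] : Type _ :=
  cocycles ℓ n G ⧸ (coboundaries ℓ G n).addSubgroupOf (cocycles ℓ n G)

/-- The group structure of the cohomology group. -/
instance (ℓ n : ℕ) (G : Type*) [Group G] [TopologicalSpace G] : AddCommGroup (Coh ℓ n G) :=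
  QuotientAddGroup.Quotient.addCommGroup ((coboundaries ℓ G n).addSubgroupOf (cocycles ℓ n G))

/-- The cohomology class of a cocycle. -/
def Coh.mk {ℓ n : ℕ} {G : Type*} [Group G] [TopologicalSpace G] (f : cocycles ℓ n G) : Coh ℓ n G :=
  QuotientAddGroup.mk f

/-- The absolute Galois group of the field `K` (of characteristic zero). -/
def AbsGal (K : Type*) [Field K] : Type _ := AlgebraicClosure K ≃ₐ[K] AlgebraicClosure K

/-- The group structure of the absolute Galois group. -/
noncomputable instance (K : Type*) [Field K] : Group (AbsGal K) :=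
  AlgEquiv.aut

/-- The Krull topology of the absolute Galois group. -/
noncomputable instance (K : Type*) [Field K] : TopologicalSpace (AbsGal K) :=
  krullTopology K (AlgebraicClosure K)

/-- The decomposition group of a valuation ring `B` of the algebraic closure of `K`. -/
noncomputable def decGroup {K : Type*} [Field K] (B : ValuationSubring (AlgebraicClosure K)) : Subgroup (AbsGal K) :=
  B.decompositionSubgroup K

/-- The inertia group of a valuation ring `B` of the algebraic closure of `K`: the elements of the
decomposition group which act trivially on the residue field of `B`. -/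
noncomputable def inGroup {K : Type*} [Field K] (B : ValuationSubring (AlgebraicClosure K)) :
    Subgroup (decGroup B) :=
  B.inertiaSubgroup K

/-- The restriction of the cochain `f` of `G` to the subgroup `D` is the sum of a coboundary and of a
continuous cocycle which is inflated from `D / I`. -/
def InflatedOn (ℓ n : ℕ) {G : Type*} [Group G] [TopologicalSpace G] (D : Subgroup G) (I : Subgroup D)
    (f : (Fin n → G) → ZMod ℓ) : Prop :=
  ∃ c ∈ cocycles ℓ n D, IsInflated ℓ n I c ∧ resCochain ℓ n D f - c ∈ coboundaries ℓ D n

/-- Let `B` be a valuation ring of the algebraic closure of `K`, lying above the ring `A` of a discrete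
valuation `v` of `K` of residue characteristic zero. The decomposition group `D` of `B` is the absolute
Galois group of the henselization `K_v`, and the quotient `D / I` by the inertia group is
the absolute Galois group of the residue field `κ(v)`. The residue
`H ^ n (K, ℤ / ℓ) → H ^ (n - 1) (κ(v), ℤ / ℓ)` of a class `α` vanishes if and only if the
restriction of `α` to `H ^ n (D, ℤ / ℓ) = H ^ n (K_v, ℤ / ℓ)` is inflated
from `H ^ n (D / I, ℤ / ℓ) = H ^ n (κ(v), ℤ / ℓ)`. This is the condition expressed here. -/
def NoResidue {ℓ n : ℕ} {K : Type*} [Field K] (α : Coh ℓ n (AbsGal K))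
    (B : ValuationSubring (AlgebraicClosure K)) : Prop :=
  ∃ f : cocycles ℓ n (AbsGal K), Coh.mk f = α ∧ InflatedOn ℓ n (decGroup B) (inGroup B) f

/-- The class `α` is unramified: its residues vanish at all the discrete valuations of `K` which are
trivial on `k`. The discrete valuations are given by their valuation rings `A`, and `B`
runs over the valuation rings of the algebraic closure of `K` above `A`. -/
def IsUnramified {ℓ n : ℕ} {K : Type*} [Field K] (k : Type*) [Field k] [Algebra k K]
    (α : Coh ℓ n (AbsGal K)) : Prop :=
  ∀ A : ValuationSubring K, IsDiscreteValuationRing A → (∀ a : k, algebraMap k K a ∈ A) →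
    ∀ B : ValuationSubring (AlgebraicClosure K), B.comap (algebraMap K (AlgebraicClosure K)) = A →
      NoResidue α B

theorem isUnramified_iff {ℓ n : ℕ} {K : Type*} [Field K] (k : Type*) [Field k] [Algebra k K]
    (α : Coh ℓ n (AbsGal K)) : IsUnramified k α ↔ (α : H ℓ n (GalK K)) ∈ Hnr ℓ n K k := Iff.rfl

theorem isUnramified_zero {ℓ n : ℕ} {K : Type*} [Field K] (k : Type*) [Field k] [Algebra k K] :
    IsUnramified k (0 : Coh ℓ n (AbsGal K)) := (Hnr ℓ n K k).zero_mem'

theorem isUnramified_add {ℓ n : ℕ} {K : Type*} [Field K] (k : Type*) [Field k] [Algebra k K]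
    {α β : Coh ℓ n (AbsGal K)} (hα : IsUnramified k α) (hβ : IsUnramified k β) :
    IsUnramified k (α + β) := (Hnr ℓ n K k).add_mem' hα hβ

theorem isUnramified_neg {ℓ n : ℕ} {K : Type*} [Field K] (k : Type*) [Field k] [Algebra k K]
    {α : Coh ℓ n (AbsGal K)} (hα : IsUnramified k α) :
    IsUnramified k (-α) := (Hnr ℓ n K k).neg_mem' hα

/-- The unramified cohomology group `H ^ n_nr (K / k, ℤ / ℓ)`. -/
def UnramifiedCohomology (ℓ n : ℕ) (K : Type*) [Field K] (k : Type*) [Field k] [Algebra k K] :
    AddSubgroup (Coh ℓ n (AbsGal K)) where
  carrier := {α | IsUnramified k α}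
  zero_mem' := isUnramified_zero k
  add_mem' := isUnramified_add k
  neg_mem' := isUnramified_neg k

theorem infinite_iff (ℓ n : ℕ) (K : Type*) [Field K] (k : Type*) [Field k] [Algebra k K] :
    Infinite (UnramifiedCohomology ℓ n K k) ↔ Infinite (Hnr ℓ n K k) := Iff.rfl

end Pool.Agent.TH156
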