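import Pool.Agent.TH156.Ring
import Pool.Agent.TH156.Model
import Pool.Agent.TH156.Public

set_option autoImplicit false
set_option linter.unusedSectionVars false
set_option linter.unusedVariables false

open Polynomial

namespace Pool.Agent.TH156

theorem main_aux : ∃ (R : Type) (_ : CommRing R) (_ : IsDomain R) (_ : Algebra ℂ R),
    Algebra.FiniteType ℂ R ∧ RationallyConnected ℂ R ∧
      Infinite (Hnr 2 4 (FractionRing R) ℂ) := by
  obtain ⟨T⟩ : Nonempty (Tower 9) := ⟨Tower.mk' 9⟩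
  obtain ⟨p, hc, hp⟩ := exists_params T 7 8 (by decide)
  obtain ⟨R, _, _, hR, u, x, y, N, r, s, r', s', r'', s'', e1, e2, e3, hP, hQ, hE, huniv⟩ :=
    exists_ring p
  have hdom := hR.dom
  refine ⟨R, inferInstance, hdom, inferInstance, hR.ft, hR.rc, ?_⟩
  have emb : ∀ n m, n ≠ m → ∃ g : R →+* T.E, Function.Injective g ∧
      (∃ F : Subfield T.E, (∀ a, g (algebraMap ℂ R a) ∈ F) ∧ g u ∉ F) ∧
      g x ≠ 0 ∧ g y ≠ 0 ∧ g N ≠ 0 ∧ g r ≠ 0 ∧ g r' ≠ 0 ∧ g r'' ≠ 0 ∧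
      (∀ (j : Fin 4) (a : R), T.rot (idx j) (g a) = g a) ∧
      ∃ ρ : Fin 4 → T.E, ρ 0 ^ 2 = g N ∧ ρ 1 ^ 2 = g y ∧ ρ 2 ^ 2 = g x ∧
        ρ 3 ^ 2 = g ((u - algebraMap ℂ R (p.w n)) * (u - algebraMap ℂ R (p.w m))) ∧
        ∀ i j, T.rot (idx j) (ρ i) = if i = j then -ρ i else ρ i := by
    intro n m hnm
    obtain ⟨ψ, hψ, hψε, hψβ, hn, hm, hAC⟩ := hp n m hnm
    obtain ⟨hψ0, u₀, x₀, y₀, N₀, r₀, s₀, r₁, s₁, r₂, s₂, hu0, hu0', hx0, hx0', hy0, hy0', hN0, hN0',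
      hr0, hr0', hr1, hr1', hr2, f1, f2, f3, hrot, ρ, hρ0, hρ1, hρ2, hρ3, hρ⟩ :=
      model T p hc n m ψ hψ hψε hψβ hn hm hAC
    obtain ⟨g, gi, gc, gu, gx, gy, gN, gr, gs, gr', gs', gr'', gs'', gF⟩ := huniv T II II_mono ψ hψ0
      u₀ x₀ y₀ N₀ r₀ s₀ r₁ s₁ r₂ s₂ hu0 hu0' hx0 hx0' hy0 hy0' hN0 hN0' hr0 hr0' hr1 hr1' hr2 f1 f2 f3
    have hne : ∀ {I : Set (Fin 9)} {z : T.E}, z ∉ T.Fix I → z ≠ 0 := by
      rintro I z hz rfl
      exact hz (zero_mem _)
    refine ⟨g, gi, ⟨T.Fix (II 0), fun a => ?_, ?_⟩, ?_, ?_, ?_, ?_, ?_, ?_, ?_, ρ, ?_, ?_, ?_, ?_, hρ⟩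
    · rw [gc]; exact hψ0 a
    · rw [gu]; exact hu0
    · rw [gx]; exact hne hx0
    · rw [gy]; exact hne hy0
    · rw [gN]; exact hne hN0
    · rw [gr]; exact hne hr0
    · rw [gr']; exact hne hr1
    · rw [gr'']; exact hne hr2
    · intro j a
      obtain ⟨k1, k2, k3, k4, k5, k6, k7, k8, k9, k10, k11⟩ := hrot j
      exact gF (RingHom.eqLocusField (T.rot (idx j) : T.E →+* T.E) (RingHom.id T.E)) k1 k2 k3 k4 k5
        k6 k7 k8 k9 k10 k11 a
    · rw [gN]; exact hρ0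
    · rw [gy]; exact hρ1
    · rw [gx]; exact hρ2
    · rw [map_mul, map_sub, map_sub, gu, gc, gc]; exact hρ3
  let K := FractionRing R
  let j : R →+* K := algebraMap R K
  have hj : Function.Injective j := IsFractionRing.injective R K
  have hj0 : ∀ {a : R}, a ≠ 0 → j a ≠ 0 := fun ha h => ha (hj (by rw [h, map_zero]))
  have cz : CharZero K := by
    have : CharZero R := charZero_of_injective_algebraMap (algebraMap ℂ R).injective
    exact charZero_of_injective_algebraMap hj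
  have hcomp : j.comp (algebraMap ℂ R) = algebraMap ℂ K := by
    rw [IsScalarTower.algebraMap_eq ℂ R K]
  have hcomp' : ∀ a, j (algebraMap ℂ R a) = algebraMap ℂ K a := fun a => by
    rw [← hcomp]; rfl
  obtain ⟨g₀, g₀i, ⟨F₀, hF₀, hF₀u⟩, gx₀, gy₀, gN₀, gr₀, gr'₀, gr''₀, -⟩ := emb 0 1 (by decide)
  have nz : ∀ {a : R}, g₀ a ≠ 0 → a ≠ 0 := by
    rintro a ha rfl
    exact ha (map_zero _)
  have hgne : ∀ n, (j u - algebraMap ℂ K (p.w n)) ≠ 0 := by
    intro n h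
    rw [← hcomp', ← map_sub] at h
    have h1 : u - algebraMap ℂ R (p.w n) = 0 := hj (by rw [h, map_zero])
    rw [sub_eq_zero] at h1
    apply hF₀u
    rw [h1]
    exact hF₀ _
  have hx := hj0 (nz gx₀)
  have hy := hj0 (nz gy₀)
  have hN := hj0 (nz gN₀)
  apply infinite_Hnr (K := K) (fun n => j u - algebraMap ℂ K (p.w n)) hN hy hx hgne
  · intro n m
    apply symCl_unramified p (r := j r) (s := j s) (r' := j r') (s' := j s') (r'' := j r'')
      (s'' := j s'') hx hy hN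
    · rw [← hcomp, ← Params.map_P]; exact hj0 hP
    · rw [← hcomp, ← Params.map_Q]; exact hj0 hQ
    · rw [← hcomp, ← Params.map_E]; exact hj0 hE
    · exact hj0 (nz gr₀)
    · exact hj0 (nz gr'₀)
    · exact hj0 (nz gr''₀)
    · rw [← hcomp, ← Params.map_P, ← map_pow, ← map_pow, ← map_mul, ← map_add, e1]
    · rw [← hcomp, ← Params.map_Q, ← map_pow, ← map_pow, ← map_mul, ← map_add, e2]
    · rw [← hcomp, ← Params.map_E, ← map_pow, ← map_pow, ← map_mul, ← map_add, e3]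
  · intro n m hnm
    obtain ⟨g, gi, -, -, -, -, -, -, -, hrot, ρ, hρ0, hρ1, hρ2, hρ3, hρ⟩ := emb n m hnm
    let φ : K →+* T.E := IsFractionRing.lift gi
    have hφ : ∀ a : R, φ (j a) = g a := fun a => IsFractionRing.lift_algebraMap gi a
    have := symCl_ne φ (fun i => T.rot (idx i)) (fun i k z => T.rot_comm _ _ z) ?_
      ![j N, j y, j x, (j u - algebraMap ℂ K (p.w n)) * (j u - algebraMap ℂ K (p.w m))] ?_ ρ ?_ hρ
    · exact this
    · intro i z
      obtain ⟨a, b, hb, hab⟩ := IsFractionRing.div_surjective (A := R) z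
      have h1 : φ z = g a / g b := by
        rw [← hφ a, ← hφ b, ← map_div₀ φ (j a) (j b)]
        exact congrArg φ hab.symm
      have h2 : T.rot (idx i) (g a / g b) = g a / g b := by
        rw [map_div₀ (T.rot (idx i)) (g a) (g b), hrot, hrot]
      change T.rot (idx i) (φ z) = φ z
      rw [h1]
      exact h2
    · intro i
      fin_cases i
      · exact hN
      · exact hy
      · exact hx
      · exact mul_ne_zero (hgne n) (hgne m)
    · intro i
      fin_cases i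
      · change ρ 0 ^ 2 = φ (j N)
        rw [hφ]; exact hρ0
      · change ρ 1 ^ 2 = φ (j y)
        rw [hφ]; exact hρ1
      · change ρ 2 ^ 2 = φ (j x)
        rw [hφ]; exact hρ2
      · change ρ 3 ^ 2 = φ ((j u - algebraMap ℂ K (p.w n)) * (j u - algebraMap ℂ K (p.w m)))
        rw [← hcomp', ← hcomp', ← map_sub, ← map_sub, ← map_mul, hφ]
        exact hρ3

theorem main : ∃ (R : Type) (_ : CommRing R) (_ : IsDomain R) (_ : Algebra ℂ R),
    Algebra.FiniteType ℂ R ∧ RationallyConnected ℂ R ∧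
      Infinite (UnramifiedCohomology 2 4 (FractionRing R) ℂ) := by
  obtain ⟨R, i1, i2, i3, h1, h2, h3⟩ := main_aux
  exact ⟨R, i1, i2, i3, h1, h2, (infinite_iff 2 4 (FractionRing R) ℂ).2 h3⟩

end Pool.Agent.TH156
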