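import Pool.Agent.TH156.Tower

set_option autoImplicit false
set_option linter.unusedSectionVars false
set_option linter.unusedVariables false

open Polynomial

namespace Pool.Agent.TH156

variable {n : ℕ} (T : Tower n)

/-- The subfield of the elements which only depend on the variables in `I`. -/
noncomputable def Tower.Fix (I : Set (Fin n)) : Subfield T.E where
  carrier := {x | ∀ t : Fin n → ℂ, (∀ i ∈ I, t i = 0) → T.act t x = x}
  mul_mem' := fun hx hy t ht => by rw [map_mul, hx t ht, hy t ht]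
  one_mem' := fun t _ => map_one _
  add_mem' := fun hx hy t ht => by rw [map_add, hx t ht, hy t ht]
  zero_mem' := fun t _ => map_zero _
  neg_mem' := fun hx t ht => by rw [map_neg, hx t ht]
  inv_mem' := fun x hx t ht => by rw [map_inv₀, hx t ht]

theorem Tower.mem_Fix {I : Set (Fin n)} {x : T.E} :
    x ∈ T.Fix I ↔ ∀ t : Fin n → ℂ, (∀ i ∈ I, t i = 0) → T.act t x = x := Iff.rfl

theorem Tower.Fix_mono {I J : Set (Fin n)} (h : I ⊆ J) : T.Fix I ≤ T.Fix J :=
  fun _ hx t ht => hx t fun i hi => ht i (h hi)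

theorem Tower.cst_mem (c : ℂ) (I : Set (Fin n)) : T.cst c ∈ T.Fix I := fun t _ => T.act_cst t c

theorem Tower.z_mem {I : Set (Fin n)} {i : Fin n} (hi : i ∈ I) : T.z i ∈ T.Fix I := fun t ht => by
  rw [T.act_z, ht i hi, Complex.exp_zero, map_one, one_mul]

theorem Tower.iter {s : Fin n → ℂ} {x : T.E} (h : T.act s x = x) (e : ℕ) :
    T.act ((e : ℂ) • s) x = x := by
  induction e with
  | zero => rw [Nat.cast_zero, zero_smul, T.act_zero]
  | succ e ih => rw [Nat.cast_succ, add_smul, one_smul, T.act_add, h, ih]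

theorem Tower.act_neg (s : Fin n → ℂ) (x : T.E) : T.act (-s) (T.act s x) = x := by
  rw [← T.act_add, neg_add_cancel, T.act_zero]

/-- `Fix I` is algebraically closed in the big field. -/
theorem Tower.mem_Fix_of_root {I : Set (Fin n)} {p : (T.E)[X]} (hp : p ≠ 0)
    (hc : ∀ i, p.coeff i ∈ T.Fix I) {x : T.E} (hx : p.eval x = 0) : x ∈ T.Fix I := by
  classical
  intro t ht
  set Z := p.roots.toFinset with hZ
  set N := Z.card with hN
  set M := N.factorial with hM
  have hM0 : (M : ℂ) ≠ 0 := by exact_mod_cast N.factorial_ne_zero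
  set s : Fin n → ℂ := (M : ℂ)⁻¹ • t with hs
  have hroot : ∀ k : ℕ, T.act ((k : ℂ) • s) x ∈ Z := by
    intro k
    have hk : ∀ i ∈ I, ((k : ℂ) • s) i = 0 := by
      intro i hi
      rw [Pi.smul_apply, hs, Pi.smul_apply, ht i hi, smul_zero, smul_zero]
    rw [hZ, Multiset.mem_toFinset, mem_roots hp, IsRoot]
    have h1 : p.map (T.act ((k : ℂ) • s) : T.E →+* T.E) = p := by
      ext i
      rw [coeff_map]
      exact hc i _ hk
    have h2 := Polynomial.eval_map_apply (T.act ((k : ℂ) • s) : T.E →+* T.E) (p := p) x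
    rw [h1, hx, map_zero] at h2
    exact h2
  have hcard : Z.card < (Finset.range (N + 1)).card := by rw [Finset.card_range]; omega
  obtain ⟨a, ha, b, hb, hab, hfab⟩ :=
    Finset.exists_ne_map_eq_of_card_lt_of_maps_to hcard
      (f := fun k : ℕ => T.act ((k : ℂ) • s) x) (fun k _ => hroot k)
  have key : ∀ a b : ℕ, a ∈ Finset.range (N + 1) → b ∈ Finset.range (N + 1) → a < b →
      T.act ((a : ℂ) • s) x = T.act ((b : ℂ) • s) x → T.act t x = x := by
    intro a b ha hb hab hfab
    rw [Finset.mem_range] at ha hb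
    have h1 : T.act (((b - a : ℕ) : ℂ) • s) x = x := by
      have h2 : (b : ℂ) • s = (a : ℂ) • s + ((b - a : ℕ) : ℂ) • s := by
        rw [← add_smul]
        congr 1
        rw [Nat.cast_sub hab.le]
        ring
      rw [h2, T.act_add] at hfab
      exact ((T.act ((a : ℂ) • s)).injective hfab).symm
    have h3 : b - a ∣ M := Nat.dvd_factorial (by omega) (by omega)
    obtain ⟨e, he⟩ := h3
    have h4 := T.iter h1 e
    have h5 : (e : ℂ) • ((b - a : ℕ) : ℂ) • s = t := by
      rw [hs, smul_smul, smul_smul, ← Nat.cast_mul, mul_comm e, ← he, mul_inv_cancel₀ hM0, one_smul]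
    rwa [h5] at h4
  rcases lt_or_gt_of_ne hab with h | h
  · exact key a b ha hb h hfab
  · exact key b a hb ha h hfab.symm

theorem Tower.Fix_eval₂ {I : Set (Fin n)} {S : Type*} [CommRing S] (f : S →+* T.E)
    (hf : Function.Injective f) (hfI : ∀ s, f s ∈ T.Fix I) {x : T.E} (hx : x ∉ T.Fix I)
    (p : S[X]) (hp : p.eval₂ f x = 0) : p = 0 := by
  by_contra h
  apply hx
  apply T.mem_Fix_of_root (p := p.map f)
  · rwa [Ne, Polynomial.map_eq_zero_iff hf]
  · intro i
    rw [coeff_map]
    exact hfI _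
  · rw [eval_map]; exact hp

instance Tower.isAlgClosed_Fix (I : Set (Fin n)) : IsAlgClosed (T.Fix I) := by
  apply IsAlgClosed.of_exists_root
  intro p hp hirr
  have hd : (p.map (T.Fix I).subtype).degree ≠ 0 := by
    rw [degree_map]
    exact hirr.degree_pos.ne'
  obtain ⟨x, hx⟩ := IsAlgClosed.exists_root _ hd
  have hmem : x ∈ T.Fix I := by
    apply T.mem_Fix_of_root (p := p.map (T.Fix I).subtype)
    · rw [Ne, Polynomial.map_eq_zero_iff (T.Fix I).subtype.injective]
      exact hirr.ne_zero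
    · intro i
      rw [coeff_map]
      exact (p.coeff i).2
    · exact hx
  refine ⟨⟨x, hmem⟩, ?_⟩
  apply (T.Fix I).subtype.injective
  rw [map_zero]
  rw [IsRoot, eval_map] at hx
  rw [← hx, ← Polynomial.eval₂_hom]
  rfl

/-- A square root of an element of `Fix I` is in `Fix I`. -/
theorem Tower.Fix_sqrt {I : Set (Fin n)} {x : T.E} (hx : x ^ 2 ∈ T.Fix I) : x ∈ T.Fix I := by
  apply T.mem_Fix_of_root (p := X ^ 2 - C (x ^ 2))
  · exact (monic_X_pow_sub_C _ two_ne_zero).ne_zero
  · intro i
    rw [coeff_sub, coeff_X_pow, coeff_C]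
    apply sub_mem
    · split_ifs
      · exact one_mem _
      · exact zero_mem _
    · split_ifs
      · exact hx
      · exact zero_mem _
  · simp

/-- An element of `Fix I` is fixed by the rotation of a variable outside of `I`. -/
theorem Tower.not_mem_Fix {I : Set (Fin n)} {i : Fin n} (hi : i ∉ I) {y : T.E} (hy : y ∈ T.Fix I)
    (hy0 : y ≠ 0) : y * T.z i ∉ T.Fix I := by
  classical
  intro h
  have h1 : T.z i ∈ T.Fix I := by
    have h2 := mul_mem (inv_mem hy) h
    rwa [inv_mul_cancel_left₀ hy0] at h2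
  have h3 := h1 (Pi.single i (Real.pi * Complex.I)) (by
    intro j hj
    rw [Pi.single_apply, if_neg]
    rintro rfl
    exact hi hj)
  rw [T.act_z, Pi.single_eq_same, Complex.exp_pi_mul_I, map_neg, map_one, neg_one_mul] at h3
  exact T.z_ne i (neg_eq_self.1 h3)

/-- The square root of a variable. -/
noncomputable def Tower.sq (i : Fin n) : T.E := rt (T.z i)

theorem Tower.sq_sq (i : Fin n) : T.sq i ^ 2 = T.z i := rt_sq _

theorem Tower.sq_ne (i : Fin n) : T.sq i ≠ 0 := rt_ne_zero (T.z_ne i)

theorem Tower.act_sq (t : Fin n → ℂ) (i : Fin n) :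
    T.act t (T.sq i) = T.cst (Complex.exp (t i / 2)) * T.sq i := by
  have key : ∀ s : Fin n → ℂ, T.act s (T.sq i) = T.cst (Complex.exp (s i / 2)) * T.sq i ∨
      T.act s (T.sq i) = -(T.cst (Complex.exp (s i / 2)) * T.sq i) := by
    intro s
    apply sq_eq_sq_iff_eq_or_eq_neg.mp
    rw [← map_pow, T.sq_sq, T.act_z, mul_pow, T.sq_sq, ← map_pow, ← Complex.exp_nat_mul]
    congr 3
    push_cast
    ring
  have e : t = (1 / 2 : ℂ) • t + (1 / 2 : ℂ) • t := by
    rw [← add_smul]
    norm_num
  have h2 : T.act t (T.sq i) = T.act ((1 / 2 : ℂ) • t) (T.act ((1 / 2 : ℂ) • t) (T.sq i)) := by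
    rw [← T.act_add, ← e]
  have h3 : T.cst (Complex.exp (t i / 2)) = T.cst (Complex.exp (((1 / 2 : ℂ) • t) i / 2)) *
      T.cst (Complex.exp (((1 / 2 : ℂ) • t) i / 2)) := by
    rw [← map_mul, ← Complex.exp_add]
    congr 2
    rw [Pi.smul_apply, smul_eq_mul]
    ring
  rw [h2, h3]
  rcases key ((1 / 2 : ℂ) • t) with h | h
  · rw [h, map_mul, T.act_cst, h]; ring
  · rw [h, map_neg, map_mul, T.act_cst, h]; ring

/-- The rotation of the variable `i` by `2 π`. -/
noncomputable def Tower.rot (i : Fin n) : T.E ≃+* T.E :=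
  T.act (Pi.single i (2 * Real.pi * Complex.I))

theorem Tower.rot_comm (i j : Fin n) (x : T.E) : T.rot i (T.rot j x) = T.rot j (T.rot i x) := by
  unfold Tower.rot
  rw [← T.act_add, ← T.act_add, add_comm]

theorem Tower.rot_z (i j : Fin n) : T.rot i (T.z j) = T.z j := by
  classical
  unfold Tower.rot
  rw [T.act_z, Pi.single_apply]
  split_ifs
  · rw [Complex.exp_two_pi_mul_I, map_one, one_mul]
  · rw [Complex.exp_zero, map_one, one_mul]

theorem Tower.rot_sq_same (i : Fin n) : T.rot i (T.sq i) = -T.sq i := by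
  unfold Tower.rot
  rw [T.act_sq, Pi.single_eq_same]
  rw [show (2 * Real.pi * Complex.I / 2 : ℂ) = Real.pi * Complex.I by ring, Complex.exp_pi_mul_I,
    map_neg, map_one, neg_one_mul]

theorem Tower.rot_sq_ne {i j : Fin n} (h : i ≠ j) : T.rot i (T.sq j) = T.sq j := by
  unfold Tower.rot
  rw [T.act_sq, Pi.single_eq_of_ne h.symm, zero_div, Complex.exp_zero, map_one, one_mul]

theorem Tower.rot_Fix {I : Set (Fin n)} {i : Fin n} (hi : i ∉ I) {x : T.E} (hx : x ∈ T.Fix I) :
    T.rot i x = x := by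
  classical
  apply hx
  intro j hj
  rw [Pi.single_apply, if_neg]
  rintro rfl
  exact hi hj

theorem Tower.rot_O (i : Fin n) {x : T.E} (hx : x ∈ T.O) : T.rot i x ∈ T.O := T.act_O _ _ hx

theorem Tower.rot_small (i : Fin n) {x : T.E} (hx : T.O.valuation x < 1) :
    T.O.valuation (T.rot i x) < 1 := by
  by_cases h0 : x = 0
  · rw [h0, map_zero, map_zero]; exact zero_lt_one
  · rw [vlt _ ((_root_.map_ne_zero _).2 h0), ← map_inv₀]
    rw [vlt _ h0] at hx
    intro h
    apply hx
    have h1 : T.act (-(Pi.single i (2 * Real.pi * Complex.I))) (T.rot i x⁻¹) = x⁻¹ := T.act_neg _ _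
    rw [← h1]
    exact T.act_O _ _ h

theorem Tower.val_two : T.O.valuation 2 = 1 := by
  apply le_antisymm
  · rw [T.O.valuation_le_one_iff]
    have := T.cst_O 2
    rwa [map_ofNat] at this
  · have h1 : T.O.valuation (2 : T.E)⁻¹ ≤ 1 := by
      rw [T.O.valuation_le_one_iff]
      have := T.cst_O (2⁻¹)
      rwa [map_inv₀, map_ofNat] at this
    rw [map_inv₀] at h1
    exact (inv_le_one₀ (zero_lt_iff.2 ((T.O.valuation).ne_zero_iff.2 two_ne_zero))).1 h1

/-- The square roots of an element congruent to a fixed square are fixed. -/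
theorem Tower.rot_sqrt (i : Fin n) {s a δ : T.E} (ha : T.rot i a = a) (hδ : T.rot i δ = δ)
    (hv : T.O.valuation δ < 1) (h : s ^ 2 = a ^ 2 * (1 + δ)) : T.rot i s = s := by
  by_cases ha0 : a = 0
  · rw [ha0, zero_pow two_ne_zero, zero_mul] at h
    rw [pow_eq_zero_iff two_ne_zero] at h
    rw [h, map_zero]
  set r := s / a with hr
  have hs : s = a * r := by rw [hr]; field_simp
  have hr2 : r ^ 2 = 1 + δ := by
    rw [hr, div_pow, h]
    field_simp
  rw [hs, map_mul, ha]
  congr 1
  have h1 : T.rot i r = r ∨ T.rot i r = -r := by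
    apply sq_eq_sq_iff_eq_or_eq_neg.mp
    rw [← map_pow, hr2, map_add, map_one, hδ]
  rcases h1 with h | h
  · exact h
  · exfalso
    have h3 : T.O.valuation (r - 1) * T.O.valuation (r + 1) < 1 := by
      rw [← map_mul]
      have : (r - 1) * (r + 1) = δ := by linear_combination hr2
      rw [this]; exact hv
    have h4 : T.O.valuation (r - 1) < 1 ∨ T.O.valuation (r + 1) < 1 := by
      by_contra hcon
      push Not at hcon
      exact absurd h3 (not_lt.2 (one_le_mul hcon.1 hcon.2))
    have h5 : T.O.valuation 2 < 1 := by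
      rcases h4 with h4 | h4
      · have h6 := T.rot_small i h4
        rw [map_sub, map_one, h] at h6
        have h7 := (T.O.valuation).map_add_lt h4 h6
        have h8 : r - 1 + (-r - 1) = -2 := by ring
        rwa [h8, Valuation.map_neg] at h7
      · have h6 := T.rot_small i h4
        rw [map_add, map_one, h] at h6
        have h7 := (T.O.valuation).map_add_lt h4 h6
        have h8 : r + 1 + (-r + 1) = 2 := by ring
        rwa [h8] at h7
    rw [T.val_two] at h5
    exact lt_irrefl _ h5

end Pool.Agent.TH156
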