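import Pool.Agent.TH156.Chr

set_option autoImplicit false
set_option linter.unusedSectionVars false
set_option linter.unusedVariables false

namespace Pool.Agent.TH156

section norm

variable {Ω : Type*} [Field Ω] [IsAlgClosed Ω] {D : Type*} [Group D] [MulSemiringAction D Ω]
  [TopologicalSpace D] [ContinuousMul D]

theorem norm_lemma (h2 : (2 : Ω) ≠ 0) (hlc : ∀ x : Ω, IsLocallyConstant (fun σ : D => σ • x))
    {N X x a b P Q : Ω} (hN : Fx D N) (hX : Fx D X) (hx : Fx D x) (ha : Fx D a) (hb : Fx D b)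
    (hN0 : N ≠ 0) (hX0 : X ≠ 0) (hx0 : x ≠ 0) (hP : P = X * (X ^ 2 + a * X + b))
    (hQ : Q = x * ((x - a) ^ 2 - 4 * b)) (hP0 : P ≠ 0) (hQ0 : Q ≠ 0)
    (hNP : T2 (ch D N) (ch D P)) (hNQ : T2 (ch D N) (ch D Q)) :
    T3 (ch D N) (ch D x) (ch D X) := by
  have hPF : Fx D P := by
    rw [hP]
    exact hX.mul (((hX.pow 2).add (ha.mul hX)).add hb)
  have hQF : Fx D Q := by
    rw [hQ]
    exact hx.mul (((hx.sub ha).pow 2).sub ((Fx.ofNat 4).mul hb))
  have cN := ch_isChr h2 hlc hN hN0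
  have cX := ch_isChr h2 hlc hX hX0
  have cx := ch_isChr h2 hlc hx hx0
  have cP := ch_isChr h2 hlc hPF hP0
  have cQ := ch_isChr h2 hlc hQF hQ0
  by_cases hn2 : P - x * X ^ 2 = 0
  · have h : P = x * X ^ 2 := sub_eq_zero.1 hn2
    have h3 : ch D P = ch D x := ch_congr h2 hx hX hx0 hX0 h
    rw [h3] at hNP
    exact hNP.mul_right cX
  · set n2 := P - x * X ^ 2 with hn2'
    set n1 := (X - (x - a) / 2) ^ 2 - Q / (4 * x) with hn1'
    have h4 : (4 : Ω) ≠ 0 := by
      have : (4 : Ω) = 2 * 2 := by norm_num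
      rw [this]; exact mul_ne_zero h2 h2
    have hrel : X * n1 = n2 := by
      rw [hn1', hn2', hP, hQ]
      field_simp
      ring
    have hn1 : n1 ≠ 0 := by
      intro h
      rw [h, mul_zero] at hrel
      exact hn2 hrel.symm
    have hn2F : Fx D n2 := hPF.sub (hx.mul (hX.pow 2))
    have hn1F : Fx D n1 := ((hX.sub ((hx.sub ha).div (Fx.ofNat 2))).pow 2).sub
      (hQF.div ((Fx.ofNat 4).mul hx))
    have c1 := ch_isChr h2 hlc hn1F hn1
    have c2 := ch_isChr h2 hlc hn2F hn2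
    -- first relation
    have r1 : T2 (ch D n2 + ch D P) (ch D x + ch D P) := by
      have e1 : ch D (n2 / P) = ch D n2 + ch D P := by
        rw [← ch_mul h2 hn2F hPF hn2 hP0]
        exact ch_congr h2 (hn2F.mul hPF) (Fx.one.div hPF) (mul_ne_zero hn2 hP0)
          (div_ne_zero one_ne_zero hP0) (by field_simp)
      have e2 : ch D (x * X ^ 2 / P) = ch D x + ch D P := by
        rw [← ch_mul h2 hx hPF hx0 hP0]
        exact ch_congr h2 (hx.mul hPF) (hX.div hPF) (mul_ne_zero hx0 hP0)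
          (div_ne_zero hX0 hP0) (by field_simp)
      rw [← e1, ← e2]
      apply steinberg h2 hlc (c := 1) (hn2F.div hPF) ((hx.mul (hX.pow 2)).div hPF) Fx.one
        (div_ne_zero hn2 hP0) (div_ne_zero (mul_ne_zero hx0 (pow_ne_zero 2 hX0)) hP0)
      rw [hn2']
      field_simp
      ring
    have s1 : T3 (ch D N) (ch D n2) (ch D x) := by
      have t1 : T3 (ch D N) (ch D n2 + ch D P) (ch D x + ch D P) := r1.mul_left cN
      have t2 : T3 (ch D N) (ch D P) (ch D x + ch D P) := hNP.mul_right (cx.add cP)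
      have t3 := t1.of_add2 t2
      have t4 : T3 (ch D N) (ch D n2) (ch D P) := (hNP.mul_right c2).swap23 cN cP c2
      exact t3.of_add3 t4
    have r2 : T2 (ch D n1) (ch D x + ch D Q) := by
      have e2 : ch D (Q / (4 * x)) = ch D x + ch D Q := by
        rw [← ch_mul h2 hx hQF hx0 hQ0]
        refine ch_congr h2 (c := 1 / (2 * x)) (hx.mul hQF) (Fx.one.div ((Fx.ofNat 2).mul hx))
          (mul_ne_zero hx0 hQ0)
          (div_ne_zero one_ne_zero (mul_ne_zero h2 hx0)) ?_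
        field_simp
        norm_num
      rw [← e2]
      apply steinberg h2 hlc (c := X - (x - a) / 2) hn1F (hQF.div ((Fx.ofNat 4).mul hx))
        (hX.sub ((hx.sub ha).div (Fx.ofNat 2))) hn1
        (div_ne_zero hQ0 (mul_ne_zero h4 hx0))
      rw [hn1']
      ring
    have s2 : T3 (ch D N) (ch D n1) (ch D x) := by
      have t1 : T3 (ch D N) (ch D n1) (ch D x + ch D Q) := r2.mul_left cN
      have t4 : T3 (ch D N) (ch D n1) (ch D Q) := (hNQ.mul_right c1).swap23 cN cQ c1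
      exact t1.of_add3 t4
    have e : ch D n2 = ch D X + ch D n1 := by
      rw [← ch_mul h2 hX hn1F hX0 hn1, hrel]
    rw [e] at s1
    exact (s1.of_add2 s2).swap23 cN cX cx

/-- One step of the chain of isogenies. -/
theorem step_lemma (h2 : (2 : Ω) ≠ 0) {X A B A' B' : Ω} (hX : Fx D X) (hA : Fx D A) (hB : Fx D B)
    (hX0 : X ≠ 0) (hAB : A' = A + B) (hAB' : B' ^ 2 = 4 * A * B) (hXAB : X ^ 2 ≠ (A * B) ^ 2)
    (hP0 : X * (X + A ^ 2) * (X + B ^ 2) ≠ 0) :
    ch D ((X - A * B) ^ 2 / X) = ch D X ∧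
    ch D ((X - A * B) ^ 2 / X * ((X - A * B) ^ 2 / X + A' ^ 2) * ((X - A * B) ^ 2 / X + B' ^ 2)) =
      ch D (X * (X + A ^ 2) * (X + B ^ 2)) := by
  have h1 : X - A * B ≠ 0 := by
    intro h
    apply hXAB
    rw [sub_eq_zero.1 h]
  have h3 : X + A * B ≠ 0 := by
    intro h
    apply hXAB
    linear_combination (X - A * B) * h
  constructor
  · exact ch_congr h2 hX ((hX.sub (hA.mul hB)).div hX) hX0 (div_ne_zero h1 hX0) (by field_simp)
  · refine ch_congr h2 (c := (X - A * B) * (X + A * B) / X ^ 2) ?_ ?_ hP0 ?_ ?_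
    · exact (hX.mul (hX.add (hA.pow 2))).mul (hX.add (hB.pow 2))
    · exact ((hX.sub (hA.mul hB)).mul (hX.add (hA.mul hB))).div (hX.pow 2)
    · exact div_ne_zero (mul_ne_zero h1 h3) (pow_ne_zero 2 hX0)
    · rw [hAB', hAB]
      field_simp
      ring

end norm

end Pool.Agent.TH156
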