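import Pool.Agent.TH156.Fix

set_option autoImplicit false
set_option linter.unusedSectionVars false
set_option linter.unusedVariables false

open Polynomial

namespace Pool.Agent.TH156

/-! ### Extensions of embeddings -/

theorem ext_closure {K L : Type} [Field K] [Field L] [IsAlgClosed L] (f : K →+* L) :
    ∃ g : AlgebraicClosure K →+* L, ∀ x, g (algebraMap K (AlgebraicClosure K) x) = f x := by
  let _ : Algebra K L := f.toAlgebra
  let g : AlgebraicClosure K →ₐ[K] L := IsAlgClosed.lift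
  exact ⟨g, g.commutes⟩

theorem ext_ratFunc {K L : Type} [Field K] [Field L] (f : K →+* L) (t : L)
    (ht : ∀ p : K[X], p.eval₂ f t = 0 → p = 0) :
    ∃ g : RatFunc K →+* L, (∀ c, g (RatFunc.C c) = f c) ∧ g RatFunc.X = t := by
  have hinj : Function.Injective (eval₂RingHom f t) := by
    rw [injective_iff_map_eq_zero]
    exact ht
  refine ⟨IsFractionRing.lift (A := K[X]) (K := RatFunc K) hinj, fun c => ?_, ?_⟩
  · rw [← RatFunc.algebraMap_C, IsFractionRing.lift_algebraMap]
    change eval₂ f t (C c) = _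
    rw [eval₂_C]
  · rw [← RatFunc.algebraMap_X, IsFractionRing.lift_algebraMap]
    change eval₂ f t X = _
    rw [eval₂_X]

/-! ### Sign changes -/

theorem poly_not_sq {K : Type*} [Field K] (s : K[X]) (hs : s ≠ 0) (a : K)
    (h : s.rootMultiplicity a = 1) (y : RatFunc K) : y ^ 2 ≠ algebraMap K[X] (RatFunc K) s := by
  intro hy
  obtain ⟨p, q, hq, rfl⟩ := IsFractionRing.div_surjective (A := K[X]) y
  have hq0 : q ≠ 0 := nonZeroDivisors.ne_zero hq
  have hqm : algebraMap K[X] (RatFunc K) q ≠ 0 := by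
    simpa using hq0
  rw [div_pow, div_eq_iff (pow_ne_zero 2 hqm), ← map_pow, ← map_pow, ← map_mul] at hy
  have hpq : p ^ 2 = s * q ^ 2 := IsFractionRing.injective K[X] (RatFunc K) hy
  have hp0 : p ≠ 0 := by
    intro hp
    rw [hp] at hpq
    have : s * q ^ 2 ≠ 0 := mul_ne_zero hs (pow_ne_zero 2 hq0)
    exact this (by rw [← hpq]; simp)
  have h1 : (p ^ 2).rootMultiplicity a = 2 * p.rootMultiplicity a := by
    rw [pow_two, rootMultiplicity_mul (mul_ne_zero hp0 hp0)]
    ring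
  have h2 : (s * q ^ 2).rootMultiplicity a = 1 + 2 * q.rootMultiplicity a := by
    rw [rootMultiplicity_mul (mul_ne_zero hs (pow_ne_zero 2 hq0)), h, pow_two,
      rootMultiplicity_mul (mul_ne_zero hq0 hq0)]
    ring
  rw [hpq, h2] at h1
  omega

theorem flip {M : Type} [Field M] [CharZero M] {r1 r2 : AlgebraicClosure M} {a b : M}
    (h1 : r1 ^ 2 = algebraMap M (AlgebraicClosure M) a)
    (h2 : r2 ^ 2 = algebraMap M (AlgebraicClosure M) b) (hb : ∀ y : M, y ^ 2 ≠ b)
    (hab : ∀ y : M, y ^ 2 ≠ a * b) :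
    ∃ τ : AlgebraicClosure M ≃ₐ[M] AlgebraicClosure M, τ r1 = r1 ∧ τ r2 = -r2 := by
  have hinj := (algebraMap M (AlgebraicClosure M)).injective
  have hG : IsGalois M (AlgebraicClosure M) := by
    have : Algebra.IsSeparable M (AlgebraicClosure M) := inferInstance
    have : Normal M (AlgebraicClosure M) := IsAlgClosure.normal M _
    exact ⟨⟩
  have key : ∀ (r : AlgebraicClosure M) (s : M), (∀ y : M, y ^ 2 ≠ s) →
      r ^ 2 = algebraMap M (AlgebraicClosure M) s →
      ∃ σ : AlgebraicClosure M ≃ₐ[M] AlgebraicClosure M, σ r ≠ r := by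
    intro r s hs hr
    by_contra hcon
    push Not at hcon
    have h1 := (InfiniteGalois.mem_bot_iff_fixed r).mpr hcon
    obtain ⟨y, hy⟩ := IntermediateField.mem_bot.mp h1
    rw [← hy, ← map_pow] at hr
    exact hs y (hinj hr)
  obtain ⟨β, hβ⟩ := key r2 b hb h2
  obtain ⟨γ, hγ⟩ := key (r1 * r2) (a * b) hab (by rw [mul_pow, h1, h2, map_mul])
  have hpm1 : ∀ σ : AlgebraicClosure M ≃ₐ[M] AlgebraicClosure M, σ r1 = r1 ∨ σ r1 = -r1 := by
    intro σ
    apply sq_eq_sq_iff_eq_or_eq_neg.mp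
    rw [← map_pow, h1, AlgEquiv.commutes]
  have hpm2 : ∀ σ : AlgebraicClosure M ≃ₐ[M] AlgebraicClosure M, σ r2 = r2 ∨ σ r2 = -r2 := by
    intro σ
    apply sq_eq_sq_iff_eq_or_eq_neg.mp
    rw [← map_pow, h2, AlgEquiv.commutes]
  have hβ' : β r2 = -r2 := (hpm2 β).resolve_left hβ
  rcases hpm1 β with h | h
  · exact ⟨β, h, hβ'⟩
  · rcases hpm1 γ with h3 | h3 <;> rcases hpm2 γ with h4 | h4
    · exact absurd (by rw [map_mul, h3, h4]) hγ
    · exact ⟨γ, h3, h4⟩
    · refine ⟨β.trans γ, ?_, ?_⟩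
      · rw [AlgEquiv.trans_apply, h, map_neg, h3, neg_neg]
      · rw [AlgEquiv.trans_apply, hβ', map_neg, h4]
    · exact absurd (by rw [map_mul, h3, h4, neg_mul_neg]) hγ

theorem lin_mult {K : Type*} [Field K] {r : K} (hr : r ≠ 0) :
    (1 - C r * X : K[X]) ≠ 0 ∧ (1 - C r * X : K[X]).rootMultiplicity r⁻¹ = 1 := by
  have e : (1 - C r * X : K[X]) = C (-r) * (X - C r⁻¹) := by
    rw [mul_sub, ← C_mul, C_neg, neg_mul r, mul_inv_cancel₀ hr]
    simp
    ring
  have hC : (C (-r) : K[X]) ≠ 0 := C_ne_zero.2 (neg_ne_zero.2 hr)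
  have hX : (X - C r⁻¹ : K[X]) ≠ 0 := X_sub_C_ne_zero _
  rw [e]
  refine ⟨mul_ne_zero hC hX, ?_⟩
  rw [rootMultiplicity_mul (mul_ne_zero hC hX), rootMultiplicity_C, rootMultiplicity_X_sub_C_self]

theorem flip_lin {K : Type} [Field K] [CharZero K] {r s : K} (hr : r ≠ 0) (hs : s ≠ 0)
    (hrs : r ≠ s) {r1 r2 : AlgebraicClosure (RatFunc K)}
    (h1 : r1 ^ 2 = algebraMap (RatFunc K) (AlgebraicClosure (RatFunc K))
      (1 - RatFunc.C r * RatFunc.X))
    (h2 : r2 ^ 2 = algebraMap (RatFunc K) (AlgebraicClosure (RatFunc K))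
      (1 - RatFunc.C s * RatFunc.X)) :
    ∃ τ : AlgebraicClosure (RatFunc K) ≃ₐ[RatFunc K] AlgebraicClosure (RatFunc K),
      τ r1 = r1 ∧ τ r2 = -r2 := by
  have : CharZero (RatFunc K) := charZero_of_injective_algebraMap (algebraMap K (RatFunc K)).injective
  have e : ∀ t : K, (1 - RatFunc.C t * RatFunc.X : RatFunc K) =
      algebraMap K[X] (RatFunc K) (1 - C t * X) := by
    intro t
    rw [map_sub, map_mul, map_one, RatFunc.algebraMap_C, RatFunc.algebraMap_X]
  have hr' := lin_mult hr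
  have hs' := lin_mult hs
  apply flip h1 h2
  · intro y
    rw [e]
    exact poly_not_sq _ hs'.1 s⁻¹ hs'.2 y
  · intro y
    rw [e, e, ← map_mul]
    apply poly_not_sq _ (mul_ne_zero hr'.1 hs'.1) s⁻¹
    rw [rootMultiplicity_mul (mul_ne_zero hr'.1 hs'.1), hs'.2]
    have : (1 - C r * X : K[X]).rootMultiplicity s⁻¹ = 0 := by
      apply rootMultiplicity_eq_zero
      rw [IsRoot, eval_sub, eval_one, eval_mul, eval_C, eval_X]
      intro h
      apply hrs
      have h3 : r * s⁻¹ = 1 := (sub_eq_zero.1 h).symm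
      field_simp at h3
      exact h3
    rw [this]

/-! ### The chain -/

theorem seq_exists {K : Type*} [Field K] [IsAlgClosed K] (h2 : (2 : K) ≠ 0) {β : K} (hβ : β ≠ 0) :
    ∃ A B : ℕ → K, A 0 = 1 ∧ B 0 = β ∧ (∀ n, A n = A (n + 1) + B (n + 1)) ∧
      (∀ n, B n ^ 2 = 4 * A (n + 1) * B (n + 1)) ∧ ∀ n, B n ≠ 0 := by
  have h4 : (4 : K) ≠ 0 := by
    have : (4 : K) = 2 * 2 := by norm_num
    rw [this]
    exact mul_ne_zero h2 h2
  have step : ∀ p : K × K, ∃ q : K × K, p.1 = q.1 + q.2 ∧ p.2 ^ 2 = 4 * q.1 * q.2 := by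
    rintro ⟨a, b⟩
    have hdeg : (X ^ 2 - C a * X + C (b ^ 2 / 4) : K[X]).degree ≠ 0 := by
      have : (X ^ 2 - C a * X + C (b ^ 2 / 4) : K[X]).natDegree = 2 := by compute_degree!
      intro h
      rw [degree_eq_natDegree] at h
      · rw [this] at h; exact absurd h (by decide)
      · intro h0; rw [h0] at this; simp at this
    obtain ⟨r, hr⟩ := IsAlgClosed.exists_root _ hdeg
    have hr' : r ^ 2 - a * r + b ^ 2 / 4 = 0 := by simpa [IsRoot] using hr
    refine ⟨(r, a - r), by simp, ?_⟩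
    simp only
    field_simp at hr'
    linear_combination hr'
  choose f hf using step
  let s : ℕ → K × K := fun n => Nat.rec (1, β) (fun _ p => f p) n
  have hs : ∀ n, s (n + 1) = f (s n) := fun n => rfl
  have hs2 : ∀ n, (s n).2 ^ 2 = 4 * (s (n + 1)).1 * (s (n + 1)).2 := fun n => (hf (s n)).2
  refine ⟨fun n => (s n).1, fun n => (s n).2, rfl, rfl, fun n => (hf (s n)).1, hs2, ?_⟩
  intro n
  induction n with
  | zero => exact hβ
  | succ n ih =>
    intro h
    have h' : (s (n + 1)).2 = 0 := h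
    have := hs2 n
    rw [h', mul_zero] at this
    exact ih (pow_eq_zero_iff two_ne_zero |>.1 this)

section chain_val

variable {K L : Type} [Field K] [Field L] (φ : K →+* L) (O : ValuationSubring L)

theorem chain_val (h2 : O.valuation 2 = 1) {β : K} (hβ : O.valuation (1 - φ β) < 1) (A B : ℕ → K)
    (hA0 : A 0 = 1) (hB0 : B 0 = β) (hAB : ∀ n, A n = A (n + 1) + B (n + 1))
    (hAB' : ∀ n, B n ^ 2 = 4 * A (n + 1) * B (n + 1)) (n : ℕ) :
    O.valuation (φ (A n)) = 1 ∧ O.valuation (φ (B n)) = 1 ∧ O.valuation (φ (A n) - φ (B n)) < 1 := by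
  have v4 : O.valuation (4 : L) = 1 := by
    have : (4 : L) = 2 * 2 := by norm_num
    rw [this, map_mul, h2, one_mul]
  induction n with
  | zero =>
    rw [hA0, hB0, map_one]
    refine ⟨map_one _, ?_, hβ⟩
    have : φ β = 1 - (1 - φ β) := by ring
    rw [this]
    have h3 := (O.valuation).map_sub_eq_of_lt_left (x := (1 : L)) (y := 1 - φ β) (by rwa [map_one])
    rw [h3, map_one]
  | succ n ih =>
    obtain ⟨h1, h3, h4⟩ := ih
    have e1 : (φ (A (n + 1)) - φ (B (n + 1))) ^ 2 = (φ (A n) - φ (B n)) * (φ (A n) + φ (B n)) := by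
      have i1 : φ (A n) = φ (A (n + 1)) + φ (B (n + 1)) := by rw [← map_add, ← hAB]
      have i2 : φ (B n) ^ 2 = 4 * φ (A (n + 1)) * φ (B (n + 1)) := by
        have := congrArg φ (hAB' n)
        have e4 : φ 4 = 4 := map_ofNat φ 4
        simpa [e4] using this
      rw [show (φ (A n) - φ (B n)) * (φ (A n) + φ (B n)) = φ (A n) ^ 2 - φ (B n) ^ 2 by ring, i2, i1]
      ring
    have hle : O.valuation (φ (A n) + φ (B n)) ≤ 1 := by
      rw [O.valuation_le_one_iff]
      exact add_mem ((O.valuation_le_one_iff _).1 h1.le) ((O.valuation_le_one_iff _).1 h3.le)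
    have h5 : O.valuation (φ (A (n + 1)) - φ (B (n + 1))) < 1 := by
      have h6 : O.valuation (φ (A (n + 1)) - φ (B (n + 1))) ^ 2 < 1 := by
        rw [← map_pow, e1, map_mul]
        calc _ ≤ O.valuation (φ (A n) - φ (B n)) * 1 := mul_le_mul_right hle _
          _ < 1 := by rw [mul_one]; exact h4
      by_contra hcon
      rw [not_lt] at hcon
      exact absurd h6 (not_lt.2 (one_le_pow₀ hcon))
    have hA : O.valuation (φ (A (n + 1))) = 1 := by
      have e2 : 2 * φ (A (n + 1)) = φ (A n) + (φ (A (n + 1)) - φ (B (n + 1))) := by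
        rw [hAB n, map_add]; ring
      have h6 := congrArg O.valuation e2
      rw [map_mul, h2, one_mul] at h6
      rw [h6, (O.valuation).map_add_eq_of_lt_left (by rw [h1]; exact h5), h1]
    have hB : O.valuation (φ (B (n + 1))) = 1 := by
      have e2 : 2 * φ (B (n + 1)) = φ (A n) - (φ (A (n + 1)) - φ (B (n + 1))) := by
        rw [hAB n, map_add]; ring
      have h6 := congrArg O.valuation e2
      rw [map_mul, h2, one_mul] at h6
      rw [h6, (O.valuation).map_sub_eq_of_lt_left (by rw [h1]; exact h5), h1]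
    exact ⟨hA, hB, h5⟩

theorem chain_strict (h2 : O.valuation 2 = 1) {β : K} (hβ : O.valuation (1 - φ β) < 1) (A B : ℕ → K)
    (hβ1 : β ≠ 1)
    (hA0 : A 0 = 1) (hB0 : B 0 = β) (hAB : ∀ n, A n = A (n + 1) + B (n + 1))
    (hAB' : ∀ n, B n ^ 2 = 4 * A (n + 1) * B (n + 1)) :
    StrictMono (fun n => O.valuation (φ (A n) - φ (B n))) := by
  have hne : ∀ n, O.valuation (φ (A n) - φ (B n)) ≠ 0 ∧
      O.valuation (φ (A (n + 1)) - φ (B (n + 1))) ^ 2 = O.valuation (φ (A n) - φ (B n)) := by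
    have hsq : ∀ n, O.valuation (φ (A (n + 1)) - φ (B (n + 1))) ^ 2 =
        O.valuation (φ (A n) - φ (B n)) := by
      intro n
      obtain ⟨h1, h3, h4⟩ := chain_val φ O h2 hβ A B hA0 hB0 hAB hAB' n
      have e1 : (φ (A (n + 1)) - φ (B (n + 1))) ^ 2 = (φ (A n) - φ (B n)) * (φ (A n) + φ (B n)) := by
        have i1 : φ (A n) = φ (A (n + 1)) + φ (B (n + 1)) := by rw [← map_add, ← hAB]
        have i2 : φ (B n) ^ 2 = 4 * φ (A (n + 1)) * φ (B (n + 1)) := by
          have := congrArg φ (hAB' n)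
          have e4 : φ 4 = 4 := map_ofNat φ 4
          simpa [e4] using this
        rw [show (φ (A n) - φ (B n)) * (φ (A n) + φ (B n)) = φ (A n) ^ 2 - φ (B n) ^ 2 by ring, i2, i1]
        ring
      have e2 : O.valuation (φ (A n) + φ (B n)) = 1 := by
        have : φ (A n) + φ (B n) = 2 * φ (A n) - (φ (A n) - φ (B n)) := by ring
        rw [this, (O.valuation).map_sub_eq_of_lt_left, map_mul, h2, h1, one_mul]
        rw [map_mul, h2, h1, one_mul]
        exact h4
      rw [← map_pow, e1, map_mul, e2, mul_one]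
    intro n
    refine ⟨?_, hsq n⟩
    induction n with
    | zero =>
      rw [hA0, hB0, map_one, Ne, map_eq_zero, sub_eq_zero]
      intro h
      apply hβ1
      apply φ.injective
      rw [map_one, h]
    | succ n ih =>
      intro h
      have := hsq n
      rw [h, zero_pow two_ne_zero] at this
      exact ih this.symm
  apply strictMono_nat_of_lt_succ
  intro n
  obtain ⟨h1, h3, h4⟩ := chain_val φ O h2 hβ A B hA0 hB0 hAB hAB' n
  have h5 := hne n
  have h6 := (hne (n + 1)).1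
  by_contra hcon
  rw [not_lt] at hcon
  set d := O.valuation (φ (A (n + 1)) - φ (B (n + 1))) with hd
  rw [← h5.2] at hcon h4
  have h7 : 1 ≤ d := by
    have h8 : d * 1 ≤ d * d := by rw [mul_one, ← pow_two]; exact hcon
    exact le_of_mul_le_mul_left h8 (zero_lt_iff.2 h6)
  exact absurd h4 (not_lt.2 (one_le_pow₀ h7))

end chain_val

end Pool.Agent.TH156
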