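import Pool.Agent.TH156.Param

set_option autoImplicit false
set_option linter.unusedSectionVars false
set_option linter.unusedVariables false

open Polynomial

namespace Pool.Agent.TH156

theorem Tower.val_z {n : ℕ} (T : Tower n) (i : Fin n) : T.O.valuation (T.z i) < 1 := by
  have := T.small i 1 (fun t _ => map_one _)
  rwa [one_mul] at this

theorem ext_step {n : ℕ} (T : Tower n) {I : Set (Fin n)} {i : Fin n} (hi : i ∉ I) {K : Type}
    [Field K] (f : K →+* T.E) (hf : ∀ x, f x ∈ T.Fix I) :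
    ∃ g : AlgebraicClosure (RatFunc K) →+* T.E, (∀ x, g x ∈ T.Fix (insert i I)) ∧
      (∀ c, g (algebraMap (RatFunc K) (AlgebraicClosure (RatFunc K)) (RatFunc.C c)) = f c) ∧
      g (algebraMap (RatFunc K) (AlgebraicClosure (RatFunc K)) RatFunc.X) = T.z i := by
  let J := insert i I
  have hIJ : I ⊆ J := Set.subset_insert i I
  let f' : K →+* T.Fix J := f.codRestrict (T.Fix J) fun x => T.Fix_mono hIJ (hf x)
  let t : T.Fix J := ⟨T.z i, T.z_mem (Set.mem_insert i I)⟩
  have ht : ∀ p : K[X], p.eval₂ f' t = 0 → p = 0 := by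
    intro p hp
    apply T.Fix_eval₂ f f.injective hf (x := T.z i) _ p
    · have h1 := congrArg (T.Fix J).subtype hp
      rw [Polynomial.hom_eval₂, map_zero] at h1
      exact h1
    · have := T.not_mem_Fix hi (one_mem (T.Fix I)) one_ne_zero
      rwa [one_mul] at this
  obtain ⟨g, hg1, hg2⟩ := ext_ratFunc f' t ht
  obtain ⟨h, hh⟩ := ext_closure g
  refine ⟨(T.Fix J).subtype.comp h, fun x => (h x).2, fun c => ?_, ?_⟩
  · rw [RingHom.comp_apply, hh, hg1]
    rfl
  · rw [RingHom.comp_apply, hh, hg2]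
    rfl

theorem card_step {K : Type} [Field K] [CharZero K] (e : Nonempty (K ≃ ℂ)) :
    Nonempty (AlgebraicClosure (RatFunc K) ≃ ℂ) := by
  have h1 : Cardinal.mk K = Cardinal.continuum := by
    rw [Cardinal.mk_congr e.some, Cardinal.mk_complex]
  have h2 : Cardinal.mk (RatFunc K) ≤ Cardinal.continuum := by
    rw [IsFractionRing.cardinalMk K[X] (RatFunc K)]
    refine Polynomial.cardinalMk_le_max.trans ?_
    rw [h1]
    exact max_le le_rfl Cardinal.aleph0_le_continuum
  have h3 : Cardinal.mk (AlgebraicClosure (RatFunc K)) ≤ Cardinal.continuum := by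
    refine (Algebra.IsAlgebraic.cardinalMk_le_max (RatFunc K) _).trans ?_
    exact max_le h2 Cardinal.aleph0_le_continuum
  have h4 : Cardinal.continuum ≤ Cardinal.mk (AlgebraicClosure (RatFunc K)) := by
    rw [← h1]
    exact Cardinal.mk_le_of_injective
      (f := (algebraMap (RatFunc K) (AlgebraicClosure (RatFunc K))).comp (algebraMap K (RatFunc K)))
      (RingHom.injective _)
  have h5 : Cardinal.mk (AlgebraicClosure (RatFunc K)) = Cardinal.mk ℂ := by
    rw [Cardinal.mk_complex]
    exact le_antisymm h3 h4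
  exact Cardinal.eq.1 h5

theorem exists_params {d : ℕ} (T : Tower d) (iη iε : Fin d) (hne : iε ≠ iη) :
    ∃ p : Params ℂ, p.c * p.ε ^ 4 = 1 ∧ ∀ n m, n ≠ m → ∃ ψ : ℂ →+* T.E,
      (∀ a, ψ a ∈ T.Fix {iε, iη}) ∧ ψ p.ε = T.z iε ∧ ψ p.β = 1 - T.z iη ∧
      T.O.valuation (ψ (p.w n) - 1) < 1 ∧ T.O.valuation (ψ (p.w m) + 1) < 1 ∧
      ∀ j, T.O.valuation (ψ (p.A j)) = 1 ∧ T.O.valuation (ψ (p.C j)) = 1 := by
  -- the first field
  obtain ⟨e₁, he₁, -, he₁X⟩ := ext_step T (I := ∅) (i := iη) (Set.notMem_empty _) T.cst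
    (fun c => T.cst_mem c ∅)
  let K₁ := AlgebraicClosure (RatFunc ℂ)
  have cz0 : CharZero (RatFunc ℂ) :=
    charZero_of_injective_algebraMap (algebraMap ℂ (RatFunc ℂ)).injective
  have cz1 : CharZero K₁ :=
    charZero_of_injective_algebraMap (algebraMap (RatFunc ℂ) K₁).injective
  have hη : iε ∉ (insert iη ∅ : Set (Fin d)) := by
    rintro (h | h)
    · exact hne h
    · exact h
  obtain ⟨φ, hφ, hφC, hφX⟩ := ext_step T hη (K := K₁) e₁ he₁
  let k₀ := AlgebraicClosure (RatFunc K₁)
  have cz2 : CharZero (RatFunc K₁) :=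
    charZero_of_injective_algebraMap (algebraMap K₁ (RatFunc K₁)).injective
  have cz3 : CharZero k₀ :=
    charZero_of_injective_algebraMap (algebraMap (RatFunc K₁) k₀).injective
  have hcard : Nonempty (k₀ ≃ ℂ) := card_step (card_step ⟨Equiv.refl ℂ⟩)
  obtain ⟨e⟩ : Nonempty (k₀ ≃+* ℂ) := by
    apply IsAlgClosed.ringEquiv_of_equiv_of_charZero _ hcard
    rw [Cardinal.mk_congr hcard.some, Cardinal.mk_complex]
    exact Cardinal.aleph0_lt_continuum
  let c₁ : K₁ →+* k₀ := (algebraMap (RatFunc K₁) k₀).comp RatFunc.C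
  have hφc : ∀ x, φ (c₁ x) = e₁ x := hφC
  let η : K₁ := algebraMap (RatFunc ℂ) K₁ RatFunc.X
  let β : K₁ := 1 - η
  have hβv : T.O.valuation (1 - e₁ β) < 1 := by
    have : 1 - e₁ β = T.z iη := by
      rw [← he₁X]
      simp only [β, map_sub, map_one]
      ring
    rw [this]
    exact T.val_z iη
  have hβ1 : β ≠ 1 := by
    intro h
    have h1 : η = 0 := by
      have : η = 1 - β := by simp only [β]; ring
      rw [this, h, sub_self]
    have h2 : T.z iη = 0 := by rw [← he₁X]; change e₁ η = 0; rw [h1, map_zero]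
    exact T.z_ne _ h2
  have hβ0 : β ≠ 0 := by
    intro h
    rw [h, map_zero, sub_zero, map_one] at hβv
    exact lt_irrefl _ hβv
  have hβm1 : β ≠ -1 := by
    intro h
    have h3 : T.O.valuation (2 : T.E) < 1 := by
      have : (2 : T.E) = 1 - e₁ β := by rw [h, map_neg, map_one]; ring
      rw [this]; exact hβv
    rw [T.val_two] at h3
    exact lt_irrefl _ h3
  obtain ⟨A, B, hA0, hB0, hAB, hAB', hBne⟩ := seq_exists (two_ne_zero (α := K₁)) hβ0
  have hval := chain_val e₁ T.O T.val_two hβv A B hA0 hB0 hAB hAB'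
  have hstrict := chain_strict e₁ T.O T.val_two hβv A B hβ1 hA0 hB0 hAB hAB'
  have hAne : ∀ n, A n ≠ 0 := by
    intro n h
    have := (hval n).1
    rw [h, map_zero, map_zero] at this
    exact zero_ne_one this
  let r : ℕ → K₁ := fun n => A n / B n
  have hrval : ∀ n, T.O.valuation (e₁ (r n)) = 1 := by
    intro n
    simp only [r, map_div₀, (hval n).1, (hval n).2.1, div_one]
  have hrne : ∀ n, r n ≠ 0 := fun n => div_ne_zero (hAne n) (hBne n)
  have hrinj : ∀ n m, n ≠ m → r n ≠ r m := by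
    intro n m hnm h
    apply hnm
    apply hstrict.injective
    have e : ∀ j, T.O.valuation (e₁ (A j) - e₁ (B j)) = T.O.valuation (e₁ (r j) - 1) := by
      intro j
      have hb : e₁ (B j) ≠ 0 := (_root_.map_ne_zero e₁).2 (hBne j)
      have : e₁ (A j) - e₁ (B j) = (e₁ (r j) - 1) * e₁ (B j) := by
        simp only [r, map_div₀]
        field_simp
      rw [this, map_mul, (hval j).2.1, mul_one]
    simp only
    rw [e, e, h]
  let ε : k₀ := algebraMap (RatFunc K₁) k₀ RatFunc.X
  have hφε : φ ε = T.z iε := hφX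
  have hε0 : ε ≠ 0 := by
    intro h
    rw [h, map_zero] at hφε
    exact T.z_ne _ hφε.symm
  -- the special points
  have hw : ∀ n, ∃ w : k₀, w ^ 2 = 1 - c₁ (r n) * ε ∧ T.O.valuation (φ w - 1) < 1 := by
    intro n
    obtain ⟨w, hw⟩ := IsAlgClosed.exists_pow_nat_eq (1 - c₁ (r n) * ε) (n := 2) two_pos
    have h1 : T.O.valuation (φ w - 1) * T.O.valuation (φ w + 1) < 1 := by
      rw [← map_mul]
      have : (φ w - 1) * (φ w + 1) = -(e₁ (r n) * T.z iε) := by
        have := congrArg φ hw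
        rw [map_pow, map_sub, map_mul, map_one, hφc, hφε] at this
        linear_combination this
      rw [this, Valuation.map_neg, map_mul, hrval, one_mul]
      exact T.val_z iε
    by_cases h2 : T.O.valuation (φ w - 1) < 1
    · exact ⟨w, hw, h2⟩
    · have h3 : T.O.valuation (φ w + 1) < 1 := by
        by_contra hcon
        push Not at hcon h2
        exact absurd h1 (not_lt.2 (one_le_mul h2 hcon))
      refine ⟨-w, by rw [neg_sq, hw], ?_⟩
      rw [map_neg, show -φ w - 1 = -(φ w + 1) by ring, Valuation.map_neg]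
      exact h3
  choose w hw hwv using hw
  have hc₁ : ∀ {x : K₁}, x ≠ 0 → c₁ x ≠ 0 := fun hx => (_root_.map_ne_zero c₁).2 hx
  have he0 : ∀ {x : k₀}, x ≠ 0 → e x ≠ 0 := fun hx => (_root_.map_ne_zero e).2 hx
  let p : Params ℂ :=
    { β := e (c₁ β)
      ε := e ε
      c := (e ε ^ 4)⁻¹
      A := fun n => e (c₁ (A n))
      C := fun n => e (c₁ (B n))
      w := fun n => e (w n)
      hβ := by
        rw [← map_pow, ← map_pow]
        intro h
        have h1 : β ^ 2 = 1 := by
          apply c₁.injective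
          apply e.injective
          rw [h, map_one, map_one]
        have h3 : (β - 1) * (β + 1) = 0 := by linear_combination h1
        rcases mul_eq_zero.1 h3 with h2 | h2
        · exact hβ1 (sub_eq_zero.1 h2)
        · exact hβm1 (eq_neg_of_add_eq_zero_left h2)
      hε := he0 hε0
      hA0 := by rw [hA0, map_one, map_one]
      hC0 := by rw [hB0]
      hAC := fun n => by rw [hAB n, map_add, map_add]
      hAC' := fun n => by
        have e4 : e (c₁ 4) = 4 := by rw [map_ofNat, map_ofNat]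
        rw [← e4, ← map_mul, ← map_mul, ← map_mul, ← map_mul, ← hAB' n, map_pow, map_pow]
      hA := fun n => he0 (hc₁ (hAne n))
      hC := fun n => he0 (hc₁ (hBne n))
      hw := fun n => by
        rw [← map_pow, hw, ← map_mul, ← map_one e, ← map_sub, ← map_mul]
        congr 1
        have hrb : c₁ (r n) * c₁ (B n) = c₁ (A n) := by
          rw [← map_mul]
          congr 1
          exact div_mul_cancel₀ _ (hBne n)
        linear_combination ε * hrb }
  refine ⟨p, inv_mul_cancel₀ (pow_ne_zero 4 (he0 hε0)), fun n m hnm => ?_⟩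
  obtain ⟨τ, hτn, hτm⟩ := flip_lin (hrne n) (hrne m) (hrinj n m hnm) (r1 := w n) (r2 := w m)
    (by rw [hw]; simp only [map_sub, map_mul, map_one]; rfl)
    (by rw [hw]; simp only [map_sub, map_mul, map_one]; rfl)
  let ψ : ℂ →+* T.E := (φ.comp (τ : k₀ →+* k₀)).comp (e.symm : ℂ →+* k₀)
  have hψ : ∀ x, ψ (e x) = φ (τ x) := by
    intro x
    change φ (τ (e.symm (e x))) = _
    rw [RingEquiv.symm_apply_apply]
  have hψc : ∀ x, ψ (e (c₁ x)) = e₁ x := by
    intro x
    rw [hψ, ← hφc]
    congr 1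
    exact τ.commutes _
  have hset : (insert iε (insert iη ∅) : Set (Fin d)) = {iε, iη} := by simp
  rw [hset] at hφ
  refine ⟨ψ, fun a => hφ _, ?_, ?_, ?_, ?_, fun j => ⟨?_, ?_⟩⟩
  · change ψ (e ε) = _
    rw [hψ, ← hφε]
    congr 1
    exact τ.commutes _
  · change ψ (e (c₁ β)) = _
    rw [hψc, ← he₁X]
    simp only [β, map_sub, map_one]
    rfl
  · change T.O.valuation (ψ (e (w n)) - 1) < 1
    rw [hψ, hτn]
    exact hwv n
  · change T.O.valuation (ψ (e (w m)) + 1) < 1
    rw [hψ, hτm, map_neg, show -φ (w m) + 1 = -(φ (w m) - 1) by ring, Valuation.map_neg]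
    exact hwv m
  · change T.O.valuation (ψ (e (c₁ (A j)))) = 1
    rw [hψc]
    exact (hval j).1
  · change T.O.valuation (ψ (e (c₁ (B j)))) = 1
    rw [hψc]
    exact (hval j).2.1

end Pool.Agent.TH156
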