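import Pool.Agent.TH156.TsenC
import Pool.Agent.TH156.Conic

set_option autoImplicit false
set_option linter.unusedSectionVars false
set_option linter.unusedVariables false

open Polynomial

namespace Pool.Agent.TH156

section hv

variable {k : Type*} [Field k]

theorem hv_const (a c : k) : HasValue (algebraMap k (RatFunc k) c) a c := by
  refine ⟨C c, 1, by simp, ?_, by simp⟩
  rw [map_one, mul_one]
  rfl

theorem hv_add {f g : RatFunc k} {a c d : k} (hf : HasValue f a c) (hg : HasValue g a d) :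
    HasValue (f + g) a (c + d) := by
  obtain ⟨p, q, hq, h, h'⟩ := hf
  obtain ⟨p', q', hq', h1, h1'⟩ := hg
  refine ⟨p * q' + p' * q, q * q', by rw [eval_mul]; exact mul_ne_zero hq hq', ?_, ?_⟩
  · rw [map_mul, map_add, map_mul, map_mul, ← h, ← h1]
    ring
  · rw [eval_add, eval_mul, eval_mul, eval_mul, h', h1']
    ring

theorem hv_mul {f g : RatFunc k} {a c d : k} (hf : HasValue f a c) (hg : HasValue g a d) :
    HasValue (f * g) a (c * d) := by
  obtain ⟨p, q, hq, h, h'⟩ := hf
  obtain ⟨p', q', hq', h1, h1'⟩ := hg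
  refine ⟨p * p', q * q', by rw [eval_mul]; exact mul_ne_zero hq hq', ?_, ?_⟩
  · rw [map_mul, map_mul, ← h, ← h1]
    ring
  · rw [eval_mul, eval_mul, h', h1']
    ring

theorem hv_pow {f : RatFunc k} {a c : k} (hf : HasValue f a c) (n : ℕ) :
    HasValue (f ^ n) a (c ^ n) := by
  induction n with
  | zero =>
    rw [pow_zero, pow_zero]
    have := hv_const a (1 : k)
    rwa [map_one] at this
  | succ n ih =>
    rw [pow_succ, pow_succ]
    exact hv_mul ih hf

theorem hv_div (p q : k[X]) {a : k} (hq : q.eval a ≠ 0) {c : k} (h : p.eval a = c * q.eval a) :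
    HasValue (algebraMap k[X] (RatFunc k) p / algebraMap k[X] (RatFunc k) q) a c := by
  refine ⟨p, q, hq, ?_, h⟩
  rw [div_mul_cancel₀]
  intro h0
  have := IsFractionRing.injective k[X] (RatFunc k) (by rw [h0, map_zero] : _ = algebraMap k[X] (RatFunc k) 0)
  rw [this] at hq
  exact hq (by simp)

theorem hv_eval₂ {S : Type*} [CommRing S] (γ : S →+* RatFunc k) (P : S →+* k) {a : k}
    (h : ∀ x, HasValue (γ x) a (P x)) {r : RatFunc k} {r₀ : k} (hr : HasValue r a r₀) (p : S[X]) :
    HasValue (p.eval₂ γ r) a (p.eval₂ P r₀) := by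
  induction p using Polynomial.induction_on' with
  | add p q hp hq =>
    rw [eval₂_add, eval₂_add]
    exact hv_add hp hq
  | monomial n b =>
    rw [eval₂_monomial, eval₂_monomial]
    exact hv_mul (h b) (hv_pow hr n)

theorem hv_num {f : RatFunc k} {a c : k} (hf : HasValue f a c) :
    f.denom.eval a ≠ 0 ∧ f.num.eval a = c * f.denom.eval a := by
  obtain ⟨p, q, hq, h, h'⟩ := hf
  have h1 : f * algebraMap k[X] (RatFunc k) f.denom = algebraMap k[X] (RatFunc k) f.num := by
    have h2 : f = algebraMap k[X] (RatFunc k) f.num / algebraMap k[X] (RatFunc k) f.denom :=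
      (RatFunc.num_div_denom f).symm
    have h3 : algebraMap k[X] (RatFunc k) f.denom ≠ 0 := by
      intro h0
      have := IsFractionRing.injective k[X] (RatFunc k) (by rw [h0, map_zero] : _ = algebraMap k[X] (RatFunc k) 0)
      exact f.denom_ne_zero this
    rw [eq_div_iff h3] at h2
    exact h2
  have h2 : p * f.denom = f.num * q := by
    apply IsFractionRing.injective k[X] (RatFunc k)
    rw [map_mul, map_mul, ← h, ← h1]
    ring
  have h3 := congrArg (eval a) h2
  rw [eval_mul, eval_mul, h'] at h3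
  have hd : f.denom.eval a ≠ 0 := by
    intro h0
    rw [h0, mul_zero] at h3
    have h4 : f.num.eval a = 0 := by
      rcases mul_eq_zero.1 h3.symm with h4 | h4
      · exact h4
      · exact absurd h4 hq
    obtain ⟨u, v, huv⟩ := f.isCoprime_num_denom
    have h5 := congrArg (eval a) huv
    rw [eval_add, eval_mul, eval_mul, h4, h0, mul_zero, mul_zero, add_zero, eval_one] at h5
    exact zero_ne_one h5
  refine ⟨hd, ?_⟩
  apply mul_right_cancel₀ hq
  rw [← h3]
  ring

end hv

section conic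

variable {k : Type*} [Field k] [IsAlgClosed k] [CharZero k]

theorem conic_pts {α β : RatFunc k} {a₀ a₁ b₀ b₁ r₀ r₁ s₀ s₁ : k} (ha0 : HasValue α 0 a₀)
    (ha1 : HasValue α 1 a₁) (hb0 : HasValue β 0 b₀) (hb1 : HasValue β 1 b₁) (ha0' : a₀ ≠ 0)
    (ha1' : a₁ ≠ 0) (hb0' : b₀ ≠ 0) (hb1' : b₁ ≠ 0) (h0 : s₀ ^ 2 = a₀ * r₀ ^ 2 + b₀)
    (h1 : s₁ ^ 2 = a₁ * r₁ ^ 2 + b₁) : ∃ r s : RatFunc k, s ^ 2 = α * r ^ 2 + β ∧
      HasValue r 0 r₀ ∧ HasValue s 0 s₀ ∧ HasValue r 1 r₁ ∧ HasValue s 1 s₁ := by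
  obtain ⟨da0, na0⟩ := hv_num ha0
  obtain ⟨da1, na1⟩ := hv_num ha1
  obtain ⟨db0, nb0⟩ := hv_num hb0
  obtain ⟨db1, nb1⟩ := hv_num hb1
  obtain ⟨Y, R, Z, hsol, hZ0, hZ1, hY0, hR0, hY1, hR1⟩ := conic_poly
    (α.num * α.denom) (β.num * β.denom)
    (r₀ := r₀ * β.denom.eval 0 / α.denom.eval 0) (s₀ := s₀ * β.denom.eval 0)
    (r₁ := r₁ * β.denom.eval 1 / α.denom.eval 1) (s₁ := s₁ * β.denom.eval 1)
    (by rw [eval_mul, na0]; exact mul_ne_zero (mul_ne_zero ha0' da0) da0)
    (by rw [eval_mul, na1]; exact mul_ne_zero (mul_ne_zero ha1' da1) da1)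
    (by rw [eval_mul, nb0]; exact mul_ne_zero (mul_ne_zero hb0' db0) db0)
    (by rw [eval_mul, nb1]; exact mul_ne_zero (mul_ne_zero hb1' db1) db1)
    (by
      rw [eval_mul, eval_mul, na0, nb0]
      field_simp
      linear_combination h0)
    (by
      rw [eval_mul, eval_mul, na1, nb1]
      field_simp
      linear_combination h1)
  set j := algebraMap k[X] (RatFunc k) with hj
  have hjinj : Function.Injective j := IsFractionRing.injective k[X] (RatFunc k)
  have hj0 : ∀ {p : k[X]}, p ≠ 0 → j p ≠ 0 := fun hp h => hp (hjinj (by rw [h, map_zero]))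
  have hZ : Z ≠ 0 := by rintro rfl; exact hZ0 (by simp)
  have eα : α * j α.denom = j α.num := by
    have h2 : α = j α.num / j α.denom := (RatFunc.num_div_denom α).symm
    rwa [eq_div_iff (hj0 α.denom_ne_zero)] at h2
  have eβ : β * j β.denom = j β.num := by
    have h2 : β = j β.num / j β.denom := (RatFunc.num_div_denom β).symm
    rwa [eq_div_iff (hj0 β.denom_ne_zero)] at h2
  refine ⟨j (α.denom * R) / j (Z * β.denom), j Y / j (Z * β.denom), ?_, ?_, ?_, ?_, ?_⟩
  · have e := congrArg j hsol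
    simp only [map_mul, map_pow, map_add] at e ⊢
    have z0 := hj0 hZ
    have b0 := hj0 β.denom_ne_zero
    field_simp
    rw [e, ← eα, ← eβ]
    ring
  · apply hv_div
    · rw [eval_mul]; exact mul_ne_zero hZ0 db0
    · rw [eval_mul, eval_mul, hR0]
      field_simp
  · apply hv_div
    · rw [eval_mul]; exact mul_ne_zero hZ0 db0
    · rw [eval_mul, hY0]
      ring
  · apply hv_div
    · rw [eval_mul]; exact mul_ne_zero hZ1 db1
    · rw [eval_mul, eval_mul, hR1]
      field_simp
  · apply hv_div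
    · rw [eval_mul]; exact mul_ne_zero hZ1 db1
    · rw [eval_mul, hY1]
      ring

end conic

section rc

variable {k : Type*} [Field k]

theorem rc_base : RationallyConnected k k := by
  refine ⟨1, one_ne_zero, fun P Q _ _ => ⟨Algebra.ofId k (RatFunc k), fun f => ?_⟩⟩
  have hP : P f = f := P.commutes f
  have hQ : Q f = f := Q.commutes f
  rw [hP, hQ]
  exact ⟨hv_const 0 f, hv_const 1 f⟩

/-- Extension of a homomorphism of algebras to the polynomial ring. -/
noncomputable def extPoly {S T : Type*} [CommRing S] [Algebra k S] [CommRing T] [Algebra k T]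
    (f : S →ₐ[k] T) (t : T) : S[X] →ₐ[k] T where
  toRingHom := eval₂RingHom (f : S →+* T) t
  commutes' := by
    intro c
    change eval₂ (f : S →+* T) t (algebraMap k S[X] c) = _
    rw [show algebraMap k S[X] c = C (algebraMap k S c) from rfl, eval₂_C]
    exact f.commutes c

theorem rc_poly {S : Type*} [CommRing S] [Algebra k S] (h : RationallyConnected k S) :
    RationallyConnected k S[X] := by
  obtain ⟨d, hd, h⟩ := h
  refine ⟨C d, C_ne_zero.2 hd, fun P Q hP hQ => ?_⟩
  obtain ⟨γ, hγ⟩ := h (P.comp CAlgHom) (Q.comp CAlgHom) hP hQ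
  set t : RatFunc k := algebraMap k[X] (RatFunc k) (C (P X) * (1 - X) + C (Q X) * X) with ht
  have ht0 : HasValue t 0 (P X) := by
    refine ⟨C (P X) * (1 - X) + C (Q X) * X, 1, by simp, by rw [map_one, mul_one], by simp⟩
  have ht1 : HasValue t 1 (Q X) := by
    refine ⟨C (P X) * (1 - X) + C (Q X) * X, 1, by simp, by rw [map_one, mul_one], by simp⟩
  refine ⟨extPoly γ t, fun f => ⟨?_, ?_⟩⟩
  · have h1 := hv_eval₂ (γ : S →+* RatFunc k) ((P.comp CAlgHom : S →ₐ[k] k) : S →+* k)
      (fun x => (hγ x).1) ht0 f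
    have h2 : f.eval₂ ((P.comp CAlgHom : S →ₐ[k] k) : S →+* k) (P X) = P f := by
      have := Polynomial.hom_eval₂ f (C : S →+* S[X]) (P : S[X] →+* k) X
      rw [eval₂_C_X] at this
      exact this.symm
    rw [h2] at h1
    exact h1
  · have h1 := hv_eval₂ (γ : S →+* RatFunc k) ((Q.comp CAlgHom : S →ₐ[k] k) : S →+* k)
      (fun x => (hγ x).2) ht1 f
    have h2 : f.eval₂ ((Q.comp CAlgHom : S →ₐ[k] k) : S →+* k) (Q X) = Q f := by
      have := Polynomial.hom_eval₂ f (C : S →+* S[X]) (Q : S[X] →+* k) X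
      rw [eval₂_C_X] at this
      exact this.symm
    rw [h2] at h1
    exact h1

/-- The inclusion of the base ring in the conic bundle. -/
noncomputable def Con.incl (k : Type*) [Field k] {S : Type*} [CommRing S] [Algebra k S] (α β : S) :
    S →ₐ[k] Con S α β :=
  (Algebra.ofId S[X] (Con S α β) |>.restrictScalars k |>.comp (CAlgHom (R := k) (A := S)))

theorem Con.hom_eq {S : Type*} [CommRing S] [Algebra k S] {α β : S} {T : Type*} [CommRing T]
    (φ : Con S α β →+* T) (z : Con S α β) :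
    φ z = z.re.eval₂ (φ.comp (Con.incl k α β : S →+* Con S α β)) (φ ⟨X, 0⟩) +
      z.im.eval₂ (φ.comp (Con.incl k α β : S →+* Con S α β)) (φ ⟨X, 0⟩) * φ ⟨0, 1⟩ := by
  have h1 : ∀ p : S[X], φ ⟨p, 0⟩ = p.eval₂ (φ.comp (Con.incl k α β : S →+* Con S α β)) (φ ⟨X, 0⟩) := by
    intro p
    have := Polynomial.hom_eval₂ p (C : S →+* S[X]) (φ.comp (algebraMap S[X] (Con S α β))) X
    rw [eval₂_C_X] at this
    exact this
  have h2 : z = (⟨z.re, 0⟩ : Con S α β) + (⟨z.im, 0⟩ : Con S α β) * ⟨0, 1⟩ := by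
    rw [QuadraticAlgebra.mk_mul_mk]
    apply QuadraticAlgebra.ext
    · rw [QuadraticAlgebra.re_add]
      ring
    · rw [QuadraticAlgebra.im_add]
      ring
  conv_lhs => rw [h2]
  rw [map_add, map_mul, h1 z.re, h1 z.im]

theorem Con.rel (k : Type*) [Field k] {S : Type*} [CommRing S] [Algebra k S] (α β : S) :
    (⟨0, 1⟩ : Con S α β) ^ 2 = Con.incl k α β α * ⟨X, 0⟩ ^ 2 + Con.incl k α β β :=
  quad_rel (C α) (C β) X

theorem rc_con {k : Type*} [Field k] [IsAlgClosed k] [CharZero k] {S : Type*} [CommRing S]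
    [IsDomain S] [Algebra k S]
    (h : RationallyConnected k S) {α β : S} (hα : α ≠ 0) (hβ : β ≠ 0) :
    RationallyConnected k (Con S α β) := by
  obtain ⟨d, hd, h⟩ := h
  have hinj : Function.Injective (Con.incl k α β) := by
    intro x y hxy
    have h1 : (algebraMap S[X] (Con S α β)) (C x) = (algebraMap S[X] (Con S α β)) (C y) := hxy
    exact C_injective (QuadraticAlgebra.algebraMap_injective h1)
  refine ⟨Con.incl k α β (d * α * β), ?_, fun P Q hP hQ => ?_⟩
  · intro h0
    have := hinj (h0.trans (map_zero _).symm)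
    exact mul_ne_zero (mul_ne_zero hd hα) hβ this
  rw [map_mul, map_mul, map_mul, map_mul] at hP hQ
  have hPd := left_ne_zero_of_mul (left_ne_zero_of_mul hP)
  have hPα := right_ne_zero_of_mul (left_ne_zero_of_mul hP)
  have hPβ := right_ne_zero_of_mul hP
  have hQd := left_ne_zero_of_mul (left_ne_zero_of_mul hQ)
  have hQα := right_ne_zero_of_mul (left_ne_zero_of_mul hQ)
  have hQβ := right_ne_zero_of_mul hQ
  obtain ⟨γ, hγ⟩ := h (P.comp (Con.incl k α β)) (Q.comp (Con.incl k α β)) hPd hQd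
  have hPr : (P ⟨0, 1⟩) ^ 2 = P (Con.incl k α β α) * (P ⟨X, 0⟩) ^ 2 + P (Con.incl k α β β) := by
    rw [← map_pow, ← map_pow, ← map_mul, ← map_add, Con.rel k α β]
  have hQr : (Q ⟨0, 1⟩) ^ 2 = Q (Con.incl k α β α) * (Q ⟨X, 0⟩) ^ 2 + Q (Con.incl k α β β) := by
    rw [← map_pow, ← map_pow, ← map_mul, ← map_add, Con.rel k α β]
  obtain ⟨r, s, hrs, hr0, hs0, hr1, hs1⟩ := conic_pts (hγ α).1 (hγ α).2 (hγ β).1 (hγ β).2 hPα hQα
    hPβ hQβ hPr hQr
  have hrs' : s ^ 2 = (γ : S →+* RatFunc k) α * r ^ 2 + (γ : S →+* RatFunc k) β := hrs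
  refine ⟨{ Con.lift (γ : S →+* RatFunc k) r s hrs' with
    commutes' := ?_ }, fun f => ⟨?_, ?_⟩⟩
  · intro c
    have h1 := Con.lift_C (γ : S →+* RatFunc k) r s hrs' (algebraMap k S c)
    have h2 : (γ : S →+* RatFunc k) (algebraMap k S c) = algebraMap k (RatFunc k) c := γ.commutes c
    rw [h2] at h1
    exact h1
  · have h1 := Con.hom_eq (k := k) (P : Con S α β →+* k) f
    have h2 : (P : Con S α β →+* k) f = P f := rfl
    rw [← h2, h1]
    change HasValue (Con.lift (γ : S →+* RatFunc k) r s hrs' f) _ _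
    rw [Con.lift_apply]
    exact hv_add (hv_eval₂ (γ : S →+* RatFunc k) _ (fun x => (hγ x).1) hr0 _)
      (hv_mul (hv_eval₂ (γ : S →+* RatFunc k) _ (fun x => (hγ x).1) hr0 _) hs0)
  · have h1 := Con.hom_eq (k := k) (Q : Con S α β →+* k) f
    have h2 : (Q : Con S α β →+* k) f = Q f := rfl
    rw [← h2, h1]
    change HasValue (Con.lift (γ : S →+* RatFunc k) r s hrs' f) _ _
    rw [Con.lift_apply]
    exact hv_add (hv_eval₂ (γ : S →+* RatFunc k) _ (fun x => (hγ x).2) hr1 _)
      (hv_mul (hv_eval₂ (γ : S →+* RatFunc k) _ (fun x => (hγ x).2) hr1 _) hs1)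

end rc

section ft

variable {k : Type*} [Field k]

theorem ft_poly {S : Type*} [CommRing S] [Algebra k S] (h : Algebra.FiniteType k S) :
    Algebra.FiniteType k S[X] := h.trans (inferInstance : Algebra.FiniteType S S[X])

theorem ft_con {S : Type*} [CommRing S] [Algebra k S] (h : Algebra.FiniteType k S) (α β : S) :
    Algebra.FiniteType k (Con S α β) :=
  (ft_poly h).trans (inferInstance : Algebra.FiniteType S[X] (Con S α β))

end ft

end Pool.Agent.TH156
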