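import Pool.Agent.TH156.RC
import Pool.Agent.TH156.Param2

set_option autoImplicit false
set_option linter.unusedSectionVars false
set_option linter.unusedVariables false

open Polynomial

namespace Pool.Agent.TH156

section maps

variable {k S R : Type*} [Field k] [CommRing S] [CommRing R] (p : Params k) (i : k →+* S)
  (g : S →+* R)

theorem Params.map_P (u x : S) : g (p.P i u x) = p.P (g.comp i) (g u) (g x) := by
  simp only [Params.P, map_mul, map_add, map_pow, map_sub, map_one, RingHom.comp_apply]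

theorem Params.map_Q (y : S) : g (p.Q i y) = p.Q (g.comp i) (g y) := by
  have e4 : g 4 = 4 := map_ofNat g 4
  simp only [Params.Q, map_mul, map_add, map_pow, map_sub, map_one, RingHom.comp_apply, e4]

theorem Params.map_E (x N : S) : g (p.E i x N) = p.E (g.comp i) (g x) (g N) := by
  simp only [Params.E, map_mul, map_add, map_pow, map_sub, map_one, RingHom.comp_apply]

end maps

/-- A finitely generated rationally connected domain over the complex numbers. -/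
structure Good (S : Type) [CommRing S] [Algebra ℂ S] : Prop where
  dom : IsDomain S
  ft : Algebra.FiniteType ℂ S
  rc : RationallyConnected ℂ S

theorem good_two {S : Type} [CommRing S] [Algebra ℂ S] (h : Good S) : (2 : S) ≠ 0 := by
  have := h.dom
  have h1 := (algebraMap ℂ S).injective.ne (two_ne_zero (α := ℂ))
  rwa [map_zero, map_ofNat] at h1

theorem poly_step (S : Type) [CommRing S] [Algebra ℂ S] (h : Good S) :
    ∃ (R : Type) (_ : CommRing R) (_ : Algebra ℂ R), Good R ∧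
      ∃ (i : S →ₐ[ℂ] R) (t : R), PolyExt ℂ S R i t := by
  have := h.dom
  exact ⟨S[X], inferInstance, inferInstance, ⟨inferInstance, ft_poly h.ft, rc_poly h.rc⟩,
    _, _, polyExt ℂ S⟩

theorem conic_step (S : Type) [CommRing S] [Algebra ℂ S] (h : Good S) {α β : S} (hα : α ≠ 0)
    (hβ : β ≠ 0) :
    ∃ (R : Type) (_ : CommRing R) (_ : Algebra ℂ R), Good R ∧
      ∃ (i : S →ₐ[ℂ] R) (r s : R), ConicExt ℂ S R α β i r s := by
  have := h.dom
  exact ⟨Con S α β, inferInstance, inferInstance,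
    ⟨Con.isDomain (good_two h) hα hβ, ft_con h.ft α β, rc_con h.rc hα hβ⟩,
    _, _, _, conicExt ℂ S (good_two h) hα hβ⟩

theorem good_base : Good ℂ := ⟨inferInstance, inferInstance, rc_base⟩

section ne

variable {S R : Type} [CommRing S] [CommRing R] [Algebra ℂ S] [Algebra ℂ R] {i : S →ₐ[ℂ] R} {t : R}

theorem PolyExt.inj (h : PolyExt ℂ S R i t) : Function.Injective i := by
  rw [injective_iff_map_eq_zero]
  intro a ha
  have := h.tr (C a) (by rw [eval₂_C]; exact ha)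
  exact C_eq_zero.1 this

theorem PolyExt.ne (h : PolyExt ℂ S R i t) [Nontrivial S] (a : S) : t ≠ i a := by
  intro ha
  have h1 := h.tr (X - C a) (by
    rw [eval₂_sub, eval₂_X, eval₂_C, ha]
    exact sub_self _)
  exact X_sub_C_ne_zero a h1

end ne

theorem exists_ring (p : Params ℂ) : ∃ (R : Type) (_ : CommRing R) (_ : Algebra ℂ R), Good R ∧
    ∃ u x y N r s r' s' r'' s'' : R,
      s ^ 2 = N * r ^ 2 + p.P (algebraMap ℂ R) u x ∧
      s' ^ 2 = N * r' ^ 2 + p.Q (algebraMap ℂ R) y ∧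
      s'' ^ 2 = N * r'' ^ 2 + p.E (algebraMap ℂ R) x N ∧
      p.P (algebraMap ℂ R) u x ≠ 0 ∧ p.Q (algebraMap ℂ R) y ≠ 0 ∧ p.E (algebraMap ℂ R) x N ≠ 0 ∧
      ∀ {d : ℕ} (T : Tower d) (I : ℕ → Set (Fin d)), Monotone I → ∀ (ψ : ℂ →+* T.E),
        (∀ a, ψ a ∈ T.Fix (I 0)) →
        ∀ u₀ x₀ y₀ N₀ r₀ s₀ r₁ s₁ r₂ s₂ : T.E, u₀ ∉ T.Fix (I 0) → u₀ ∈ T.Fix (I 1) →
          x₀ ∉ T.Fix (I 1) → x₀ ∈ T.Fix (I 2) → y₀ ∉ T.Fix (I 2) → y₀ ∈ T.Fix (I 3) →
          N₀ ∉ T.Fix (I 3) → N₀ ∈ T.Fix (I 4) → r₀ ∉ T.Fix (I 4) → r₀ ∈ T.Fix (I 5) →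
          r₁ ∉ T.Fix (I 5) → r₁ ∈ T.Fix (I 6) → r₂ ∉ T.Fix (I 6) →
          s₀ ^ 2 = N₀ * r₀ ^ 2 + p.P ψ u₀ x₀ →
          s₁ ^ 2 = N₀ * r₁ ^ 2 + p.Q ψ y₀ →
          s₂ ^ 2 = N₀ * r₂ ^ 2 + p.E ψ x₀ N₀ →
          ∃ g : R →+* T.E, Function.Injective g ∧ (∀ a, g (algebraMap ℂ R a) = ψ a) ∧
            g u = u₀ ∧ g x = x₀ ∧ g y = y₀ ∧ g N = N₀ ∧ g r = r₀ ∧ g s = s₀ ∧ g r' = r₁ ∧
            g s' = s₁ ∧ g r'' = r₂ ∧ g s'' = s₂ ∧
            ∀ F : Subfield T.E, (∀ a, ψ a ∈ F) → u₀ ∈ F → x₀ ∈ F → y₀ ∈ F → N₀ ∈ F → r₀ ∈ F →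
              s₀ ∈ F → r₁ ∈ F → s₁ ∈ F → r₂ ∈ F → s₂ ∈ F → ∀ a, g a ∈ F := by
  obtain ⟨S1, _, _, h1, i1, u, hu⟩ := poly_step ℂ good_base
  obtain ⟨S2, _, _, h2, i2, x, hx⟩ := poly_step S1 h1
  obtain ⟨S3, _, _, h3, i3, y, hy⟩ := poly_step S2 h2
  obtain ⟨S4, _, _, h4, i4, N, hN⟩ := poly_step S3 h3
  have d1 := h1.dom
  have d2 := h2.dom
  have d3 := h3.dom
  have d4 := h4.dom
  have hN0 : N ≠ 0 := by rw [← map_zero i4]; exact hN.ne 0
  have hP0 : p.P (algebraMap ℂ S4) (i4 (i3 (i2 u))) (i4 (i3 x)) ≠ 0 := by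
    have e : p.P (algebraMap ℂ S4) (i4 (i3 (i2 u))) (i4 (i3 x)) =
        i4 (i3 (p.P (algebraMap ℂ S2) (i2 u) x)) := by
      simp only [Params.P, map_mul, map_add, map_pow, map_sub, map_one, AlgHom.commutes]
    rw [e, Ne, map_eq_zero_iff _ hN.inj, map_eq_zero_iff _ hy.inj]
    unfold Params.P
    refine mul_ne_zero (mul_ne_zero ?_ ?_) ?_
    · rw [← map_zero i2]; exact hx.ne 0
    · intro h
      apply hx.ne (-(1 - u ^ 2) ^ 2)
      rw [map_neg, map_pow, map_sub, map_one, map_pow]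
      exact eq_neg_of_add_eq_zero_left h
    · intro h
      apply hx.ne (-(algebraMap ℂ S1 p.ε) ^ 2)
      rw [map_neg, map_pow, AlgHom.commutes]
      exact eq_neg_of_add_eq_zero_left h
  obtain ⟨S5, _, _, h5, i5, r, s, hr⟩ := conic_step S4 h4 hN0 hP0
  have d5 := h5.dom
  have hN05 : i5 N ≠ 0 := by rw [Ne, map_eq_zero_iff _ hr.inj]; exact hN0
  have hQ0 : p.Q (algebraMap ℂ S5) (i5 (i4 y)) ≠ 0 := by
    have e : p.Q (algebraMap ℂ S5) (i5 (i4 y)) = i5 (i4 (p.Q (algebraMap ℂ S3) y)) := by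
      have e4 : i5 (i4 4) = 4 := by rw [map_ofNat, map_ofNat]
      simp only [Params.Q, map_mul, map_add, map_pow, map_sub, map_one, AlgHom.commutes, e4]
    rw [e, Ne, map_eq_zero_iff _ hr.inj, map_eq_zero_iff _ hN.inj]
    have e2 : p.Q (algebraMap ℂ S3) y = y * ((y - i3 (algebraMap ℂ S2 ((1 + p.β) ^ 2))) *
        (y - i3 (algebraMap ℂ S2 ((1 - p.β) ^ 2)))) := by
      simp only [Params.Q, AlgHom.commutes, map_pow, map_add, map_sub, map_one]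
      ring
    rw [e2]
    refine mul_ne_zero ?_ (mul_ne_zero ?_ ?_)
    · rw [← map_zero i3]; exact hy.ne 0
    · exact sub_ne_zero.2 (hy.ne _)
    · exact sub_ne_zero.2 (hy.ne _)
  obtain ⟨S6, _, _, h6, i6, r', s', hr'⟩ := conic_step S5 h5 hN05 hQ0
  have d6 := h6.dom
  have hN06 : i6 (i5 N) ≠ 0 := by rw [Ne, map_eq_zero_iff _ hr'.inj]; exact hN05
  have hE0 : p.E (algebraMap ℂ S6) (i6 (i5 (i4 (i3 x)))) (i6 (i5 N)) ≠ 0 := by
    have e : p.E (algebraMap ℂ S6) (i6 (i5 (i4 (i3 x)))) (i6 (i5 N)) =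
        i6 (i5 (p.E (algebraMap ℂ S4) (i4 (i3 x)) N)) := by
      simp only [Params.E, map_mul, map_add, map_pow, map_one, AlgHom.commutes]
    rw [e, Ne, map_eq_zero_iff _ hr'.inj, map_eq_zero_iff _ hr.inj]
    intro h
    have h7 := hN.tr (C (i3 x) * (1 + X) ^ 2 + C (algebraMap ℂ S3 p.c) * X) (by
      rw [← h]
      simp only [eval₂_add, eval₂_mul, eval₂_C, eval₂_pow, eval₂_one, eval₂_X, Params.E]
      have e8 : (i4 : S3 →+* S4) (algebraMap ℂ S3 p.c) = algebraMap ℂ S4 p.c := i4.commutes _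
      rw [e8]
      rfl)
    have h8 := congrArg (Polynomial.eval 0) h7
    simp only [eval_add, eval_mul, eval_C, eval_pow, eval_one, eval_X, mul_zero, add_zero,
      one_pow, mul_one, eval_zero] at h8
    rw [map_eq_zero_iff _ hy.inj] at h8
    rw [← map_zero i2] at h8
    exact hx.ne 0 h8
  obtain ⟨S7, _, _, h7, i7, r'', s'', hr''⟩ := conic_step S6 h6 hN06 hE0
  refine ⟨S7, inferInstance, inferInstance, h7, i7 (i6 (i5 (i4 (i3 (i2 u))))),
    i7 (i6 (i5 (i4 (i3 x)))), i7 (i6 (i5 (i4 y))), i7 (i6 (i5 N)), i7 (i6 r), i7 (i6 s), i7 r',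
    i7 s', r'', s'', ?_, ?_, ?_, ?_, ?_, ?_, ?_⟩
  · rw [← map_pow, ← map_pow, hr.rel]
    simp only [Params.P, map_mul, map_add, map_pow, map_sub, map_one, AlgHom.commutes]
  · rw [← map_pow, hr'.rel]
    have e4' : i7 4 = 4 := by rw [map_ofNat]
    have e4'' : i6 4 = 4 := by rw [map_ofNat]
    simp only [Params.Q, map_mul, map_add, map_pow, map_sub, map_one, AlgHom.commutes, e4', e4'']
  · rw [hr''.rel]
    simp only [Params.E, map_mul, map_add, map_pow, map_one, AlgHom.commutes]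
  · have e : p.P (algebraMap ℂ S7) (i7 (i6 (i5 (i4 (i3 (i2 u)))))) (i7 (i6 (i5 (i4 (i3 x))))) =
        i7 (i6 (i5 (p.P (algebraMap ℂ S4) (i4 (i3 (i2 u))) (i4 (i3 x))))) := by
      simp only [Params.P, map_mul, map_add, map_pow, map_sub, map_one, AlgHom.commutes]
    rw [e, Ne, map_eq_zero_iff _ hr''.inj, map_eq_zero_iff _ hr'.inj, map_eq_zero_iff _ hr.inj]
    exact hP0
  · have e : p.Q (algebraMap ℂ S7) (i7 (i6 (i5 (i4 y)))) =
        i7 (i6 (p.Q (algebraMap ℂ S5) (i5 (i4 y)))) := by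
      have e4' : i7 4 = 4 := by rw [map_ofNat]
      have e4'' : i6 4 = 4 := by rw [map_ofNat]
      simp only [Params.Q, map_mul, map_add, map_pow, map_sub, map_one, AlgHom.commutes, e4', e4'']
    rw [e, Ne, map_eq_zero_iff _ hr''.inj, map_eq_zero_iff _ hr'.inj]
    exact hQ0
  · have e : p.E (algebraMap ℂ S7) (i7 (i6 (i5 (i4 (i3 x))))) (i7 (i6 (i5 N))) =
        i7 (p.E (algebraMap ℂ S6) (i6 (i5 (i4 (i3 x)))) (i6 (i5 N))) := by
      simp only [Params.E, map_mul, map_add, map_pow, map_one, AlgHom.commutes]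
    rw [e, Ne, map_eq_zero_iff _ hr''.inj]
    exact hE0
  · intro d T I hI ψ hψ u₀ x₀ y₀ N₀ r₀ s₀ r₁ s₁ r₂ s₂ hu0 hu0' hx0 hx0' hy0 hy0' hN0 hN0' hr0 hr0'
      hr1 hr1' hr2 e1 e2 e3
    have hsub : ∀ {a b : ℕ}, a ≤ b → T.Fix (I a) ≤ T.Fix (I b) := fun hab => T.Fix_mono (hI hab)
    obtain ⟨g1, gi1, gc1, gu, gF1⟩ := hu.univ T.E ψ u₀ ψ.injective
      (fun q hq => T.Fix_eval₂ ψ ψ.injective hψ hu0 q hq)
    have m1 : ∀ a, g1 a ∈ T.Fix (I 1) := gF1 _ (fun a => hsub (by omega) (hψ a)) hu0'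
    obtain ⟨g2, gi2, gc2, gx, gF2⟩ := hx.univ T.E g1 x₀ gi1
      (fun q hq => T.Fix_eval₂ g1 gi1 m1 hx0 q hq)
    have m2 : ∀ a, g2 a ∈ T.Fix (I 2) := gF2 _ (fun a => hsub (by omega) (m1 a)) hx0'
    obtain ⟨g3, gi3, gc3, gy, gF3⟩ := hy.univ T.E g2 y₀ gi2
      (fun q hq => T.Fix_eval₂ g2 gi2 m2 hy0 q hq)
    have m3 : ∀ a, g3 a ∈ T.Fix (I 3) := gF3 _ (fun a => hsub (by omega) (m2 a)) hy0'
    obtain ⟨g4, gi4, gc4, gN, gF4⟩ := hN.univ T.E g3 N₀ gi3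
      (fun q hq => T.Fix_eval₂ g3 gi3 m3 hN0 q hq)
    have m4 : ∀ a, g4 a ∈ T.Fix (I 4) := gF4 _ (fun a => hsub (by omega) (m3 a)) hN0'
    have a1 : ∀ a, g1 (algebraMap ℂ S1 a) = ψ a := fun a => by
      have := gc1 a
      rwa [show i1 a = algebraMap ℂ S1 a from i1.commutes a] at this
    have a2 : ∀ a, g2 (algebraMap ℂ S2 a) = ψ a := fun a => by
      rw [← i2.commutes, gc2, a1]
    have a3 : ∀ a, g3 (algebraMap ℂ S3 a) = ψ a := fun a => by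
      rw [← i3.commutes, gc3, a2]
    have a4 : ∀ a, g4 (algebraMap ℂ S4 a) = ψ a := fun a => by
      rw [← i4.commutes, gc4, a3]
    have c4 : g4.comp (algebraMap ℂ S4) = ψ := RingHom.ext a4
    obtain ⟨g5, gi5, gc5, gr, gs, gF5⟩ := hr.univ T.E g4 r₀ s₀ gi4
      (by rw [Params.map_P, c4]; simp only [gc4, gc3, gc2, gu, gx, gN]; exact e1)
      (fun q hq => T.Fix_eval₂ g4 gi4 m4 hr0 q hq)
    have a5 : ∀ a, g5 (algebraMap ℂ S5 a) = ψ a := fun a => by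
      rw [← i5.commutes, gc5, a4]
    have c5 : g5.comp (algebraMap ℂ S5) = ψ := RingHom.ext a5
    have hP5 : p.P ψ u₀ x₀ ∈ T.Fix (I 5) := by
      have := m4 (p.P (algebraMap ℂ S4) (i4 (i3 (i2 u))) (i4 (i3 x)))
      rw [Params.map_P, c4, gc4, gc3, gc2, gu, gc4, gc3, gx] at this
      exact hsub (by omega) this
    have hs0' : s₀ ∈ T.Fix (I 5) := by
      apply T.Fix_sqrt
      rw [e1]
      exact add_mem (mul_mem (hsub (by omega) hN0') (pow_mem hr0' 2)) hP5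
    have m5 : ∀ a, g5 a ∈ T.Fix (I 5) := gF5 _ (fun a => hsub (by omega) (m4 a)) hr0' hs0'
    obtain ⟨g6, gi6, gc6, gr', gs', gF6⟩ := hr'.univ T.E g5 r₁ s₁ gi5
      (by rw [Params.map_Q, c5]; simp only [gc5, gc4, gy, gN]; exact e2)
      (fun q hq => T.Fix_eval₂ g5 gi5 m5 hr1 q hq)
    have a6 : ∀ a, g6 (algebraMap ℂ S6 a) = ψ a := fun a => by
      rw [← i6.commutes, gc6, a5]
    have c6 : g6.comp (algebraMap ℂ S6) = ψ := RingHom.ext a6
    have hQ6 : p.Q ψ y₀ ∈ T.Fix (I 6) := by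
      have := m5 (p.Q (algebraMap ℂ S5) (i5 (i4 y)))
      rw [Params.map_Q, c5, gc5, gc4, gy] at this
      exact hsub (by omega) this
    have hs1' : s₁ ∈ T.Fix (I 6) := by
      apply T.Fix_sqrt
      rw [e2]
      exact add_mem (mul_mem (hsub (by omega) hN0') (pow_mem hr1' 2)) hQ6
    have m6 : ∀ a, g6 a ∈ T.Fix (I 6) := gF6 _ (fun a => hsub (by omega) (m5 a)) hr1' hs1'
    obtain ⟨g7, gi7, gc7, gr'', gs'', gF7⟩ := hr''.univ T.E g6 r₂ s₂ gi6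
      (by rw [Params.map_E, c6]; simp only [gc6, gc5, gc4, gc3, gx, gN]; exact e3)
      (fun q hq => T.Fix_eval₂ g6 gi6 m6 hr2 q hq)
    have a7 : ∀ a, g7 (algebraMap ℂ S7 a) = ψ a := fun a => by
      rw [← i7.commutes, gc7, a6]
    refine ⟨g7, gi7, a7, ?_, ?_, ?_, ?_, ?_, ?_, ?_, ?_, gr'', gs'', ?_⟩
    · rw [gc7, gc6, gc5, gc4, gc3, gc2, gu]
    · rw [gc7, gc6, gc5, gc4, gc3, gx]
    · rw [gc7, gc6, gc5, gc4, gy]
    · rw [gc7, gc6, gc5, gN]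
    · rw [gc7, gc6, gr]
    · rw [gc7, gc6, gs]
    · rw [gc7, gr']
    · rw [gc7, gs']
    · intro F hF f1 f2 f3 f4 f5 f6 f7 f8 f9 f10
      exact gF7 F (gF6 F (gF5 F (gF4 F (gF3 F (gF2 F (gF1 F hF f1) f2) f3) f4) f5 f6) f7 f8) f9 f10

end Pool.Agent.TH156
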