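import Pool.Agent.TH156.Comm
import Pool.Agent.Helper165.P1.Fields

set_option autoImplicit false
set_option linter.unusedSectionVars false
set_option linter.unusedVariables false

open Pool.Agent.Helper165.P1

namespace Pool.Agent.TH156

/-- A large algebraically closed field with `n` commuting one-parameter groups of rotations. -/
structure Tower (n : ℕ) where
  /-- the field -/
  E : Type
  [fld : Field E]
  [cz : CharZero E]
  [ac : IsAlgClosed E]
  /-- the constants -/
  cst : ℂ →+* E
  /-- the rotations -/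
  act : (Fin n → ℂ) → (E ≃+* E)
  act_add : ∀ s t x, act (s + t) x = act s (act t x)
  act_zero : ∀ x, act 0 x = x
  /-- the variables -/
  z : Fin n → E
  z_ne : ∀ i, z i ≠ 0
  act_cst : ∀ t c, act t (cst c) = cst c
  act_z : ∀ t i, act t (z i) = cst (Complex.exp (t i)) * z i
  /-- the valuation ring -/
  O : ValuationSubring E
  act_O : ∀ t x, x ∈ O → act t x ∈ O
  cst_O : ∀ c, cst c ∈ O
  small : ∀ i x, (∀ t : Fin n → ℂ, (∀ j, j < i → t j = 0) → act t x = x) →
    O.valuation (x * z i) < 1

attribute [instance] Tower.fld Tower.cz Tower.ac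

theorem vlt {Ω : Type*} [Field Ω] (B : ValuationSubring Ω) {y : Ω} (hy : y ≠ 0) :
    B.valuation y < 1 ↔ y⁻¹ ∉ B := by
  rw [← B.valuation_le_one_iff, not_le, map_inv₀]
  rw [one_lt_inv₀ (zero_lt_iff.2 ((B.valuation).ne_zero_iff.2 hy))]

theorem cC {Γ E : Type*} [AddCommMonoid Γ] [PartialOrder Γ] [IsOrderedCancelAddMonoid Γ] [Field E]
    (e : E) (q : Γ) [Decidable (q = 0)] :
    (HahnSeries.C e : HahnSeries Γ E).coeff q = if q = 0 then e else 0 := by
  split_ifs with h
  · subst h; simp
  · rw [HahnSeries.C_apply, HahnSeries.coeff_single_of_ne h]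

theorem cCmul {Γ E : Type*} [AddCommMonoid Γ] [PartialOrder Γ] [IsOrderedCancelAddMonoid Γ]
    [Field E] (e : E) (x : HahnSeries Γ E) (q : Γ) :
    (HahnSeries.C e * x).coeff q = e * x.coeff q := by
  rw [HahnSeries.C_mul_eq_smul, HahnSeries.coeff_smul, smul_eq_mul]

section step

variable {E : Type} [Field E]

theorem C_mem (e : E) : HahnSeries.C e ∈ Pui E := by
  refine ⟨1, one_pos, HahnSeries.C e, ?_⟩
  ext q
  by_cases h : ∃ n : ℤ, (n : ℚ) / (1 : ℕ) = q
  · obtain ⟨n, rfl⟩ := h
    rw [eHom_coeff, cC, cC]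
    by_cases hn : n = 0
    · subst hn; simp
    · have : ((n : ℚ) / (1 : ℕ)) ≠ 0 := by simpa using hn
      rw [if_neg hn, if_neg this]
  · push Not at h
    rw [eHom_coeff_of_ne 1 one_pos _ q h, cC, if_neg]
    rintro rfl
    exact h 0 (by simp)

theorem T_mem : (HahnSeries.single (1 : ℚ) (1 : E)) ∈ Pui E := by
  refine ⟨1, one_pos, HahnSeries.single 1 1, ?_⟩
  ext q
  by_cases h : ∃ n : ℤ, (n : ℚ) / (1 : ℕ) = q
  · obtain ⟨n, rfl⟩ := h
    rw [eHom_coeff]
    by_cases hn : n = 1
    · subst hn; simp
    · have : ((n : ℚ) / (1 : ℕ)) ≠ 1 := by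
        intro h
        apply hn
        have h2 : (n : ℚ) = 1 := by simpa using h
        exact_mod_cast h2
      rw [HahnSeries.coeff_single_of_ne hn, HahnSeries.coeff_single_of_ne this]
  · push Not at h
    rw [eHom_coeff_of_ne 1 one_pos _ q h, HahnSeries.coeff_single_of_ne]
    rintro rfl
    exact h 1 (by simp)

/-- The constants. -/
noncomputable def CP : E →+* Pui E := (HahnSeries.C).codRestrict (Pui E) C_mem

theorem CP_coe (e : E) : ((CP e : Pui E) : HQ E) = HahnSeries.C e := rfl

theorem CP_coeff_zero (e : E) : ((CP e : Pui E) : HQ E).coeff 0 = e := by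
  rw [CP_coe, cC, if_pos rfl]

theorem CP_coeff_ne (e : E) {q : ℚ} (hq : q ≠ 0) : ((CP e : Pui E) : HQ E).coeff q = 0 := by
  rw [CP_coe, cC, if_neg hq]

variable (E) in
/-- The variable. -/
noncomputable def TP : Pui E := ⟨HahnSeries.single (1 : ℚ) (1 : E), T_mem⟩

theorem TP_coe : ((TP E : Pui E) : HQ E) = HahnSeries.single (1 : ℚ) (1 : E) := rfl

/-- The composite valuation ring. -/
noncomputable def OP (O : ValuationSubring E) : ValuationSubring (Pui E) where
  carrier := {x | (x : HQ E) ∈ (OH : Subring (HQ E)) ∧ (x : HQ E).coeff 0 ∈ O}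
  mul_mem' := by
    rintro x y ⟨hx, hx'⟩ ⟨hy, hy'⟩
    refine ⟨mul_mem hx hy, ?_⟩
    change ((x : HQ E) * (y : HQ E)).coeff 0 ∈ O
    rw [coeff_zero_mul hx hy]
    exact mul_mem hx' hy'
  one_mem' := by
    refine ⟨one_mem _, ?_⟩
    change (1 : HQ E).coeff 0 ∈ O
    rw [HahnSeries.coeff_one, if_pos rfl]
    exact one_mem _
  add_mem' := by
    rintro x y ⟨hx, hx'⟩ ⟨hy, hy'⟩
    refine ⟨add_mem hx hy, ?_⟩
    change ((x : HQ E) + (y : HQ E)).coeff 0 ∈ O
    rw [HahnSeries.coeff_add]
    exact add_mem hx' hy'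
  zero_mem' := ⟨zero_mem _, by change (0 : HQ E).coeff 0 ∈ O; rw [HahnSeries.coeff_zero]; exact zero_mem _⟩
  neg_mem' := by
    rintro x ⟨hx, hx'⟩
    refine ⟨neg_mem hx, ?_⟩
    change (-(x : HQ E)).coeff 0 ∈ O
    rw [HahnSeries.coeff_neg]
    exact neg_mem hx'
  mem_or_inv_mem' := by
    intro x
    by_cases hx0 : x = 0
    · left
      subst hx0
      exact ⟨zero_mem _, by change (0 : HQ E).coeff 0 ∈ O; rw [HahnSeries.coeff_zero]; exact zero_mem _⟩
    have hne : (x : HQ E) ≠ 0 := fun h => hx0 (Subtype.ext h)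
    have hinv : ((x⁻¹ : Pui E) : HQ E) = (x : HQ E)⁻¹ := rfl
    rcases mem_or_inv_mem (x : HQ E) with h | h
    · by_cases h0 : (x : HQ E).coeff 0 = 0
      · left
        exact ⟨h, by rw [h0]; exact zero_mem _⟩
      · rcases O.mem_or_inv_mem ((x : HQ E).coeff 0) with h1 | h1
        · exact Or.inl ⟨h, h1⟩
        · right
          have h2 := inv_mem_of_coeff_ne_zero h h0
          refine ⟨h2, ?_⟩
          rw [hinv]
          have h3 := coeff_zero_mul h h2
          rw [mul_inv_cancel₀ hne, HahnSeries.coeff_one, if_pos rfl] at h3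
          rw [eq_inv_of_mul_eq_one_right h3.symm]
          exact h1
    · by_cases h0 : ((x : HQ E)⁻¹).coeff 0 = 0
      · right
        exact ⟨h, by rw [hinv, h0]; exact zero_mem _⟩
      · have hne' : ((x : HQ E)⁻¹) ≠ 0 := inv_ne_zero hne
        have h2 := inv_mem_of_coeff_ne_zero h h0
        rw [inv_inv] at h2
        rcases O.mem_or_inv_mem ((x : HQ E).coeff 0) with h1 | h1
        · exact Or.inl ⟨h2, h1⟩
        · right
          refine ⟨h, ?_⟩
          rw [hinv]
          have h3 := coeff_zero_mul h2 h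
          rw [mul_inv_cancel₀ hne, HahnSeries.coeff_one, if_pos rfl] at h3
          rw [eq_inv_of_mul_eq_one_right h3.symm]
          exact h1

theorem mem_OP {O : ValuationSubring E} {x : Pui E} :
    x ∈ OP O ↔ (x : HQ E) ∈ (OH : Subring (HQ E)) ∧ (x : HQ E).coeff 0 ∈ O := Iff.rfl

theorem OP_small {O : ValuationSubring E} {x : Pui E} (h : ∀ q ≤ 0, (x : HQ E).coeff q = 0) :
    (OP O).valuation x < 1 := by
  by_cases hx : x = 0
  · rw [hx, map_zero]; exact zero_lt_one
  · rw [vlt _ hx]
    intro h1
    have hO : (x : HQ E) ∈ (OH : Subring (HQ E)) := fun q hq => h q hq.le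
    have h3 := coeff_zero_mul hO (mem_OP.1 h1).1
    have h4 : (x : HQ E) * ((x⁻¹ : Pui E) : HQ E) = 1 := by
      have := mul_inv_cancel₀ hx
      exact congrArg Subtype.val this
    rw [h4, HahnSeries.coeff_one, if_pos rfl, h 0 le_rfl, zero_mul] at h3
    exact one_ne_zero h3

theorem OP_small_C {O : ValuationSubring E} {e : E} (h : O.valuation e < 1) :
    (OP O).valuation (CP e) < 1 := by
  by_cases he : e = 0
  · rw [he, map_zero, map_zero]; exact zero_lt_one
  · rw [vlt _ ((map_ne_zero _).2 he)]
    rw [vlt _ he] at h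
    intro h1
    apply h
    have h2 := (mem_OP.1 h1).2
    rw [← map_inv₀, CP_coeff_zero] at h2
    exact h2

end step

section tower

/-- The additive character. -/
noncomputable def psi {E : Type} [Field E] (cst : ℂ →+* E) (s : ℂ) : AddChar ℚ E where
  toFun q := cst (Complex.exp (q * s))
  map_zero_eq_one' := by simp
  map_add_eq_mul' a b := by
    rw [← map_mul, ← Complex.exp_add]
    congr 2
    push_cast
    ring

theorem psi_apply {E : Type} [Field E] (cst : ℂ →+* E) (s : ℂ) (q : ℚ) :
    psi cst s q = cst (Complex.exp (q * s)) := rfl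

/-- The field `ℂ`. -/
noncomputable def Tower.base : Tower 0 where
  E := ℂ
  cst := RingHom.id ℂ
  act := fun _ => RingEquiv.refl ℂ
  act_add := fun _ _ _ => rfl
  act_zero := fun _ => rfl
  z := fun i => i.elim0
  z_ne := fun i => i.elim0
  act_cst := fun _ _ => rfl
  act_z := fun _ i => i.elim0
  O := ⊤
  act_O := fun _ _ _ => ValuationSubring.mem_top _
  cst_O := fun _ => ValuationSubring.mem_top _
  small := fun i => i.elim0

theorem Tower.fix_last {n : ℕ} (T : Tower n) (x : Pui T.E)
    (h : ∀ s : ℂ, twP (T.act 0) (psi T.cst s) x = x) : x = CP ((x : HQ T.E).coeff 0) := by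
  apply Subtype.ext
  ext q
  by_cases hq : q = 0
  · subst hq; rw [CP_coeff_zero]
  · rw [CP_coeff_ne _ hq]
    have h1 := congrArg (fun y : Pui T.E => (y : HQ T.E).coeff q) (h (Real.pi * Complex.I / q))
    simp only [twP_coeff, psi_apply] at h1
    have hq' : (q : ℂ) ≠ 0 := by exact_mod_cast hq
    rw [mul_div_cancel₀ _ hq', Complex.exp_pi_mul_I, T.act_zero, map_neg, map_one, neg_one_mul] at h1
    exact neg_eq_self.1 h1

/-- Adding a variable. -/
noncomputable def Tower.succ {n : ℕ} (T : Tower n) : Tower (n + 1) where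
  E := Pui T.E
  cz := charZero_of_injective_ringHom (f := CP (E := T.E)) (CP (E := T.E)).injective
  cst := CP.comp T.cst
  act := fun t => twP (T.act (Fin.init t)) (psi T.cst (t (Fin.last n)))
  act_add := by
    intro s t x
    apply Subtype.ext
    ext q
    simp only [twP_coeff, psi_apply, map_mul, T.act_cst]
    have : Fin.init (s + t) = (Fin.init s + Fin.init t : Fin n → ℂ) := rfl
    rw [this, T.act_add, ← mul_assoc, ← map_mul, ← Complex.exp_add, Pi.add_apply, mul_add]
  act_zero := by
    intro x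
    apply Subtype.ext
    ext q
    simp only [twP_coeff, psi_apply]
    have : Fin.init (0 : Fin (n + 1) → ℂ) = (0 : Fin n → ℂ) := rfl
    rw [this, T.act_zero, Pi.zero_apply, mul_zero, Complex.exp_zero, map_one, one_mul]
  z := fun i => Fin.lastCases (motive := fun _ => Pui T.E) (TP T.E) (fun i => CP (T.z i)) i
  z_ne := by
    intro i
    refine Fin.lastCases ?_ (fun i => ?_) i
    · rw [Fin.lastCases_last]
      intro h
      have := congrArg (fun y : Pui T.E => (y : HQ T.E).coeff 1) h
      simp [TP_coe] at this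
    · rw [Fin.lastCases_castSucc]
      exact (map_ne_zero _).2 (T.z_ne i)
  act_cst := by
    intro t c
    apply Subtype.ext
    ext q
    simp only [twP_coeff, psi_apply, RingHom.comp_apply]
    by_cases hq : q = 0
    · subst hq
      rw [CP_coeff_zero, T.act_cst, Rat.cast_zero, zero_mul, Complex.exp_zero, map_one, one_mul]
    · rw [CP_coeff_ne _ hq, map_zero, mul_zero]
  act_z := by
    intro t i
    refine Fin.lastCases ?_ (fun i => ?_) i
    · rw [Fin.lastCases_last]
      apply Subtype.ext
      change _ = ((CP (T.cst (Complex.exp (t (Fin.last n)))) : Pui T.E) : HQ T.E) *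
        ((TP T.E : Pui T.E) : HQ T.E)
      ext q
      rw [CP_coe, cCmul]
      simp only [twP_coeff, psi_apply, TP_coe]
      by_cases hq : q = 1
      · subst hq
        simp
      · rw [HahnSeries.coeff_single_of_ne hq, map_zero, mul_zero, mul_zero]
    · rw [Fin.lastCases_castSucc]
      apply Subtype.ext
      change _ = ((CP (T.cst (Complex.exp (t i.castSucc))) : Pui T.E) : HQ T.E) *
        ((CP (T.z i) : Pui T.E) : HQ T.E)
      ext q
      rw [CP_coe, cCmul]
      simp only [twP_coeff, psi_apply]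
      by_cases hq : q = 0
      · subst hq
        rw [CP_coeff_zero, T.act_z, Rat.cast_zero, zero_mul, Complex.exp_zero, map_one, one_mul]
        rfl
      · rw [CP_coeff_ne _ hq, map_zero, mul_zero, mul_zero]
  O := OP T.O
  act_O := by
    rintro t x ⟨h1, h2⟩
    refine ⟨?_, ?_⟩
    · intro q hq
      rw [twP_coeff, h1 q hq, map_zero, mul_zero]
    · rw [twP_coeff, psi_apply, Rat.cast_zero, zero_mul, Complex.exp_zero, map_one, one_mul]
      exact T.act_O _ _ h2
  cst_O := by
    intro c
    refine ⟨fun q hq => ?_, ?_⟩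
    · rw [RingHom.comp_apply, CP_coeff_ne _ hq.ne]
    · rw [RingHom.comp_apply, CP_coeff_zero]
      exact T.cst_O c
  small := by
    intro i
    refine Fin.lastCases ?_ (fun i => ?_) i
    · intro x hx
      rw [Fin.lastCases_last]
      have h1 : x = CP ((x : HQ T.E).coeff 0) := by
        apply T.fix_last
        intro s
        have := hx (Fin.snoc (0 : Fin n → ℂ) s) (by
          intro j hj
          obtain ⟨j', rfl⟩ := Fin.eq_castSucc_of_ne_last hj.ne
          rw [Fin.snoc_castSucc]
          rfl)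
        rwa [Fin.init_snoc, Fin.snoc_last] at this
      rw [h1]
      apply OP_small
      intro q hq
      change (((CP ((x : HQ T.E).coeff 0) : Pui T.E) : HQ T.E) *
        ((TP T.E : Pui T.E) : HQ T.E)).coeff q = 0
      rw [CP_coe, cCmul, TP_coe, HahnSeries.coeff_single_of_ne, mul_zero]
      intro h
      rw [h] at hq
      exact absurd hq (by norm_num)
    · intro x hx
      rw [Fin.lastCases_castSucc]
      have h1 : x = CP ((x : HQ T.E).coeff 0) := by
        apply T.fix_last
        intro s
        have := hx (Fin.snoc (0 : Fin n → ℂ) s) (by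
          intro j hj
          obtain ⟨j', rfl⟩ := Fin.eq_castSucc_of_ne_last (hj.trans (Fin.castSucc_lt_last i)).ne
          rw [Fin.snoc_castSucc]
          rfl)
        rwa [Fin.init_snoc, Fin.snoc_last] at this
      rw [h1, ← map_mul]
      apply OP_small_C
      apply T.small
      intro t ht
      have := hx (Fin.snoc t 0) (by
        intro j hj
        obtain ⟨j', rfl⟩ := Fin.eq_castSucc_of_ne_last (hj.trans (Fin.castSucc_lt_last i)).ne
        rw [Fin.snoc_castSucc]
        exact ht j' hj)
      rw [Fin.init_snoc, Fin.snoc_last] at this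
      have h2 := congrArg (fun y : Pui T.E => (y : HQ T.E).coeff 0) this
      simp only [twP_coeff, psi_apply] at h2
      rwa [mul_zero, Complex.exp_zero, map_one, one_mul] at h2

/-- The tower with `n` variables. -/
noncomputable def Tower.mk' : (n : ℕ) → Tower n
  | 0 => Tower.base
  | n + 1 => (Tower.mk' n).succ

end tower

end Pool.Agent.TH156
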