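import Pool.Agent.TH156.Defs

set_option autoImplicit false
set_option linter.unusedSectionVars false
set_option linter.unusedVariables false

open Polynomial

namespace Pool.Agent.TH156

variable {k : Type*} [Field k] [IsAlgClosed k]

/-- The interpolation step. -/
theorem sq_interp (m e : k[X]) (he : e ≠ 0) (hnd : e.roots.Nodup) (hdeg : 0 < e.natDegree) :
    ∃ a : k[X], a.natDegree < e.natDegree ∧ e ∣ a ^ 2 - m := by
  classical
  have hr : ∀ θ : k, ∃ z : k, z ^ 2 = m.eval θ := fun θ =>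
    IsAlgClosed.exists_pow_nat_eq (m.eval θ) (n := 2) two_pos
  choose f hf using hr
  set S := e.roots.toFinset with hS
  have hcard : S.card = e.natDegree := by
    rw [hS, Multiset.toFinset_card_of_nodup hnd]
    exact splits_iff_card_roots.1 (IsAlgClosed.splits e)
  set a := Lagrange.interpolate S id f with ha
  have heval : ∀ θ ∈ S, a.eval θ = f θ := by
    intro θ hθ
    have := Lagrange.eval_interpolate_at_node (s := S) (v := id) f (Function.injective_id.injOn) hθ
    exact this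
  refine ⟨a, ?_, ?_⟩
  · have h1 : a.degree < (S.card : WithBot ℕ) :=
      Lagrange.degree_interpolate_lt f (Function.injective_id.injOn)
    rw [hcard] at h1
    by_cases ha0 : a = 0
    · rw [ha0, natDegree_zero]; exact hdeg
    · rw [degree_eq_natDegree ha0] at h1
      exact_mod_cast h1
  · by_cases h0 : a ^ 2 - m = 0
    · rw [h0]; exact dvd_zero e
    · have h1 : e.roots ≤ (a ^ 2 - m).roots := by
        rw [Multiset.le_iff_subset hnd]
        intro θ hθ
        rw [mem_roots h0, IsRoot, eval_sub, eval_pow, heval θ (by rwa [hS, Multiset.mem_toFinset]),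
          hf, sub_self]
      have h2 := (Multiset.prod_X_sub_C_dvd_iff_le_roots h0 _).2 h1
      have h3 : e = C e.leadingCoeff * (e.roots.map fun a => X - C a).prod :=
        (IsAlgClosed.splits e).eq_prod_roots
      rw [h3]
      have hu : IsUnit (C e.leadingCoeff) := isUnit_C.2 (isUnit_iff_ne_zero.2 (leadingCoeff_ne_zero.2 he))
      exact (hu.mul_left_dvd).2 h2

theorem tsen_aux (n : ℕ) : ∀ m e : k[X], m ≠ 0 → e ≠ 0 → m.natDegree + e.natDegree ≤ n →
    ∃ Y R Z : k[X], (Y ≠ 0 ∨ R ≠ 0 ∨ Z ≠ 0) ∧ Y ^ 2 = m * R ^ 2 + e * Z ^ 2 := by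
  classical
  induction n using Nat.strong_induction_on with
  | _ n ih =>
    -- the case `deg m ≤ deg e`
    have main : ∀ m e : k[X], m ≠ 0 → e ≠ 0 → m.natDegree + e.natDegree ≤ n →
        m.natDegree ≤ e.natDegree →
        ∃ Y R Z : k[X], (Y ≠ 0 ∨ R ≠ 0 ∨ Z ≠ 0) ∧ Y ^ 2 = m * R ^ 2 + e * Z ^ 2 := by
      intro m e hm he hn hme
      by_cases hdeg : e.natDegree = 0
      · obtain ⟨z, hz⟩ := IsAlgClosed.exists_pow_nat_eq (e.coeff 0) (n := 2) two_pos
        refine ⟨C z, 0, 1, Or.inr (Or.inr one_ne_zero), ?_⟩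
        rw [eq_C_of_natDegree_eq_zero hdeg, ← C_pow, hz]
        ring
      have hdeg' : 0 < e.natDegree := Nat.pos_of_ne_zero hdeg
      by_cases hnd : e.roots.Nodup
      · obtain ⟨a, ha, e', he'⟩ := sq_interp m e he hnd hdeg'
        by_cases h0 : e' = 0
        · refine ⟨a, 1, 0, Or.inr (Or.inl one_ne_zero), ?_⟩
          rw [h0, mul_zero, sub_eq_zero] at he'
          rw [he']
          ring
        · have h1 : (a ^ 2 - m).natDegree = e.natDegree + e'.natDegree := by
            rw [he', natDegree_mul he h0]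
          have h2 : (a ^ 2 - m).natDegree < 2 * e.natDegree := by
            apply lt_of_le_of_lt (natDegree_sub_le _ _)
            rw [natDegree_pow]
            apply max_lt
            · omega
            · omega
          obtain ⟨Y, R, Z, hne, h⟩ := ih (m.natDegree + e'.natDegree) (by omega) m e' hm h0 le_rfl
          by_cases hZ : Z = 0
          · refine ⟨Y, R, 0, ?_, ?_⟩
            · rw [hZ] at hne
              exact hne
            · rw [h, hZ]; ring
          · refine ⟨Y * a + m * R, Y + a * R, e' * Z, Or.inr (Or.inr (mul_ne_zero h0 hZ)), ?_⟩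
            linear_combination (a ^ 2 - m) * h + e' * Z ^ 2 * he'
      · rw [Multiset.nodup_iff_count_le_one] at hnd
        push Not at hnd
        obtain ⟨θ, hθ⟩ := hnd
        rw [count_roots] at hθ
        have h1 : (X - C θ) ^ 2 ∣ e := (le_rootMultiplicity_iff he).1 hθ
        obtain ⟨e1, he1⟩ := h1
        have he10 : e1 ≠ 0 := by
          rintro rfl
          rw [mul_zero] at he1
          exact he he1
        have hX : (X - C θ : k[X]) ≠ 0 := X_sub_C_ne_zero θ
        have h2 : e.natDegree = 2 + e1.natDegree := by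
          rw [he1, natDegree_mul (pow_ne_zero 2 hX) he10, natDegree_pow, natDegree_X_sub_C]
        obtain ⟨Y, R, Z, hne, h⟩ := ih (m.natDegree + e1.natDegree) (by omega) m e1 hm he10 le_rfl
        refine ⟨(X - C θ) * Y, (X - C θ) * R, Z, ?_, ?_⟩
        · rcases hne with h' | h' | h'
          · exact Or.inl (mul_ne_zero hX h')
          · exact Or.inr (Or.inl (mul_ne_zero hX h'))
          · exact Or.inr (Or.inr h')
        · rw [he1]
          linear_combination (X - C θ) ^ 2 * h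
    intro m e hm he hn
    rcases le_total m.natDegree e.natDegree with h | h
    · exact main m e hm he hn h
    · obtain ⟨Y, R, Z, hne, h'⟩ := main e m he hm (by omega) h
      refine ⟨Y, Z, R, ?_, ?_⟩
      · rcases hne with h' | h' | h'
        · exact Or.inl h'
        · exact Or.inr (Or.inr h')
        · exact Or.inr (Or.inl h')
      · rw [h']; ring

theorem tsen_prim (m e : k[X]) (n : ℕ) : ∀ Y R Z : k[X], (Y ≠ 0 ∨ R ≠ 0 ∨ Z ≠ 0) →
    Y ^ 2 = m * R ^ 2 + e * Z ^ 2 → Y.natDegree + R.natDegree + Z.natDegree ≤ n →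
    ∃ Y R Z : k[X], Y ^ 2 = m * R ^ 2 + e * Z ^ 2 ∧
      ∀ a : k, ¬ (Y.eval a = 0 ∧ R.eval a = 0 ∧ Z.eval a = 0) := by
  induction n using Nat.strong_induction_on with
  | _ n ih =>
    intro Y R Z hne h hn
    by_cases hcon : ∀ a : k, ¬ (Y.eval a = 0 ∧ R.eval a = 0 ∧ Z.eval a = 0)
    · exact ⟨Y, R, Z, h, hcon⟩
    · push Not at hcon
      obtain ⟨a, hY, hR, hZ⟩ := hcon
      obtain ⟨Y', hY'⟩ := dvd_iff_isRoot.2 hY
      obtain ⟨R', hR'⟩ := dvd_iff_isRoot.2 hR
      obtain ⟨Z', hZ'⟩ := dvd_iff_isRoot.2 hZ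
      have hX : (X - C a : k[X]) ≠ 0 := X_sub_C_ne_zero a
      have hdeg : ∀ {p q : k[X]}, p = (X - C a) * q → q.natDegree ≤ p.natDegree ∧
          (p ≠ 0 → q.natDegree < p.natDegree) := by
        intro p q hpq
        by_cases hq : q = 0
        · rw [hq, mul_zero] at hpq
          rw [hq, hpq]
          exact ⟨le_rfl, fun h => absurd rfl h⟩
        · rw [hpq, natDegree_mul hX hq, natDegree_X_sub_C]
          exact ⟨by omega, fun _ => by omega⟩
      have dY := hdeg hY'
      have dR := hdeg hR'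
      have dZ := hdeg hZ'
      have hlt : Y'.natDegree + R'.natDegree + Z'.natDegree < n := by
        rcases hne with h' | h' | h'
        · have := dY.2 h'; omega
        · have := dR.2 h'; omega
        · have := dZ.2 h'; omega
      refine ih _ hlt Y' R' Z' ?_ ?_ le_rfl
      · rcases hne with h' | h' | h'
        · left; rintro rfl; exact h' (by rw [hY', mul_zero])
        · right; left; rintro rfl; exact h' (by rw [hR', mul_zero])
        · right; right; rintro rfl; exact h' (by rw [hZ', mul_zero])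
      · apply mul_left_cancel₀ (pow_ne_zero 2 hX)
        rw [hY', hR', hZ'] at h
        linear_combination h

/-- The local lemma. -/
theorem local_w {k : Type*} [Field k] (h2 : (2 : k) ≠ 0) {m e y ρ z s r : k} (hm : m ≠ 0)
    (he : e ≠ 0) (hv : ¬ (y = 0 ∧ ρ = 0 ∧ z = 0)) (h : y ^ 2 = m * ρ ^ 2 + e * z ^ 2)
    (hp : s ^ 2 = m * r ^ 2 + e) : ∃ a b c : k, ∃ l : k, l ≠ 0 ∧
      (a ^ 2 - m * b ^ 2 - e * c ^ 2) * y - 2 * (y * a - m * ρ * b - e * z * c) * a = l * s ∧
      (a ^ 2 - m * b ^ 2 - e * c ^ 2) * ρ - 2 * (y * a - m * ρ * b - e * z * c) * b = l * r ∧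
      (a ^ 2 - m * b ^ 2 - e * c ^ 2) * z - 2 * (y * a - m * ρ * b - e * z * c) * c = l := by
  by_cases hb : y * s - m * ρ * r - e * z = 0
  · -- `v` is proportional to `p`
    have h1 : ρ = z * r := by
      have h3 : m * e * (ρ - z * r) ^ 2 = 0 := by
        linear_combination (y * s + m * ρ * r + e * z) * hb - s ^ 2 * h -
          (m * ρ ^ 2 + e * z ^ 2) * hp
      have h4 := (mul_eq_zero.1 h3).resolve_left (mul_ne_zero hm he)
      exact sub_eq_zero.1 (pow_eq_zero_iff two_ne_zero |>.1 h4)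
    have h5 : y = z * s := by
      by_cases hs : s = 0
      · have : y ^ 2 = 0 := by
          rw [h, h1]
          rw [hs] at hp
          linear_combination (-(z ^ 2)) * hp
        rw [hs, mul_zero]
        exact pow_eq_zero_iff two_ne_zero |>.1 this
      · apply mul_right_cancel₀ hs
        rw [h1] at hb
        linear_combination hb - z * hp
    have hz : z ≠ 0 := by
      rintro rfl
      rw [zero_mul] at h1 h5
      exact hv ⟨h5, h1, rfl⟩
    refine ⟨m * r, s, 0, z * (-(m * e)), mul_ne_zero hz (neg_ne_zero.2 (mul_ne_zero hm he)), ?_, ?_, ?_⟩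
    · rw [h5, h1]
      linear_combination (-(m * z * s)) * hp
    · rw [h5, h1]
      linear_combination (-(m * z * r)) * hp
    · rw [h5, h1]
      linear_combination (-(m * z)) * hp
  · refine ⟨s, r, 1, -(2 * (y * s - m * ρ * r - e * z)), neg_ne_zero.2 (mul_ne_zero h2 hb), ?_, ?_, ?_⟩
    · linear_combination y * hp
    · linear_combination ρ * hp
    · linear_combination z * hp

/-- Weak approximation at two points, for a conic. -/
theorem conic_poly [CharZero k] (m e : k[X]) {r₀ s₀ r₁ s₁ : k} (hm0 : m.eval 0 ≠ 0)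
    (hm1 : m.eval 1 ≠ 0) (he0 : e.eval 0 ≠ 0) (he1 : e.eval 1 ≠ 0)
    (h0 : s₀ ^ 2 = m.eval 0 * r₀ ^ 2 + e.eval 0) (h1 : s₁ ^ 2 = m.eval 1 * r₁ ^ 2 + e.eval 1) :
    ∃ Y R Z : k[X], Y ^ 2 = m * R ^ 2 + e * Z ^ 2 ∧ Z.eval 0 ≠ 0 ∧ Z.eval 1 ≠ 0 ∧
      Y.eval 0 = Z.eval 0 * s₀ ∧ R.eval 0 = Z.eval 0 * r₀ ∧ Y.eval 1 = Z.eval 1 * s₁ ∧
      R.eval 1 = Z.eval 1 * r₁ := by
  have hm : m ≠ 0 := by rintro rfl; exact hm0 (by simp)
  have he : e ≠ 0 := by rintro rfl; exact he0 (by simp)
  obtain ⟨Y1, R1, Z1, hne1, hsol1⟩ := tsen_aux _ m e hm he le_rfl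
  obtain ⟨Y, R, Z, hsol, hprim⟩ := tsen_prim m e _ Y1 R1 Z1 hne1 hsol1 le_rfl
  have hs : ∀ a : k, Y.eval a ^ 2 = m.eval a * R.eval a ^ 2 + e.eval a * Z.eval a ^ 2 := by
    intro a
    have := congrArg (eval a) hsol
    simpa using this
  obtain ⟨a0, b0, c0, l0, hl0, e1, e2, e3⟩ := local_w two_ne_zero hm0 he0 (hprim 0) (hs 0) h0
  obtain ⟨a1, b1, c1, l1, hl1, e4, e5, e6⟩ := local_w two_ne_zero hm1 he1 (hprim 1) (hs 1) h1
  set a : k[X] := C a0 * (1 - X) + C a1 * X with ha
  set b : k[X] := C b0 * (1 - X) + C b1 * X with hb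
  set c : k[X] := C c0 * (1 - X) + C c1 * X with hc
  have ea0 : a.eval 0 = a0 := by rw [ha]; simp
  have ea1 : a.eval 1 = a1 := by rw [ha]; simp
  have eb0 : b.eval 0 = b0 := by rw [hb]; simp
  have eb1 : b.eval 1 = b1 := by rw [hb]; simp
  have ec0 : c.eval 0 = c0 := by rw [hc]; simp
  have ec1 : c.eval 1 = c1 := by rw [hc]; simp
  refine ⟨(a ^ 2 - m * b ^ 2 - e * c ^ 2) * Y - 2 * (Y * a - m * R * b - e * Z * c) * a,
    (a ^ 2 - m * b ^ 2 - e * c ^ 2) * R - 2 * (Y * a - m * R * b - e * Z * c) * b,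
    (a ^ 2 - m * b ^ 2 - e * c ^ 2) * Z - 2 * (Y * a - m * R * b - e * Z * c) * c, ?_, ?_, ?_, ?_,
    ?_, ?_, ?_⟩
  · linear_combination (a ^ 2 - m * b ^ 2 - e * c ^ 2) ^ 2 * hsol
  all_goals simp only [eval_sub, eval_mul, eval_pow, eval_ofNat, ea0, ea1, eb0, eb1, ec0, ec1]
  · rw [e3]; exact hl0
  · rw [e6]; exact hl1
  · rw [e1, e3]
  · rw [e2, e3]
  · rw [e4, e6]
  · rw [e5, e6]

end Pool.Agent.TH156
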