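import Pool.Agent.TH156.Norm

set_option autoImplicit false
set_option linter.unusedSectionVars false
set_option linter.unusedVariables false

namespace Pool.Agent.TH156

section val

variable {Ω : Type*} [Field Ω] [IsAlgClosed Ω] {D : Type*} [Group D] [MulSemiringAction D Ω]
  (B : ValuationSubring Ω)

theorem val_lt_iff {y : Ω} (hy : y ≠ 0) : B.valuation y < 1 ↔ y⁻¹ ∉ B := by
  rw [← B.valuation_le_one_iff, not_le, map_inv₀]
  rw [one_lt_inv₀ (zero_lt_iff.2 ((B.valuation).ne_zero_iff.2 hy))]

variable {B}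

theorem val_smul_lt (hB : ∀ (σ : D) (x : Ω), x ∈ B → σ • x ∈ B) (σ : D) {y : Ω}
    (hy : B.valuation y < 1) : B.valuation (σ • y) < 1 := by
  by_cases h0 : y = 0
  · rw [h0, smul_zero, map_zero]; exact zero_lt_one
  · have h1 : σ • y ≠ 0 := by
      intro h
      apply h0
      have := congrArg (fun z => σ⁻¹ • z) h
      simpa using this
    rw [val_lt_iff B h1]
    rw [val_lt_iff B h0] at hy
    intro h
    apply hy
    have := hB σ⁻¹ _ h
    rwa [smul_inv'', inv_smul_smul] at this

theorem hens (h2 : B.valuation 2 = 1) (hB : ∀ (σ : D) (x : Ω), x ∈ B → σ • x ∈ B) {e : Ω}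
    (he : Fx D e) (h1 : B.valuation (e - 1) < 1) : ch D e = 0 := by
  funext σ
  have hr : rt e ^ 2 = e := rt_sq e
  set r := rt e with hr'
  rw [ch_eq hr]
  apply if_pos
  rcases smul_root hr he σ with h | h
  · exact h
  · exfalso
    have h3 : B.valuation (r - 1) * B.valuation (r + 1) < 1 := by
      rw [← map_mul]
      have : (r - 1) * (r + 1) = e - 1 := by rw [← hr]; ring
      rw [this]; exact h1
    have h4 : B.valuation (r - 1) < 1 ∨ B.valuation (r + 1) < 1 := by
      by_contra hcon
      push Not at hcon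
      exact absurd h3 (not_lt.2 (one_le_mul hcon.1 hcon.2))
    have h5 : B.valuation 2 < 1 := by
      rcases h4 with h4 | h4
      · have h6 := val_smul_lt hB σ h4
        rw [smul_sub, smul_one, h] at h6
        have h7 := (B.valuation).map_add_lt h4 h6
        have h8 : r - 1 + (-r - 1) = -2 := by ring
        rwa [h8, Valuation.map_neg] at h7
      · have h6 := val_smul_lt hB σ h4
        rw [smul_add, smul_one, h] at h6
        have h7 := (B.valuation).map_add_lt h4 h6
        have h8 : r + 1 + (-r + 1) = 2 := by ring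
        rwa [h8] at h7
    rw [h2] at h5
    exact lt_irrefl _ h5

theorem inert (h2 : B.valuation 2 = 1) {e : Ω} (he : Fx D e) (h1 : B.valuation e = 1) {σ : D}
    (hσ : ∀ b ∈ B, B.valuation (σ • b - b) < 1) : ch D e σ = 0 := by
  have hr : rt e ^ 2 = e := rt_sq e
  set r := rt e with hr'
  have hvr : B.valuation r = 1 := by
    have : B.valuation r ^ 2 = 1 := by rw [← map_pow, hr, h1]
    exact (pow_eq_one_iff_of_nonneg zero_le (two_ne_zero)).1 this
  rw [ch_eq hr]
  apply if_pos
  rcases smul_root hr he σ with h | h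
  · exact h
  · exfalso
    have h3 := hσ r ((B.valuation_le_one_iff r).1 hvr.le)
    rw [h] at h3
    have h4 : -r - r = -(2 * r) := by ring
    rw [h4, Valuation.map_neg, map_mul, h2, hvr, one_mul] at h3
    exact lt_irrefl _ h3

end val

section main

variable {k Ω : Type*} [Field k] [IsAlgClosed k] [Field Ω] [IsAlgClosed Ω]
  {D : Type*} [Group D] [MulSemiringAction D Ω] [TopologicalSpace D] [ContinuousMul D]
  {B : ValuationSubring Ω} (i : k →+* Ω)

variable (B) in
/-- The residue class of `z` is not in `k` nor infinite. -/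
def Gen (z : Ω) : Prop := ∀ c : k, B.valuation (z - i c) = 1

variable {i}

theorem val_const (hk : ∀ a : k, i a ∈ B) {a : k} (ha : a ≠ 0) : B.valuation (i a) = 1 := by
  apply le_antisymm
  · exact (B.valuation_le_one_iff _).2 (hk a)
  · have h1 := (B.valuation_le_one_iff _).2 (hk a⁻¹)
    rw [map_inv₀, map_inv₀] at h1
    have h2 : i a ≠ 0 := (map_ne_zero i).2 ha
    exact (inv_le_one₀ (zero_lt_iff.2 ((B.valuation).ne_zero_iff.2 h2))).1 h1

theorem Gen.val {z : Ω} (h : Gen B i z) : B.valuation z = 1 := by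
  have := h 0
  rwa [map_zero, sub_zero] at this

theorem Gen.ne_zero {z : Ω} (h : Gen B i z) : z ≠ 0 := by
  intro h0
  have := h.val
  rw [h0, map_zero] at this
  exact zero_ne_one this

theorem not_gen (hk : ∀ a : k, i a ∈ B) {z : Ω} (h : ¬ Gen B i z) :
    1 < B.valuation z ∨ ∃ c : k, B.valuation (z - i c) < 1 := by
  by_cases hz : B.valuation z ≤ 1
  · right
    unfold Gen at h
    push Not at h
    obtain ⟨c, hc⟩ := h
    refine ⟨c, lt_of_le_of_ne ?_ hc⟩
    rw [B.valuation_le_one_iff] at hz ⊢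
    exact sub_mem hz (hk c)
  · left
    exact not_le.1 hz

theorem ch_const (c : k) (hfix : ∀ a : k, Fx D (i a)) : ch D (i c) = 0 := by
  obtain ⟨z, hz⟩ := IsAlgClosed.exists_pow_nat_eq c (n := 2) two_pos
  rw [← hz, map_pow]
  exact ch_sq (hfix z)

/-- An element congruent to a nonzero constant. -/
theorem hens_const (hk : ∀ a : k, i a ∈ B) (h2 : B.valuation 2 = 1) (h2' : (2 : Ω) ≠ 0)
    (hB : ∀ (σ : D) (x : Ω), x ∈ B → σ • x ∈ B)
    (hfix : ∀ a : k, Fx D (i a)) {e : Ω} (he : Fx D e) {c : k} (hc : c ≠ 0)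
    (h : B.valuation (e - i c) < 1) : ch D e = 0 := by
  have hc' : i c ≠ 0 := (map_ne_zero i).2 hc
  have h1 : B.valuation (e / i c - 1) < 1 := by
    have : e / i c - 1 = (e - i c) / i c := by field_simp
    rw [this, map_div₀, val_const hk hc, div_one]
    exact h
  have h3 := hens h2 hB (he.div (hfix c)) h1
  by_cases he0 : e = 0
  · rw [he0, zero_sub, Valuation.map_neg, val_const hk hc] at h
    exact absurd h (lt_irrefl _)
  · have h4 : ch D e = ch D (e / i c) + ch D (i c) := by
      rw [← ch_mul h2' (he.div (hfix c)) (hfix c) (div_ne_zero he0 hc') hc']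
      congr 1
      field_simp
    rw [h4, h3, ch_const c hfix, add_zero]

theorem one_add_small {e : Ω} (h : B.valuation e < 1) : B.valuation (1 + e) = 1 := by
  have := (B.valuation).map_one_add_of_lt h
  exact this

/-- `e = a (1 + small)`. -/
theorem hens_mul (h2 : B.valuation 2 = 1) (h2' : (2 : Ω) ≠ 0)
    (hB : ∀ (σ : D) (x : Ω), x ∈ B → σ • x ∈ B) {e a δ : Ω} (ha : Fx D a) (hδ : Fx D δ)
    (ha0 : a ≠ 0) (hv : B.valuation δ < 1) (h : e = a * (1 + δ)) : ch D e = ch D a := by
  have h1 : (1 + δ) ≠ 0 := by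
    intro h0
    have := one_add_small hv
    rw [h0, map_zero] at this
    exact zero_ne_one this
  rw [h, ch_mul h2' ha (Fx.one.add hδ) ha0 h1]
  rw [hens h2 hB (Fx.one.add hδ) (by rw [add_sub_cancel_left]; exact hv), add_zero]

/-- Closure of the generic elements under a step of the chain. -/
theorem gen_step (hk : ∀ a : k, i a ∈ B) {X : Ω} (hX : Gen B i X) (p : k) :
    Gen B i ((X - i p) ^ 2 / X) := by
  intro c
  have hroot : ∃ r : k, r ^ 2 - (2 * p + c) * r + p ^ 2 = 0 := by
    have hdeg : (Polynomial.X ^ 2 - Polynomial.C (2 * p + c) * Polynomial.X +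
        Polynomial.C (p ^ 2) : Polynomial k).degree ≠ 0 := by
      have : (Polynomial.X ^ 2 - Polynomial.C (2 * p + c) * Polynomial.X +
        Polynomial.C (p ^ 2) : Polynomial k).natDegree = 2 := by compute_degree!
      intro h
      rw [Polynomial.degree_eq_natDegree] at h
      · rw [this] at h; exact absurd h (by decide)
      · intro h0; rw [h0] at this; simp at this
    obtain ⟨r, hr⟩ := IsAlgClosed.exists_root _ hdeg
    exact ⟨r, by simpa [Polynomial.IsRoot] using hr⟩
  obtain ⟨r, hr⟩ := hroot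
  have hX0 := hX.ne_zero
  have e2 : i 2 = 2 := map_ofNat i 2
  have key : (X - i p) ^ 2 / X - i c = (X - i r) * (X - i ((2 * p + c) - r)) / X := by
    have h3 : i r ^ 2 - (2 * i p + i c) * i r + i p ^ 2 = 0 := by
      have := congrArg i hr
      simpa [e2] using this
    rw [map_sub, map_add, map_mul, e2]
    field_simp
    linear_combination h3
  rw [key, map_div₀, map_mul, hX r, hX _, hX.val]
  simp

/-- The chain of isogenies. -/
theorem chain (hk : ∀ a : k, i a ∈ B) (h2' : (2 : Ω) ≠ 0)
    (hlc : ∀ x : Ω, IsLocallyConstant (fun σ : D => σ • x)) (hfix : ∀ a : k, Fx D (i a))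
    {N x Q : Ω} {β : k} (hN : Fx D N) (hx : Fx D x) (hN0 : N ≠ 0) (hx0 : x ≠ 0)
    (hQ : Q = x * ((x - (1 + i β ^ 2)) ^ 2 - 4 * i β ^ 2)) (hQ0 : Q ≠ 0)
    (hNQ : T2 (ch D N) (ch D Q)) (A C : ℕ → k) (hA0 : A 0 = 1) (hC0 : C 0 = β)
    (hAC : ∀ n, A n = A (n + 1) + C (n + 1)) (hAC' : ∀ n, C n ^ 2 = 4 * A (n + 1) * C (n + 1))
    (n : ℕ) : ∀ X : Ω, Fx D X → Gen B i X →
      T2 (ch D N) (ch D (X * (X + i (A n) ^ 2) * (X + i (C n) ^ 2))) →
      T3 (ch D N) (ch D x) (ch D X) := by
  have hne : ∀ (X : Ω) (hX : Gen B i X) (a b : k), X * (X + i a ^ 2) * (X + i b ^ 2) ≠ 0 := by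
    intro X hX a b
    have h1 : ∀ a : k, X + i a ^ 2 ≠ 0 := by
      intro a h
      have := hX (-(a ^ 2))
      rw [map_neg, map_pow, sub_neg_eq_add, h, map_zero] at this
      exact zero_ne_one this
    exact mul_ne_zero (mul_ne_zero hX.ne_zero (h1 a)) (h1 b)
  induction n with
  | zero =>
    intro X hX hG hT
    have hX0 := hG.ne_zero
    have h1 := hne X hG (A 0) (C 0)
    refine norm_lemma h2' hlc (a := 1 + i β ^ 2) (b := i β ^ 2) hN hX hx (Fx.one.add ((hfix β).pow 2))
      ((hfix β).pow 2) hN0 hX0 hx0 (P := X * (X + i (A 0) ^ 2) * (X + i (C 0) ^ 2)) ?_ hQ h1 hQ0 hT hNQ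
    rw [hA0, hC0, map_one]
    ring
  | succ n ih =>
    intro X hX hG hT
    have hX0 := hG.ne_zero
    have hXne : X ^ 2 ≠ (i (A (n + 1)) * i (C (n + 1))) ^ 2 := by
      intro h
      rcases sq_eq_sq_iff_eq_or_eq_neg.1 h with h | h
      · have := hG (A (n + 1) * C (n + 1))
        rw [map_mul, h, sub_self, map_zero] at this
        exact zero_ne_one this
      · have := hG (-(A (n + 1) * C (n + 1)))
        rw [map_neg, map_mul, h, sub_self, map_zero] at this
        exact zero_ne_one this
    have hs := step_lemma h2' (A' := i (A n)) (B' := i (C n)) hX (hfix (A (n + 1)))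
      (hfix (C (n + 1))) hX0 (by rw [hAC n, map_add])
      (by
        have := congrArg i (hAC' n)
        have e4 : i 4 = 4 := map_ofNat i 4
        simpa [e4] using this) hXne (hne X hG _ _)
    have hX' : Fx D ((X - i (A (n + 1)) * i (C (n + 1))) ^ 2 / X) :=
      ((hX.sub ((hfix _).mul (hfix _))).pow 2).div hX
    have hG' : Gen B i ((X - i (A (n + 1)) * i (C (n + 1))) ^ 2 / X) := by
      rw [← map_mul]
      exact gen_step hk hG _
    have := ih _ hX' hG' (by rw [hs.2]; exact hT)
    rwa [hs.1] at this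

end main

end Pool.Agent.TH156
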