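import Pool.Agent.TH156.Unr

set_option autoImplicit false
set_option linter.unusedSectionVars false
set_option linter.unusedVariables false

namespace Pool.Agent.TH156

section main

variable {k Ω : Type*} [Field k] [IsAlgClosed k] [Field Ω] [IsAlgClosed Ω]
  {D : Type*} [Group D] [MulSemiringAction D Ω] [TopologicalSpace D] [ContinuousMul D]
  {B : ValuationSubring Ω} {i : k →+* Ω}

/-- If `x = ∞` or `x` is congruent to a constant then the symbol `{N, x}` is trivial. -/
theorem lemA (hk : ∀ a : k, i a ∈ B) (h2 : B.valuation 2 = 1) (h2' : (2 : Ω) ≠ 0)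
    (hB : ∀ (σ : D) (x : Ω), x ∈ B → σ • x ∈ B) (hfix : ∀ a : k, Fx D (i a))
    {N x P a b : Ω} (hx : Fx D x) (hx0 : x ≠ 0) (ha : Fx D a) (hb : Fx D b)
    (hva : B.valuation a = 1) (hvb : B.valuation b = 1)
    (hP : P = x * (x + a) * (x + b)) (hP0 : P ≠ 0) (hasq : ∃ s, Fx D s ∧ s ^ 2 = a * b)
    (hNP : T2 (ch D N) (ch D P)) (hx1 : ¬ Gen B i x) : T2 (ch D N) (ch D x) := by
  have hab0 : (x + a) ≠ 0 ∧ (x + b) ≠ 0 := by
    constructor
    · intro h; apply hP0; rw [hP, h]; ring
    · intro h; apply hP0; rw [hP, h]; ring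
  have ha0 : a ≠ 0 := by
    intro h; rw [h, map_zero] at hva; exact zero_ne_one hva
  have hb0 : b ≠ 0 := by
    intro h; rw [h, map_zero] at hvb; exact zero_ne_one hvb
  have hsplit : ch D P = ch D x + ch D ((x + a) * (x + b)) := by
    rw [← ch_mul h2' hx ((hx.add ha).mul (hx.add hb)) hx0 (mul_ne_zero hab0.1 hab0.2), hP]
    congr 1
    ring
  have case0 : B.valuation x < 1 → ch D ((x + a) * (x + b)) = 0 := by
    intro hv
    obtain ⟨s, hs, hs2⟩ := hasq
    have e1 : ch D (x + a) = ch D a := by
      apply hens_mul h2 h2' hB ha (hx.div ha) ha0 (δ := x / a)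
      · rw [map_div₀, hva, div_one]; exact hv
      · field_simp; ring
    have e2 : ch D (x + b) = ch D b := by
      apply hens_mul h2 h2' hB hb (hx.div hb) hb0 (δ := x / b)
      · rw [map_div₀, hvb, div_one]; exact hv
      · field_simp; ring
    rw [ch_mul h2' (hx.add ha) (hx.add hb) hab0.1 hab0.2, e1, e2, ← ch_mul h2' ha hb ha0 hb0,
      ← hs2, ch_sq hs]
  have caseI : 1 < B.valuation x → ch D ((x + a) * (x + b)) = 0 := by
    intro hv
    have hvi : (B.valuation x)⁻¹ < 1 := inv_lt_one_of_one_lt₀ hv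
    have e1 : ch D (x + a) = ch D x := by
      apply hens_mul h2 h2' hB hx (ha.div hx) hx0 (δ := a / x)
      · rw [map_div₀, hva, one_div]; exact hvi
      · field_simp
    have e2 : ch D (x + b) = ch D x := by
      apply hens_mul h2 h2' hB hx (hb.div hx) hx0 (δ := b / x)
      · rw [map_div₀, hvb, one_div]; exact hvi
      · field_simp
    rw [ch_mul h2' (hx.add ha) (hx.add hb) hab0.1 hab0.2, e1, e2, chr_add_self]
  rcases not_gen hk hx1 with hv | ⟨c, hc⟩
  · rw [hsplit, caseI hv, add_zero] at hNP
    exact hNP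
  · by_cases hc0 : c = 0
    · rw [hc0, map_zero, sub_zero] at hc
      rw [hsplit, case0 hc, add_zero] at hNP
      exact hNP
    · rw [hens_const hk h2 h2' hB hfix hx hc0 hc]
      exact T2.zero_right

/-- If `x` is not a unit then the symbol `{N, x}` is trivial. -/
theorem lemB (h2 : B.valuation 2 = 1) (h2' : (2 : Ω) ≠ 0)
    (hB : ∀ (σ : D) (x : Ω), x ∈ B → σ • x ∈ B)
    {N x P a b : Ω} (hx : Fx D x) (hx0 : x ≠ 0) (ha : Fx D a) (hb : Fx D b)
    (hva : B.valuation a = 1) (hvb : B.valuation b = 1)
    (hP : P = x * (x + a) * (x + b)) (hP0 : P ≠ 0) (hasq : ∃ s, Fx D s ∧ s ^ 2 = a * b)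
    (hNP : T2 (ch D N) (ch D P)) (hx1 : B.valuation x ≠ 1) : T2 (ch D N) (ch D x) := by
  have hab0 : (x + a) ≠ 0 ∧ (x + b) ≠ 0 := by
    constructor
    · intro h; apply hP0; rw [hP, h]; ring
    · intro h; apply hP0; rw [hP, h]; ring
  have ha0 : a ≠ 0 := by
    intro h; rw [h, map_zero] at hva; exact zero_ne_one hva
  have hb0 : b ≠ 0 := by
    intro h; rw [h, map_zero] at hvb; exact zero_ne_one hvb
  have hsplit : ch D P = ch D x + ch D ((x + a) * (x + b)) := by
    rw [← ch_mul h2' hx ((hx.add ha).mul (hx.add hb)) hx0 (mul_ne_zero hab0.1 hab0.2), hP]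
    congr 1
    ring
  rcases lt_or_gt_of_ne hx1 with hv | hv
  · obtain ⟨s, hs, hs2⟩ := hasq
    have e1 : ch D (x + a) = ch D a := by
      apply hens_mul h2 h2' hB ha (hx.div ha) ha0 (δ := x / a)
      · rw [map_div₀, hva, div_one]; exact hv
      · field_simp; ring
    have e2 : ch D (x + b) = ch D b := by
      apply hens_mul h2 h2' hB hb (hx.div hb) hb0 (δ := x / b)
      · rw [map_div₀, hvb, div_one]; exact hv
      · field_simp; ring
    have : ch D ((x + a) * (x + b)) = 0 := by
      rw [ch_mul h2' (hx.add ha) (hx.add hb) hab0.1 hab0.2, e1, e2, ← ch_mul h2' ha hb ha0 hb0,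
        ← hs2, ch_sq hs]
    rw [hsplit, this, add_zero] at hNP
    exact hNP
  · have hvi : (B.valuation x)⁻¹ < 1 := inv_lt_one_of_one_lt₀ hv
    have e1 : ch D (x + a) = ch D x := by
      apply hens_mul h2 h2' hB hx (ha.div hx) hx0 (δ := a / x)
      · rw [map_div₀, hva, one_div]; exact hvi
      · field_simp
    have e2 : ch D (x + b) = ch D x := by
      apply hens_mul h2 h2' hB hx (hb.div hx) hx0 (δ := b / x)
      · rw [map_div₀, hvb, one_div]; exact hvi
      · field_simp
    have : ch D ((x + a) * (x + b)) = 0 := by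
      rw [ch_mul h2' (hx.add ha) (hx.add hb) hab0.1 hab0.2, e1, e2, chr_add_self]
    rw [hsplit, this, add_zero] at hNP
    exact hNP

/-- The parameters of the construction. -/
structure Params (k : Type*) [Field k] where
  /-- parameter of the constant elliptic curve -/
  β : k
  /-- parameter of the elliptic surface -/
  ε : k
  /-- parameter of the third conic -/
  c : k
  /-- the chain of isogenies -/
  A : ℕ → k
  /-- the chain of isogenies -/
  C : ℕ → k
  /-- the special points -/
  w : ℕ → k
  hβ : β ^ 2 ≠ 1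
  hε : ε ≠ 0
  hA0 : A 0 = 1
  hC0 : C 0 = β
  hAC : ∀ n, A n = A (n + 1) + C (n + 1)
  hAC' : ∀ n, C n ^ 2 = 4 * A (n + 1) * C (n + 1)
  hA : ∀ n, A n ≠ 0
  hC : ∀ n, C n ≠ 0
  hw : ∀ n, (1 - w n ^ 2) * C n = ε * A n

/-- The polynomial `P`. -/
def Params.P {k : Type*} [Field k] (p : Params k) {S : Type*} [CommRing S] (i : k →+* S) (u x : S) : S :=
  x * (x + (1 - u ^ 2) ^ 2) * (x + i p.ε ^ 2)

/-- The polynomial `Q`. -/
def Params.Q {k : Type*} [Field k] (p : Params k) {S : Type*} [CommRing S] (i : k →+* S) (y : S) : S :=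
  y * ((y - (1 + i p.β ^ 2)) ^ 2 - 4 * i p.β ^ 2)

/-- The polynomial of the third conic. -/
def Params.E {k : Type*} [Field k] (p : Params k) {S : Type*} [CommRing S] (i : k →+* S) (x N : S) : S :=
  x * (1 + N) ^ 2 + i p.c * N

theorem main_unr (hk : ∀ a : k, i a ∈ B) (hk2 : (2 : k) ≠ 0)
    (hB : ∀ (σ : D) (x : Ω), x ∈ B → σ • x ∈ B) (hfix : ∀ a : k, Fx D (i a))
    (hlc : ∀ x : Ω, IsLocallyConstant (fun σ : D => σ • x)) (p : Params k)
    {u x y N : Ω} (hu : Fx D u) (hx : Fx D x) (hy : Fx D y) (hN : Fx D N)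
    (hx0 : x ≠ 0) (hy0 : y ≠ 0) (hN0 : N ≠ 0) (hP0 : p.P i u x ≠ 0) (hQ0 : p.Q i y ≠ 0)
    (hE0 : p.E i x N ≠ 0) (hNP : T2 (ch D N) (ch D (p.P i u x)))
    (hNQ : T2 (ch D N) (ch D (p.Q i y))) (hNE : T2 (ch D N) (ch D (p.E i x N))) (n m : ℕ)
    (hun : u ≠ i (p.w n)) (hum : u ≠ i (p.w m)) :
    T4 (ch D N) (ch D y) (ch D x) (ch D ((u - i (p.w n)) * (u - i (p.w m)))) ∨
      (B.valuation N = 1 ∧ B.valuation y = 1 ∧ B.valuation x = 1 ∧
        B.valuation ((u - i (p.w n)) * (u - i (p.w m))) = 1) := by
  have e2 : i 2 = 2 := map_ofNat i 2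
  have h2 : B.valuation 2 = 1 := by rw [← e2]; exact val_const hk hk2
  have h2' : (2 : Ω) ≠ 0 := by rw [← e2]; exact (map_ne_zero i).2 hk2
  set g := (u - i (p.w n)) * (u - i (p.w m)) with hg
  have hgF : Fx D g := (hu.sub (hfix _)).mul (hu.sub (hfix _))
  have hg0 : g ≠ 0 := mul_ne_zero (sub_ne_zero.2 hun) (sub_ne_zero.2 hum)
  have cN := ch_isChr h2' hlc hN hN0
  have cx := ch_isChr h2' hlc hx hx0
  have cy := ch_isChr h2' hlc hy hy0
  have cg := ch_isChr h2' hlc hgF hg0
  -- trivial if {N, y} = 0
  have fromNy : T2 (ch D N) (ch D y) → T4 (ch D N) (ch D y) (ch D x) (ch D g) := fun h =>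
    (h.mul_right cx).mul_right cg
  have fromNx : T2 (ch D N) (ch D x) → T4 (ch D N) (ch D y) (ch D x) (ch D g) := fun h =>
    ((h.mul_right cy).swap23 cN cx cy).mul_right cg
  by_cases hGy : Gen B i y
  swap
  · left
    apply fromNy
    have hb1 : (1 + p.β) ≠ 0 := by
      intro h; apply p.hβ; linear_combination (p.β - 1) * h
    have hb2 : (1 - p.β) ≠ 0 := by
      intro h; apply p.hβ; linear_combination (-(p.β) - 1) * h
    refine lemA hk h2 h2' hB hfix (P := p.Q i y) (a := i (-(1 + p.β) ^ 2)) (b := i (-(1 - p.β) ^ 2))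
      hy hy0 (hfix _) (hfix _) (val_const hk (neg_ne_zero.2 (pow_ne_zero 2 hb1)))
      (val_const hk (neg_ne_zero.2 (pow_ne_zero 2 hb2))) ?_ hQ0 ?_ hNQ hGy
    · simp only [Params.Q, map_neg, map_pow, map_add, map_sub, map_one]
      ring
    · refine ⟨i ((1 + p.β) * (1 - p.β)), hfix _, ?_⟩
      simp only [map_neg, map_pow, map_add, map_sub, map_one, map_mul]
      ring
  -- the term `a = (1 - u ^ 2) ^ 2`
  have hεv : B.valuation (i p.ε ^ 2) = 1 := by
    rw [map_pow, val_const hk p.hε, one_pow]
  have hεF : Fx D (i p.ε ^ 2) := (hfix _).pow 2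
  have haF : Fx D ((1 - u ^ 2) ^ 2) := (Fx.one.sub (hu.pow 2)).pow 2
  have hsq : ∃ s, Fx D s ∧ s ^ 2 = (1 - u ^ 2) ^ 2 * i p.ε ^ 2 :=
    ⟨(1 - u ^ 2) * i p.ε, (Fx.one.sub (hu.pow 2)).mul (hfix _), by ring⟩
  by_cases hGu : Gen B i u
  · have hva : B.valuation ((1 - u ^ 2) ^ 2) = 1 := by
      have h1 := hGu 1
      have h3 := hGu (-1)
      rw [map_one] at h1
      rw [map_neg, map_one, sub_neg_eq_add] at h3
      have : (1 - u ^ 2) ^ 2 = ((u - 1) * (u + 1)) ^ 2 := by ring
      rw [this, map_pow, map_mul, h1, h3, one_mul, one_pow]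
    by_cases hvx : B.valuation x = 1
    swap
    · left
      exact fromNx (lemB h2 h2' hB hx hx0 haF hεF hva hεv rfl hP0 hsq hNP hvx)
    by_cases hvN : B.valuation N = 1
    · right
      refine ⟨hvN, hGy.val, hvx, ?_⟩
      rw [hg, map_mul, hGu, hGu, one_mul]
    · left
      apply fromNx
      have h1N : (1 + N) ≠ 0 := by
        intro h
        apply hvN
        have : N = -1 := by linear_combination h
        rw [this, Valuation.map_neg, map_one]
      have hδ : B.valuation (i p.c * N / (x * (1 + N) ^ 2)) < 1 := by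
        have hc1 : B.valuation (i p.c) ≤ 1 := (B.valuation_le_one_iff _).2 (hk _)
        rw [map_div₀, map_mul, map_mul, hvx, one_mul, map_pow]
        have hlt : B.valuation N / B.valuation (1 + N) ^ 2 < 1 := by
          rcases lt_or_gt_of_ne hvN with h | h
          · have := one_add_small h
            rw [this, one_pow, div_one]; exact h
          · have h5 : B.valuation (1 + N) = B.valuation N := by
              have h6 : B.valuation (1 : Ω) < B.valuation N := by rw [map_one]; exact h
              rw [add_comm]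
              exact (B.valuation).map_add_eq_of_lt_left h6
            rw [h5, pow_two, ← div_div, div_self, one_div]
            · exact inv_lt_one_of_one_lt₀ h
            · exact ((B.valuation).ne_zero_iff).2 hN0
        calc B.valuation (i p.c) * B.valuation N / B.valuation (1 + N) ^ 2
            = B.valuation (i p.c) * (B.valuation N / B.valuation (1 + N) ^ 2) := by
              rw [mul_div_assoc]
          _ ≤ 1 * (B.valuation N / B.valuation (1 + N) ^ 2) := mul_le_mul_left hc1 _
          _ < 1 := by rw [one_mul]; exact hlt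
      have hδF : Fx D (i p.c * N / (x * (1 + N) ^ 2)) :=
        ((hfix _).mul hN).div (hx.mul ((Fx.one.add hN).pow 2))
      have hE : ch D (p.E i x N) = ch D x := by
        rw [hens_mul h2 h2' hB (a := x * (1 + N) ^ 2) (hx.mul ((Fx.one.add hN).pow 2)) hδF
          (mul_ne_zero hx0 (pow_ne_zero 2 h1N)) hδ]
        · exact ch_mul_sq h2' hx (Fx.one.add hN) hx0 h1N
        · simp only [Params.E]
          field_simp
      rw [← hE]
      exact hNE
  · left
    rcases not_gen hk hGu with hv | ⟨c0, hc0⟩
    · -- u infinite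
      have hu0 : u ≠ 0 := by
        rintro rfl
        rw [map_zero] at hv
        exact absurd hv (not_lt.2 zero_le)
      have hvi : (B.valuation u)⁻¹ < 1 := inv_lt_one_of_one_lt₀ hv
      have hsm : ∀ a : k, ch D (u - i a) = ch D u := by
        intro a
        apply hens_mul h2 h2' hB hu ((hfix a).neg.div hu) hu0 (δ := -i a / u)
        · rw [map_div₀, Valuation.map_neg]
          have h1 : B.valuation (i a) ≤ 1 := (B.valuation_le_one_iff _).2 (hk _)
          calc B.valuation (i a) / B.valuation u = B.valuation (i a) * (B.valuation u)⁻¹ :=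
                div_eq_mul_inv _ _
            _ ≤ 1 * (B.valuation u)⁻¹ := mul_le_mul_left h1 _
            _ < 1 := by rw [one_mul]; exact hvi
        · field_simp
          ring
      have : ch D g = 0 := by
        rw [hg, ch_mul h2' (hu.sub (hfix _)) (hu.sub (hfix _)) (sub_ne_zero.2 hun)
          (sub_ne_zero.2 hum), hsm, hsm, chr_add_self]
      rw [this]
      exact T4.zero4
    · by_cases hc1 : ∃ j, c0 = p.w j
      swap
      · -- g is a square
        push Not at hc1
        have hsm : ∀ j : ℕ, ch D (u - i (p.w j)) = 0 := by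
          intro j
          apply hens_const hk h2 h2' hB hfix (hu.sub (hfix _)) (c := c0 - p.w j)
            (sub_ne_zero.2 (hc1 j))
          have : u - i (p.w j) - i (c0 - p.w j) = u - i c0 := by
            simp only [map_sub]; ring
          rw [this]
          exact hc0
        have : ch D g = 0 := by
          rw [hg, ch_mul h2' (hu.sub (hfix _)) (hu.sub (hfix _)) (sub_ne_zero.2 hun)
            (sub_ne_zero.2 hum), hsm, hsm, add_zero]
        rw [this]
        exact T4.zero4
      · obtain ⟨j, rfl⟩ := hc1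
        -- the special fibre
        have hw1 : (1 - p.w j ^ 2) ≠ 0 := by
          intro h
          have := p.hw j
          rw [h, zero_mul] at this
          exact mul_ne_zero p.hε (p.hA j) this.symm
        have hvu1 : B.valuation u ≤ 1 := by
          rw [B.valuation_le_one_iff]
          have h1 := (B.valuation_le_one_iff _).1 hc0.le
          have := add_mem h1 (hk (p.w j))
          rwa [sub_add_cancel] at this
        have hdiff : B.valuation ((1 - u ^ 2) - i (1 - p.w j ^ 2)) < 1 := by
          have : (1 - u ^ 2) - i (1 - p.w j ^ 2) = -((u - i (p.w j)) * (u + i (p.w j))) := by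
            simp only [map_sub, map_one, map_pow]; ring
          rw [this, Valuation.map_neg, map_mul]
          have h1 : B.valuation (u + i (p.w j)) ≤ 1 := by
            rw [B.valuation_le_one_iff]
            exact add_mem ((B.valuation_le_one_iff _).1 hvu1) (hk _)
          calc B.valuation (u - i (p.w j)) * B.valuation (u + i (p.w j)) ≤
                B.valuation (u - i (p.w j)) * 1 := mul_le_mul_right h1 _
            _ < 1 := by rw [mul_one]; exact hc0
        have hvA : B.valuation (1 - u ^ 2) = 1 := by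
          have h1 : B.valuation (i (1 - p.w j ^ 2)) = 1 := val_const hk hw1
          have : 1 - u ^ 2 = i (1 - p.w j ^ 2) + ((1 - u ^ 2) - i (1 - p.w j ^ 2)) := by ring
          rw [this, (B.valuation).map_add_eq_of_lt_left (by rw [h1]; exact hdiff), h1]
        have hva : B.valuation ((1 - u ^ 2) ^ 2) = 1 := by rw [map_pow, hvA, one_pow]
        by_cases hGx : Gen B i x
        swap
        · exact fromNx (lemA hk h2 h2' hB hfix hx hx0 haF hεF hva hεv rfl hP0 hsq hNP hGx)
        -- the chain
        set lam : k := p.ε / p.C j with hlam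
        have hlam0 : lam ≠ 0 := div_ne_zero p.hε (p.hC j)
        have hl1 : lam * p.C j = p.ε := div_mul_cancel₀ _ (p.hC j)
        have hl2 : lam * p.A j = 1 - p.w j ^ 2 := by
          rw [hlam, div_mul_eq_mul_div, ← p.hw j, mul_div_assoc, div_self (p.hC j), mul_one]
        have il0 : i lam ≠ 0 := (map_ne_zero i).2 hlam0
        set X := x / i lam ^ 2 with hX
        have hXF : Fx D X := hx.div ((hfix _).pow 2)
        have hXG : Gen B i X := by
          intro c
          have h1 : X - i c = (x - i (c * lam ^ 2)) / i lam ^ 2 := by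
            rw [hX, map_mul, map_pow]; field_simp
          rw [h1, map_div₀, hGx, map_pow, val_const hk hlam0, one_pow, div_one]
        have hchX : ch D X = ch D x :=
          ch_congr h2' hx (Fx.one.div (hfix lam)) hx0 (div_ne_zero one_ne_zero il0)
            (by rw [hX]; field_simp)
        have hxw : B.valuation (x + i (1 - p.w j ^ 2) ^ 2) = 1 := by
          have := hGx (-((1 - p.w j ^ 2) ^ 2))
          rwa [map_neg, map_pow, sub_neg_eq_add] at this
        have hxw0 : x + i (1 - p.w j ^ 2) ^ 2 ≠ 0 := by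
          intro h; rw [h, map_zero] at hxw; exact zero_ne_one hxw
        have hxε0 : x + i p.ε ^ 2 ≠ 0 := by
          intro h; apply hP0; simp only [Params.P]; rw [h, mul_zero]
        -- compare P(u, x) and P(w, x)
        have hcmp : ch D (p.P i u x) = ch D (x * (x + i (1 - p.w j ^ 2) ^ 2) * (x + i p.ε ^ 2)) := by
          apply hens_mul h2 h2' hB
            (δ := ((1 - u ^ 2) ^ 2 - i (1 - p.w j ^ 2) ^ 2) / (x + i (1 - p.w j ^ 2) ^ 2))
          · exact (hx.mul (hx.add ((hfix _).pow 2))).mul (hx.add hεF)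
          · exact (haF.sub ((hfix _).pow 2)).div (hx.add ((hfix _).pow 2))
          · exact mul_ne_zero (mul_ne_zero hx0 hxw0) hxε0
          · rw [map_div₀, hxw, div_one]
            have : (1 - u ^ 2) ^ 2 - i (1 - p.w j ^ 2) ^ 2 =
                ((1 - u ^ 2) - i (1 - p.w j ^ 2)) * ((1 - u ^ 2) + i (1 - p.w j ^ 2)) := by ring
            rw [this, map_mul]
            have h1 : B.valuation ((1 - u ^ 2) + i (1 - p.w j ^ 2)) ≤ 1 := by
              rw [B.valuation_le_one_iff]
              exact add_mem ((B.valuation_le_one_iff _).1 hvA.le) (hk _)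
            calc _ ≤ B.valuation ((1 - u ^ 2) - i (1 - p.w j ^ 2)) * 1 := mul_le_mul_right h1 _
              _ < 1 := by rw [mul_one]; exact hdiff
          · simp only [Params.P]
            field_simp
            ring
        have hXne : ∀ a : k, X + i a ^ 2 ≠ 0 := by
          intro a h
          have := hXG (-(a ^ 2))
          rw [map_neg, map_pow, sub_neg_eq_add, h, map_zero] at this
          exact zero_ne_one this
        have hPX : ch D (x * (x + i (1 - p.w j ^ 2) ^ 2) * (x + i p.ε ^ 2)) =
            ch D (X * (X + i (p.A j) ^ 2) * (X + i (p.C j) ^ 2)) := by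
          apply ch_congr h2' (c := i lam ^ 3)
          · exact (hXF.mul (hXF.add ((hfix _).pow 2))).mul (hXF.add ((hfix _).pow 2))
          · exact (hfix _).pow 3
          · exact mul_ne_zero (mul_ne_zero hXG.ne_zero (hXne _)) (hXne _)
          · exact pow_ne_zero 3 il0
          · rw [← hl1, ← hl2, hX, map_mul, map_mul]
            field_simp
        rw [hcmp, hPX] at hNP
        have h3 := chain hk h2' hlc hfix hN hy hN0 hy0 (β := p.β) (Q := p.Q i y) rfl hQ0 hNQ p.A p.C
          p.hA0 p.hC0 p.hAC p.hAC' j X hXF hXG hNP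
        rw [hchX] at h3
        exact h3.mul_right cg

end main

end Pool.Agent.TH156
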