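import Pool.Agent.TH156.Unr2

set_option autoImplicit false
set_option linter.unusedSectionVars false
set_option linter.unusedVariables false

namespace Pool.Agent.TH156

section top

variable {K L : Type*} [Field K] [Field L] [Algebra K L] [Algebra.IsIntegral K L]

theorem lc_gal (x : L) : IsLocallyConstant (fun σ : L ≃ₐ[K] L => σ • x) := by
  rw [IsLocallyConstant.iff_exists_open]
  intro τ
  have h1 := stabilizer_isOpen_of_isIntegral (K := K) x
  refine ⟨(fun σ => τ⁻¹ * σ) ⁻¹' (MulAction.stabilizer (L ≃ₐ[K] L) x : Set (L ≃ₐ[K] L)),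
    h1.preimage (continuous_const.mul continuous_id), ?_, ?_⟩
  · change τ⁻¹ * τ ∈ MulAction.stabilizer (L ≃ₐ[K] L) x
    rw [inv_mul_cancel]
    exact one_mem _
  · intro σ hσ
    change (τ⁻¹ * σ) • x = x at hσ
    rw [mul_smul, inv_smul_eq_iff] at hσ
    exact hσ

theorem lc_sub (D : Subgroup (L ≃ₐ[K] L)) (x : L) : IsLocallyConstant (fun σ : D => σ • x) :=
  (lc_gal (K := K) x).comp_continuous continuous_subtype_val

theorem fx_gal (a : K) : Fx (L ≃ₐ[K] L) (algebraMap K L a) := fun σ => σ.commutes a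

theorem fx_sub (D : Subgroup (L ≃ₐ[K] L)) (a : K) : Fx D (algebraMap K L a) :=
  fun σ => (σ : L ≃ₐ[K] L).commutes a

theorem mem_inertia {B : ValuationSubring L} {σ : B.decompositionSubgroup K}
    (hσ : σ ∈ B.inertiaSubgroup K) (b : L) (hb : b ∈ B) : B.valuation (σ • b - b) < 1 := by
  have h1 : (MulSemiringAction.toRingAut (B.decompositionSubgroup K)
    (IsLocalRing.ResidueField B)) σ = 1 := hσ
  have h2 := congrArg (fun e : IsLocalRing.ResidueField B ≃+* IsLocalRing.ResidueField B =>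
    e (IsLocalRing.residue B ⟨b, hb⟩)) h1
  have h3 : IsLocalRing.residue B (σ • (⟨b, hb⟩ : B)) = IsLocalRing.residue B ⟨b, hb⟩ := h2
  rw [← sub_eq_zero, ← map_sub, IsLocalRing.residue_eq_zero_iff] at h3
  exact (B.valuation_lt_one_iff _).1 h3

theorem decomp_mem {B : ValuationSubring L} (σ : B.decompositionSubgroup K) (x : L) (hx : x ∈ B) :
    σ • x ∈ B := by
  have := ((B.subMulAction K).smul_mem σ (show x ∈ B.subMulAction K from hx))
  exact this

end top

section cls

variable {K : Type*} [Field K]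

/-- The class of the cup product of four quadratic characters. -/
noncomputable def symCl [CharZero K] (a b c d : K) (ha : a ≠ 0) (hb : b ≠ 0) (hc : c ≠ 0)
    (hd : d ≠ 0) : cocycles 2 4 (GalK K) :=
  ⟨cup4 (ch (GalK K) (algebraMap K (AlgebraicClosure K) a))
      (ch (GalK K) (algebraMap K (AlgebraicClosure K) b))
      (ch (GalK K) (algebraMap K (AlgebraicClosure K) c))
      (ch (GalK K) (algebraMap K (AlgebraicClosure K) d)), by
    have h2 : (2 : AlgebraicClosure K) ≠ 0 := two_ne_zero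
    have hh : ∀ z : K, z ≠ 0 → IsChr (ch (GalK K) (algebraMap K (AlgebraicClosure K) z)) :=
      fun z hz => ch_isChr h2 (lc_gal (K := K)) (fx_gal z) ((map_ne_zero _).2 hz)
    exact cup4_mem (hh a ha) (hh b hb) (hh c hc) (hh d hd)⟩

theorem symCl_unramified {k : Type*} [Field k] [IsAlgClosed k] [CharZero k] [Algebra k K] [CharZero K]
    (p : Params k) {u x y N r s r' s' r'' s'' : K}
    (hx0 : x ≠ 0) (hy0 : y ≠ 0) (hN0 : N ≠ 0)
    (hP0 : p.P (algebraMap k K) u x ≠ 0) (hQ0 : p.Q (algebraMap k K) y ≠ 0)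
    (hE0 : p.E (algebraMap k K) x N ≠ 0)
    (hr : r ≠ 0) (hr' : r' ≠ 0) (hr'' : r'' ≠ 0)
    (h1 : s ^ 2 = N * r ^ 2 + p.P (algebraMap k K) u x)
    (h2 : s' ^ 2 = N * r' ^ 2 + p.Q (algebraMap k K) y)
    (h3 : s'' ^ 2 = N * r'' ^ 2 + p.E (algebraMap k K) x N) (n m : ℕ)
    (hg : (u - algebraMap k K (p.w n)) * (u - algebraMap k K (p.w m)) ≠ 0) :
    (QuotientAddGroup.mk (symCl N y x ((u - algebraMap k K (p.w n)) * (u - algebraMap k K (p.w m)))
      hN0 hy0 hx0 hg) : H 2 4 (GalK K)) ∈ Hnr 2 4 K k := by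
  intro A hA hkA B hB
  refine ⟨_, rfl, ?_⟩
  set Ω := AlgebraicClosure K
  set j := algebraMap K Ω with hj
  set i : k →+* Ω := j.comp (algebraMap k K) with hi
  have hk : ∀ a : k, i a ∈ B := by
    intro a
    have := hkA a
    rw [← hB] at this
    exact this
  have hmapP : j (p.P (algebraMap k K) u x) = p.P i (j u) (j x) := by
    simp only [Params.P, map_mul, map_add, map_pow, map_sub, map_one, hi, RingHom.comp_apply]
  have hmapQ : j (p.Q (algebraMap k K) y) = p.Q i (j y) := by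
    have e4 : j 4 = 4 := map_ofNat j 4
    simp only [Params.Q, map_mul, map_add, map_pow, map_sub, map_one, hi, RingHom.comp_apply, e4]
  have hmapE : j (p.E (algebraMap k K) x N) = p.E i (j x) (j N) := by
    simp only [Params.E, map_mul, map_add, map_pow, map_sub, map_one, hi, RingHom.comp_apply]
  have hne : ∀ {z : K}, z ≠ 0 → j z ≠ 0 := fun hz => (map_ne_zero j).2 hz
  let D := B.decompositionSubgroup K
  have hlc : ∀ x : Ω, IsLocallyConstant (fun σ : D => σ • x) := lc_sub D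
  have h2' : (2 : Ω) ≠ 0 := two_ne_zero
  have fx : ∀ z : K, Fx D (j z) := fx_sub D
  have conic : ∀ {N' r₀ s₀ P₀ : K}, N' ≠ 0 → r₀ ≠ 0 → P₀ ≠ 0 → s₀ ^ 2 = N' * r₀ ^ 2 + P₀ →
      T2 (ch D (j N')) (ch D (j P₀)) := by
    intro N' r₀ s₀ P₀ hN' hr₀ hP₀ h
    have e : ch D (j N' * j r₀ ^ 2) = ch D (j N') :=
      ch_mul_sq h2' (fx N') (fx r₀) (hne hN') (hne hr₀)
    rw [← e]
    apply steinberg h2' hlc (c := j s₀) ((fx N').mul ((fx r₀).pow 2)) (fx P₀) (fx s₀)
      (mul_ne_zero (hne hN') (pow_ne_zero 2 (hne hr₀))) (hne hP₀)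
    rw [← map_pow, ← map_mul, ← map_add, ← map_pow, h]
  have t1 := conic hN0 hr hP0 h1
  have t2 := conic hN0 hr' hQ0 h2
  have t3 := conic hN0 hr'' hE0 h3
  rw [hmapP] at t1
  rw [hmapQ] at t2
  rw [hmapE] at t3
  have hfix : ∀ a : k, Fx D (i a) := fun a => fx _
  have hgn : (u - algebraMap k K (p.w n)) ≠ 0 := left_ne_zero_of_mul hg
  have hgm : (u - algebraMap k K (p.w m)) ≠ 0 := right_ne_zero_of_mul hg
  have main := main_unr (D := D) hk (two_ne_zero) (fun σ x hx => decomp_mem σ x hx) hfix hlc p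
    (fx u) (fx x) (fx y) (fx N) (hne hx0) (hne hy0) (hne hN0)
    (by rw [← hmapP]; exact hne hP0) (by rw [← hmapQ]; exact hne hQ0)
    (by rw [← hmapE]; exact hne hE0) t1 t2 t3 n m
    (by
      intro h; apply hgn
      apply j.injective
      rw [map_sub, map_zero, h]
      simp [hi])
    (by
      intro h; apply hgm
      apply j.injective
      rw [map_sub, map_zero, h]
      simp [hi])
  have hgmap : (j u - i (p.w n)) * (j u - i (p.w m)) =
      j ((u - algebraMap k K (p.w n)) * (u - algebraMap k K (p.w m))) := by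
    simp only [map_mul, map_sub, hi, RingHom.comp_apply]
  rw [hgmap] at main
  have hres : resCochain 2 4 D (symCl N y x ((u - algebraMap k K (p.w n)) *
      (u - algebraMap k K (p.w m))) hN0 hy0 hx0 hg : (Fin 4 → GalK K) → ZMod 2) =
      cup4 (ch D (j N)) (ch D (j y)) (ch D (j x))
        (ch D (j ((u - algebraMap k K (p.w n)) * (u - algebraMap k K (p.w m))))) := rfl
  rcases main with hT | ⟨v1, v2, v3, v4⟩
  · refine ⟨0, zero_mem _, fun _ _ _ => rfl, ?_⟩
    rw [sub_zero, hres]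
    exact hT.mem
  · refine ⟨cup4 (ch D (j N)) (ch D (j y)) (ch D (j x))
        (ch D (j ((u - algebraMap k K (p.w n)) * (u - algebraMap k K (p.w m))))), ?_, ?_, ?_⟩
    · have hh : ∀ z : K, z ≠ 0 → IsChr (ch D (j z)) :=
        fun z hz => ch_isChr h2' hlc (fx z) (hne hz)
      exact cup4_mem (hh _ hN0) (hh _ hy0) (hh _ hx0) (hh _ hg)
    · have v2' : B.valuation (2 : Ω) = 1 := by
        have e2 : i 2 = 2 := map_ofNat i 2
        rw [← e2]
        exact val_const hk two_ne_zero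
      have hI : ∀ (z : K), z ≠ 0 → B.valuation (j z) = 1 → ∀ σ τ : D, σ⁻¹ * τ ∈ B.inertiaSubgroup K →
          ch D (j z) σ = ch D (j z) τ := by
        intro z hz hv σ τ hστ
        have hchr := ch_isChr h2' hlc (fx z) (hne hz)
        have h5 : ch D (j z) (σ * (σ⁻¹ * τ)) = ch D (j z) σ + ch D (j z) (σ⁻¹ * τ) := hchr.mul _ _
        rw [mul_inv_cancel_left] at h5
        rw [h5, inert v2' (fx z) hv (fun b hb => mem_inertia hστ b hb), add_zero]
      intro g g' hgg
      simp only [cup4]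
      rw [hI N hN0 v1 _ _ (hgg 0), hI y hy0 v2 _ _ (hgg 1), hI x hx0 v3 _ _ (hgg 2),
        hI _ hg v4 _ _ (hgg 3)]
    · rw [hres, sub_self]
      exact zero_mem _

end cls

end Pool.Agent.TH156
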